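import Mathlib

/-!
# MP_4318ff_ag: definitions (over a general field `k`)

Same language as `Spec/Statement.lean` of helper10, over an arbitrary field `k`.
`F k = k(x, y)`, `gen = (1 : x : y)`, `ev a` = value of the linear form `a` at the generic point.
-/

set_option autoImplicit false

namespace Pool.Agent.Lib.MP_4318ff_ag

open scoped LinearAlgebra.Projectivization

section Field

variable (k : Type) [Field k]

/-- The function field of the projective plane. -/
abbrev F : Type := FractionRing (MvPolynomial (Fin 2) k)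

/-- The generic point `(1 : x : y)` of the plane. -/
noncomputable def gen : Fin 3 → F k :=
  ![1, algebraMap (MvPolynomial (Fin 2) k) (F k) (MvPolynomial.X 0),
    algebraMap (MvPolynomial (Fin 2) k) (F k) (MvPolynomial.X 1)]

end Field

variable {k : Type} [Field k]

/-- The value of the linear form with the coefficients `a` at the generic point. -/
noncomputable def ev (a : Fin 3 → k) : F k := ∑ i, algebraMap k (F k) (a i) * gen k i

/-- The points of the projective plane. -/
abbrev Pt (k : Type) [Field k] : Type := ℙ k (Fin 3 → k)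

variable (k) in
/-- A configuration of `r` different lines `ℓ i = 0`, not all through one point. -/
structure Config (r : ℕ) where
  ℓ : Fin r → Fin 3 → k
  indep : ∀ i j, i ≠ j → LinearIndependent k ![ℓ i, ℓ j]
  span : Submodule.span k (Set.range ℓ) = ⊤

variable {r : ℕ}

namespace Config

variable (C : Config k r)

/-- The lines through the point `P`. -/
def through (P : Pt k) : Set (Fin r) := {i | C.ℓ i ⬝ᵥ P.rep = 0}

/-- The points of multiplicity at least `3`. -/
def M : Set (Pt k) := {P | 3 ≤ (C.through P).ncard}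

/-- Infinitesimal rigidity: every first order deformation `ℓ i + ε β i` of the forms which keeps the incidences at all
points of multiplicity at least `3` (the point `P` moves to `P + ε w`) is trivial, that is, it comes from an infinitesimal
projective transformation `B` and from a rescaling of the forms. -/
def InfRigid : Prop :=
  ∀ β : Fin r → Fin 3 → k,
    (∀ P ∈ C.M, ∃ w : Fin 3 → k, ∀ i ∈ C.through P, β i ⬝ᵥ P.rep + C.ℓ i ⬝ᵥ w = 0) →
    ∃ (B : Matrix (Fin 3) (Fin 3) k) (s : Fin r → k), ∀ i, β i = Matrix.vecMul (C.ℓ i) B + s i • C.ℓ i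

/-- The linear relations between the forms of the lines through `P`. -/
def IsRel (P : Pt k) (ρ : Fin r → k) : Prop :=
  (∀ i, i ∉ C.through P → ρ i = 0) ∧ ∑ i, ρ i • C.ℓ i = 0

end Config

/-- An affine chart of the blow-up of the plane in the points of `C.M`. -/
structure Chart (C : Config k r) where
  b : Fin 3 → k
  b_ne : b ≠ 0
  a : Pt k → Fin 3 → k
  a_ne : ∀ P ∈ C.M, a P ≠ 0
  a_through : ∀ P ∈ C.M, a P ⬝ᵥ P.rep = 0

namespace Chart

variable {C : Config k r} (u : Chart C)

/-- The coordinate ring of the chart. -/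
noncomputable def R : Subalgebra k (F k) :=
  Algebra.adjoin k ({z | ∃ c : Fin 3 → k, z = ev c / ev u.b} ∪
    {z | ∃ P ∈ C.M, ∃ c : Fin 3 → k, c ⬝ᵥ P.rep = 0 ∧ z = ev c / ev (u.a P)})

end Chart

/-! ### Integral closures -/

section K

variable (K : Type) [Field K] [Algebra (F k) K]

/-- The elements of `K` which are integral over the subalgebra `S` of `F`. -/
noncomputable def ic (S : Subalgebra k (F k)) : Subring K := (integralClosure S K).toSubring

/-- The integral closure of the coordinate ring of the chart `u` in `K`. -/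
noncomputable def Chart.A {C : Config k r} (u : Chart C) : Subring K := ic K u.R

/-- The field generated by `F` and the `n`-th roots of the quotients of the lines. -/
noncomputable def Kummer (C : Config k r) (n : ℕ) : Subfield K :=
  Subfield.closure (Set.range (algebraMap (F k) K) ∪
    {u | ∃ i j, u ^ n = algebraMap (F k) K (ev (C.ℓ i) / ev (C.ℓ j))})

/-- All `n`-th roots of quotients of lines exist in `K`. -/
def Roots (C : Config k r) (n : ℕ) : Prop :=
  ∀ i j, ∃ u : K, u ^ n = algebraMap (F k) K (ev (C.ℓ i) / ev (C.ℓ j))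

end K

/-! ### Prime divisors of the blow-up `S`, given by their local rings in `F` -/

/-- The map `k[X, Y] → F`, `X ↦ z`, `Y ↦ w`. -/
noncomputable def cm (z w : F k) : MvPolynomial (Fin 2) k →ₐ[k] F k := MvPolynomial.aeval ![z, w]

/-- `z, w` are coordinates: `k[z, w]` is a polynomial ring with fraction field `F`. -/
def IsCoord (z w : F k) : Prop :=
  Function.Injective (cm z w) ∧ ∀ f : F k, ∃ h₁ h₂ : MvPolynomial (Fin 2) k, h₂ ≠ 0 ∧ f = cm z w h₁ / cm z w h₂

/-- `O` is the localisation of `k[z, w]` at the prime ideal generated by the irreducible polynomial `p`. -/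
def IsLoc (z w : F k) (p : MvPolynomial (Fin 2) k) (O : Subalgebra k (F k)) : Prop :=
  Irreducible p ∧ ∀ f, f ∈ O ↔ ∃ h₁ h₂ : MvPolynomial (Fin 2) k, ¬ p ∣ h₂ ∧ f * cm z w h₂ = cm z w h₁

/-- `π` is a uniformiser of `O`. -/
def IsUnif (O : Subalgebra k (F k)) (π : F k) : Prop :=
  π ∈ O ∧ π⁻¹ ∉ O ∧ ∀ f : F k, f ≠ 0 → ∃ (e : ℤ) (u : F k), u ∈ O ∧ u⁻¹ ∈ O ∧ f = π ^ e * u

/-- `O` is the local ring of an irreducible curve of the plane. -/
def IsCurve (O : Subalgebra k (F k)) : Prop :=
  ∃ (b c d : Fin 3 → k) (p : MvPolynomial (Fin 2) k), LinearIndependent k ![b, c, d] ∧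
    IsLoc (ev c / ev b) (ev d / ev b) p O

/-- `O` is the local ring of the exceptional curve over the point `P`. -/
def IsExc (P : Pt k) (O : Subalgebra k (F k)) : Prop :=
  ∃ b c d : Fin 3 → k, LinearIndependent k ![b, c, d] ∧ c ⬝ᵥ P.rep = 0 ∧ d ⬝ᵥ P.rep = 0 ∧
    IsLoc (ev c / ev b) (ev d / ev c) (MvPolynomial.X 0) O

/-- `O` is the local ring of a prime divisor of the blow-up `S` of the plane in `C.M`. -/
def IsDiv (C : Config k r) (O : Subalgebra k (F k)) : Prop := IsCurve O ∨ ∃ P ∈ C.M, IsExc P O

/-- The form `b` does not vanish on the divisor `O` (all quotients `c / b` are regular along `O`). -/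
def UnitForm (O : Subalgebra k (F k)) (b : Fin 3 → k) : Prop := b ≠ 0 ∧ ∀ c : Fin 3 → k, ev c / ev b ∈ O

/-! ### Derivations and cocycles -/

section Der

variable (K : Type) [Field K] [Algebra (F k) K] [Algebra k K] [IsScalarTower k (F k) K]

/-- The subfield of `F` generated by the quotients of forms through `P`. -/
noncomputable def PF (P : Pt k) : IntermediateField k (F k) :=
  IntermediateField.adjoin k {z | ∃ c c' : Fin 3 → k, c ⬝ᵥ P.rep = 0 ∧ c' ⬝ᵥ P.rep = 0 ∧ z = ev c / ev c'}

/-- The coordinate ring of the chart `a ≠ 0` of the pencil `P`. -/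
noncomputable def PR (P : Pt k) (a : Fin 3 → k) : Subalgebra k (F k) :=
  Algebra.adjoin k {z | ∃ c : Fin 3 → k, c ⬝ᵥ P.rep = 0 ∧ z = ev c / ev a}

variable {K} in
/-- `Δ` is a regular vector field along the pencil `P` at the divisor `O`, logarithmic at the lines of `C` through `P`. -/
def RegAt (C : Config k r) (n : ℕ) (P : Pt k) (O : Subalgebra k (F k)) (Δ : Derivation k K K) : Prop :=
  (∀ c c' : Fin 3 → k, c ⬝ᵥ P.rep = 0 → c' ⬝ᵥ P.rep = 0 → ev c / ev c' ∈ O →
    Δ (algebraMap (F k) K (ev c / ev c')) ∈ ic K O) ∧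
  (∀ i ∈ C.through P, ∀ j ∈ C.through P, ev (C.ℓ i) / ev (C.ℓ j) ∈ O →
    ∀ z : K, z ^ n = algebraMap (F k) K (ev (C.ℓ i) / ev (C.ℓ j)) → Δ z ∈ ic K O)

variable {K} in
/-- Cocycles of derivations. -/
def IsCocycle {C : Config k r} (D : Chart C → Chart C → Derivation k K K) : Prop :=
  ∀ u v w, D u v + D v w = D u w

variable {K} in
/-- The cochain `D` has values in the pull back of the tangent sheaf of the Hirzebruch-Kummer covering. -/
def Pres {C : Config k r} (n : ℕ) (D : Chart C → Chart C → Derivation k K K) : Prop :=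
  ∀ u v, ∀ x ∈ ic K (u.R ⊔ v.R), x ∈ Kummer K C n → D u v x ∈ ic K (u.R ⊔ v.R)

variable {K} in
/-- The cocycle `D` is a coboundary (of sections of the pull back of the tangent sheaf of the Hirzebruch-Kummer covering). -/
def IsBdry {C : Config k r} (n : ℕ) (D : Chart C → Chart C → Derivation k K K) : Prop :=
  ∃ E : Chart C → Derivation k K K, (∀ u, ∀ x ∈ ic K u.R, x ∈ Kummer K C n → E u x ∈ ic K u.R) ∧
    ∀ u v, D u v = E v - E u

variable {K} in
/-- Equality of two derivations along the pencil `P`. -/
def EqOn (P : Pt k) (D D' : Derivation k K K) : Prop :=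
  ∀ c c' : Fin 3 → k, c ⬝ᵥ P.rep = 0 → c' ⬝ᵥ P.rep = 0 →
    D (algebraMap (F k) K (ev c / ev c')) = D' (algebraMap (F k) K (ev c / ev c'))

variable {K} in
/-- The pencil `P` extends to the deformation given by `D` without changing its base curve. -/
def ExtOne {C : Config k r} (n : ℕ) (P : Pt k) (D : Chart C → Chart C → Derivation k K K) : Prop :=
  ∃ Δ : Chart C → Derivation k K K,
    (∀ u, ∀ O, IsDiv C O → u.R ≤ O → RegAt C n P O (Δ u)) ∧ ∀ u v, EqOn P (D u v) (Δ v - Δ u)

variable {K} in
/-- The pencil `P` extends to the deformation given by `D`: there is a cocycle `E` on the base curve of the pencil such that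
`D` and `E` differ by a coboundary. -/
def Ext {C : Config k r} (n : ℕ) (P : Pt k) (D : Chart C → Chart C → Derivation k K K) : Prop :=
  ∃ (Δ : Chart C → Derivation k K K) (E : (Fin 3 → k) → (Fin 3 → k) → Derivation k K K),
    (∀ u, ∀ O, IsDiv C O → u.R ≤ O → RegAt C n P O (Δ u)) ∧
    (∀ a a' : Fin 3 → k, a ≠ 0 → a' ≠ 0 → a ⬝ᵥ P.rep = 0 → a' ⬝ᵥ P.rep = 0 →
      (∀ O, IsDiv C O → PR P a ≤ O → PR P a' ≤ O → RegAt C n P O (E a a')) ∧
      ∀ c c' : Fin 3 → k, c ⬝ᵥ P.rep = 0 → c' ⬝ᵥ P.rep = 0 →
        IsAlgebraic (PF P) (E a a' (algebraMap (F k) K (ev c / ev c')))) ∧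
    ∀ u v, EqOn P (D u v) (Δ v - Δ u + E (u.a P) (v.a P))

/-! ### The action of the Galois group -/

variable {K} in
/-- The conjugate `g D g⁻¹` of a derivation. -/
noncomputable def conjD (g : K ≃ₐ[F k] K) (D : Derivation k K K) : Derivation k K K :=
  Derivation.mk'
    ((g.toLinearMap.restrictScalars k) ∘ₗ D.toLinearMap ∘ₗ (g.symm.toLinearMap.restrictScalars k))
    (by intro a b; simp [mul_comm])

/-- The subgroup `N_P` of the Galois group of all `g` which fix the elements algebraic over the pencil field. -/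
def NP (P : Pt k) : Subgroup (K ≃ₐ[F k] K) where
  carrier := {g | ∀ y : K, IsAlgebraic (PF P) y → g y = y}
  mul_mem' := by
    intro g h hg hh y hy
    change ∀ y : K, IsAlgebraic (PF P) y → g y = y at hg
    change ∀ y : K, IsAlgebraic (PF P) y → h y = y at hh
    rw [AlgEquiv.mul_apply, hh y hy, hg y hy]
  one_mem' := by intro y _; rfl
  inv_mem' := by
    intro g hg y hy
    have := hg y hy
    calc g⁻¹ y = g⁻¹ (g y) := by rw [this]
      _ = y := by
        change g.symm (g y) = y
        exact g.symm_apply_apply y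

end Der

end Pool.Agent.Lib.MP_4318ff_ag
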