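import Pool.Agent.Lib.MP_4318ff_ag.Spec.A3

/-!
# MP_4318ff_ag, part A, fourth block: interface with part S in the form (S1), (S2)

(S1) = `S1Stmt` (part S, helper10, helper12; `k = ℂ`): a cocycle whose average over `N_P` is zero extends the pencil `P`.
(S2) = invariant cocycles: `H¹` of the blown up plane, proved here (`S2FStmt`).
-/

set_option autoImplicit false

namespace Pool.Agent.Lib.MP_4318ff_ag

open scoped LinearAlgebra.Projectivization

/-- (S1), the output of part S (helper10, helper12) for `k = ℂ`. -/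
def S1Stmt (k : Type) [Field k] : Prop := ∀ (r n : ℕ) (C : Config k r) (K : Type)
  [Field K] [Algebra (F k) K] [Algebra k K] [IsScalarTower k (F k) K] [FiniteDimensional (F k) K] [IsGalois (F k) K],
  4 ≤ n → Roots K C n → ∀ P ∈ C.M, ∀ D : Chart C → Chart C → Derivation k K K, IsCocycle D → Pres n D →
  (∀ u v, avgD (NP K P) (D u v) = 0) → ExtOne n P D

/-- MODULE `B/PresReg` (80 lines). USES `EvStmt`, `UnifStmt`, `CurveStmt`, `ExcStmt`. PROOF: let `O ⊇ u.R, v.R`, `a = u.a P`. (i) `c/c' ∈ O`, `c, c' ∈ P^⊥`, `c' ≠ 0`: `c/a, c'/a ∈ u.R ≤ O`; `c'/a` is a unit of `O`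
(if `c, c'` are independent, `1 = a/a` is a combination of `c/a` and `c'/a`, and `c/a = (c/c')(c'/a)`; if they are dependent `c/c'` is constant and nothing is to be shown). `D(c/a), D(c'/a) ∈ ic K (u.R ⊔ v.R) ≤ ic K O`; quotient rule. (ii) `z^n = ℓ_i/ℓ_j ∈ O`:
`y = z ℓ_j/a` satisfies `y^n = (ℓ_i/a)(ℓ_j/a)^(n-1) ∈ u.R`, so `y ∈ ic K (u.R ⊔ v.R) ∩ Kummer`; `D y, D(ℓ_j/a) ∈ ic K O`, `ℓ_j/a` is a unit of `O`. -/
def PresRegStmt : Prop := ∀ (k : Type) [Field k] [CharZero k] (r n : ℕ) (C : Config k r) (K : Type)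
  [Field K] [Algebra (F k) K] [Algebra k K] [IsScalarTower k (F k) K], 0 < n →
  ∀ D : Chart C → Chart C → Derivation k K K, Pres n D → ∀ P ∈ C.M, ∀ u v O, IsDiv C O → u.R ≤ O → v.R ≤ O →
  RegAt C n P O (D u v)

/-- MODULE `B/ChartExA` (60 lines). Every divisor over the part `a ≠ 0` of the pencil `P` lies in a chart with `a P = a`. USES `ChartExStmt`. PROOF: take a chart containing `O` and replace its form `a P` by `a`; the new generators
`c/a`, `c ∈ P^⊥`, are in `PR P a ≤ O`. -/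
def ChartExAStmt : Prop := ∀ (k : Type) [Field k] (r : ℕ) (C : Config k r) (O : Subalgebra k (F k)) (P : Pt k) (a : Fin 3 → k),
  IsDiv C O → P ∈ C.M → a ≠ 0 → a ⬝ᵥ P.rep = 0 → PR P a ≤ O → ∃ u : Chart C, u.R ≤ O ∧ u.a P = a

/-- MODULE `B/Tay` (90 lines). Expansions. Let `O` have the uniformiser `π`, `B ≤ O` a subalgebra. The set `T` of all `f ∈ F` such that for all `N` there is `p ∈ B[π, 1/π]` with `f - p ∈ π^N O` is a subalgebra containing `B, π, 1/π`; if `f ∈ T` and `f - c ∈ π O` for a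
constant `c ≠ 0`, then `f⁻¹ ∈ T`. PROOF: products: `f = p + π^N o`, `g = q + π^N o'`, the orders of `p` and `q` are bounded below independently of `N` (they are `≥ min(order f, 0)` for `N ≥ 0`... take `N` larger). Inverse: `f = c (1 + π g)`, `g = (f/c - 1)/π ∈ T ∩ O`,
`1/(1 + π g) - ∑_(j<N) (-π g)^j = (-π g)^N/(1 + π g) ∈ π^N O` and the sum lies in `T`. -/
def TayStmt : Prop := ∀ (k : Type) [Field k] (O B : Subalgebra k (F k)) (π : F k), IsUnif O π → B ≤ O →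
  ∃ T : Subalgebra k (F k),
    (∀ f, f ∈ T ↔ ∀ N : ℕ, ∃ p ∈ Algebra.adjoin k ((B : Set (F k)) ∪ {π, π⁻¹}), ∃ o ∈ O, f = p + π ^ N * o) ∧
    π ∈ T ∧ π⁻¹ ∈ T ∧ B ≤ T ∧
    ∀ f ∈ T, ∀ c : k, c ≠ 0 → (∃ o ∈ O, f = algebraMap k (F k) c + π * o) → f⁻¹ ∈ T

/-- MODULE `B/SideT` (120 lines). Polar parts along the line `x = t`. USES `LocStmt`, `TayStmt`. PROOF: `σ = (x - t)/(l' - l)`... write `λ` for the first coordinate, `σ = (x - t)/(λ - l)`. Every element of the algebra is a sum of elements `r σ^m`, `m ∈ ℤ`, `r ∈ R⁰ = k[λ, x, (λ - l')/(x - t') ((l', t') ∈ pts, t' ≠ t)]`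
(the set of such sums is closed under multiplication). `m ≥ 0`: in `O`. For `r σ^(-m)`, `m > 0`: `TayStmt` with `π = x - t`, `B = k[λ]`: `R⁰ ≤ T` (`x - t' = (t - t') + π`), so `r = p + π^m o` with `p ∈ k[λ][π, 1/π]`, and `r ∈ O` allows to take `p = ∑_(j<m) r_j π^j`, `r_j ∈ k[λ]` (the terms with
negative exponents vanish, those with `j ≥ m` go to `o`). `r σ^(-m) = ∑_(j<m) r_j (λ - l)^j σ^(-(m-j)) + (λ - l)^m o`. -/
def SideTStmt : Prop := ∀ (k : Type) [Field k] (lam x : F k) (l t : k) (pts : Finset (k × k)) (O : Subalgebra k (F k)),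
  IsCoord lam x → IsLoc lam x (MvPolynomial.X 1 - MvPolynomial.C t) O → (∀ q ∈ pts, q.2 ≠ t) →
  let κ := algebraMap k (F k)
  ∀ f ∈ Algebra.adjoin k ({lam, x, (x - κ t) / (lam - κ l), (lam - κ l) / (x - κ t)} ∪
      {z | ∃ q ∈ pts, z = (lam - κ q.1) / (x - κ q.2)}),
    ∃ y ∈ Algebra.adjoin k {lam, (lam - κ l) / (x - κ t)}, f - y ∈ O

/-- MODULE `B/SideP` (90 lines). Polynomial parts at `x = ∞`. USES `LocStmt`, `TayStmt`. PROOF: `TayStmt` with `π = 1/x`, `B = k[λ]` (`O` is the localisation of `k[1/x, λ]` at `1/x`; it contains `k(λ)`). `β x + α λ + γ = x β (1 + π (αλ + γ)/β)`, so its inverse lies in `T`. So `f = p + o`, `p ∈ k[λ][x, 1/x]`; `y` = the part of `p` with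
nonnegative exponents of `x`. -/
def SidePStmt : Prop := ∀ (k : Type) [Field k] (lam x : F k) (O : Subalgebra k (F k)),
  IsCoord lam x → IsCoord (1 / x) lam → IsLoc (1 / x) lam (MvPolynomial.X 0) O →
  let κ := algebraMap k (F k)
  ∀ f ∈ Algebra.adjoin k ({lam, x} ∪ {z | ∃ α β γ : k, β ≠ 0 ∧ z = (κ β * x + κ α * lam + κ γ)⁻¹}),
    ∃ y ∈ Algebra.adjoin k {lam, x}, f - y ∈ O

/-- MODULE `B/HartUV` (120 lines). Hartogs for the intersection of two charts. USES `EvStmt`, `UnifStmt`, `HartStmt`, `MFinStmt`, `CurveStmt`, `ExcStmt`. PROOF: `X = (v.b/u.b) ∏_(P ∈ C.M) (v.a P/u.a P) ∈ u.R`, `X⁻¹ ∈ v.R`, and `u.R ⊔ v.R = u.R[X⁻¹]` (each factor `v.b/u.b`, `v.a P/u.a P` is in `u.R` and has its inverse in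
`u.R[X⁻¹]`; `c/v.b = (c/u.b)(u.b/v.b)`, etc.). For `O ⊇ u.R` a divisor: `X ∈ O`; if `X` is a unit of `O` then `v.R ≤ O` and `f ∈ O`; if not, `X^N f ∈ O` for large `N`; there are only finitely many such `O` (`O` is a line `v.b` or `v.a P`, or exceptional over a point of `C.M`). So `X^N f ∈ u.R` for a large `N` by `HartStmt`. -/
def HartUVStmt : Prop := ∀ (k : Type) [Field k] (r : ℕ) (C : Config k r) (u v : Chart C) (f : F k),
  (∀ O, IsDiv C O → u.R ≤ O → v.R ≤ O → f ∈ O) → f ∈ u.R ⊔ v.R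

/-- MODULE `B/Side` (250 lines, may be split). `H¹(S_a, O) = 0` for the part `S_a` of `S` over `a ≠ 0` in the pencil `P`. USES `EvStmt`, `CoordStmt`, `LocStmt`, `UnifStmt`, `CurveStmt`, `ExcStmt`, `MFinStmt`, `HartUVStmt`, `SideTStmt`, `SidePStmt`. PROOF: choose `a' ∈ P^⊥` independent of `a` and (finitely many
conditions, `k` infinite) a form `b'` with `b'(P) ≠ 0` such that the numbers `x_T = b'(T)/a(T)`, `T ∈ M₁ := {T ∈ C.M, T ≠ P, a(T) ≠ 0}`, are different. `λ = a'/a`, `x = b'/a`, `λ_T = a'(T)/a(T)`. Base chart `u₀`: `b = a`, `a_P = a`, `a_T = b' - x_T a` for `T ∈ M₁`, `a_T = a` for `T ∈ C.M`, `T ≠ P`, `a(T) = 0`.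
`u₀.R = k[λ, x, (λ - λ_T)/(x - x_T)]`. (1) An `O` with `IsDiv C O`, `PR P a ≤ O` and not `u₀.R ≤ O` is either the line `b' - x_T a` for a `T ∈ M₁` or the exceptional curve over `P` (a curve `O` with `PR P a ≤ O` has `UnitForm O a`, because the two
independent forms `a, a'`..: `a'/a ∈ O` and one of `a, a'` is a unit form; exceptional curve over `T ≠ P`: `λ ∈ O` implies `a(T) ≠ 0`). (2) For `T ∈ M₁` let `u_T` be `u₀` with `a_T` replaced by `a' - λ_T a`. `c u₀ u_T ∈ u₀.R ⊔ u_T.R` (`HartUVStmt`), and `u₀.R ⊔ u_T.R = k[λ, x, (λ - λ_T)/(x - x_T), (x - x_T)/(λ - λ_T), (λ - λ_(T'))/(x - x_(T')) (T' ≠ T)]`. `SideTStmt` gives `y_T ∈ k[λ, (λ - λ_T)/(x - x_T)]` with `c u₀ u_T - y_T ∈ O` for `O` = the line `x = x_T`. (3) `u_P`: `b` = `b'`, `a_P = a`, `a_T` any form through `T` with `a_T(P) ≠ 0`; `c u₀ u_P ∈ u₀.R ⊔ u_P.R` (`HartUVStmt`), which is contained in the algebra of `SidePStmt` (`u_P.R` is generated by `a/b' = 1/x`,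 `a'/b' = λ/x`, `c/a`, and `c/a_T`, `c ∈ T^⊥`, `a_T/a = β x + α λ + γ` with `β ≠ 0`): `y_P ∈ k[λ, x]` with `c u₀ u_P - y_P ∈ O_P`. (4) `y := - ∑_T y_T - y_P`, `X u := y + c u₀ u` for the charts with `u.a P = a`. `c u v = X v - X u`. `X u ∈ O` for all `O ⊇ u.R`: if `u₀.R ≤ O` clear (`y ∈ u₀.R`, `c u₀ u ∈ O`). If `O` is the line `x = x_T`: `c u₀ u = c u₀ u_T + c u_T u`,
`c u_T u ∈ O`, `c u₀ u_T - y_T ∈ O`, and `y_(T') ∈ O` for `T' ≠ T`, `y_P ∈ O`. If `O = O_P`: `c u₀ u_P - y_P ∈ O`, `y_T ∈ O_P`. -/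
def SideStmt : Prop := ∀ (k : Type) [Field k] [IsAlgClosed k] (r : ℕ) (C : Config k r) (P : Pt k) (a : Fin 3 → k),
  P ∈ C.M → a ≠ 0 → a ⬝ᵥ P.rep = 0 → ∀ c : Chart C → Chart C → F k,
  (∀ u v, u.a P = a → v.a P = a → ∀ O, IsDiv C O → u.R ≤ O → v.R ≤ O → c u v ∈ O) →
  (∀ u v w, u.a P = a → v.a P = a → w.a P = a → c u v + c v w = c u w) →
  ∃ X : Chart C → F k, (∀ u, u.a P = a → ∀ O, IsDiv C O → u.R ≤ O → X u ∈ O) ∧
    ∀ u v, u.a P = a → v.a P = a → c u v = X v - X u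

/-- MODULE `B/Overlap` (70 lines). The ring of the intersection of two charts of `Y`. USES `MFinStmt`. PROOF: `X` as in `HartUVStmt`: `u.R ⊔ v.R = u.R[X⁻¹]`, `X⁻¹ ∈ v.R`. If `y` is integral over `u.R[X⁻¹]` then `X^N y` is integral over `u.R`, so `y = (X^N y) X^(-N) ∈ u.A ⊔ v.A`. The other inclusion is clear. -/
def OverlapStmt : Prop := ∀ (k : Type) [Field k] (r : ℕ) (C : Config k r) (K : Type) [Field K] [Algebra (F k) K]
  (u v : Chart C), ic K (u.R ⊔ v.R) = u.A K ⊔ v.A K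

/-- MODULE `B/GlobP` (70 lines). USES `EvStmt`, `CoordStmt`, `LocStmt`, `UnifStmt`, `CurveStmt`, `ExcStmt`. PROOF: coordinates `λ = a''/a`, `x = b/a` (`a, a''` basis of `P^⊥`, `b(P) ≠ 0`), `f` is regular at all curves on which `a` and `a'` are unit forms (they contain `PR P a`, `PR P a'`), so `f = h(λ, x)/g(λ)` with `h` a polynomial, `g` a power of
`a'/a` (UFD); at the exceptional curve over `P` (localisation of `k[1/x, λ]` at `1/x`) `f ∈ O` gives that `h` has degree `0` in `x`. So `f ∈ k(λ) = PF P`. -/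
def GlobPStmt : Prop := ∀ (k : Type) [Field k] (r : ℕ) (C : Config k r) (P : Pt k) (a a' : Fin 3 → k) (f : F k),
  P ∈ C.M → a ≠ 0 → a' ≠ 0 → a ⬝ᵥ P.rep = 0 → a' ⬝ᵥ P.rep = 0 →
  (∀ O, IsDiv C O → PR P a ≤ O → PR P a' ≤ O → f ∈ O) → f ∈ PF P

open Classical in
/-- MODULE `B/LogDiv` (120 lines). Logarithmic vector fields are multiples of `g`. USES `EvStmt`, `UnifStmt`. Let `(a, a')` be a basis of `P^⊥`, `λ = a'/a`, `g` the product of `ℓ_i/a` over the lines through `P` independent of `a`, `PR P a ≤ O`, `O` with a uniformiser. Then `RegF C P O δ` iff `δ(λ) ∈ g O`.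
PROOF: for a form `c ∈ P^⊥`: `c/a ∈ O`, and at most one of the `c/a` up to a factor is not a unit (two independent `c, c'` give `1` as a combination of `c/a, c'/a`). If all `ℓ_i/a` are units (`i` through `P`): `g` is a unit; `δ(c/a) = (constant) δ(λ)`, `c/c' = (c/a)/(c'/a)`. If `ℓ_i/a` is not a unit: `g = (ℓ_i/a) unit`, `λ = α ℓ_i/a + β`,
`α ≠ 0`. (⇒) `j ≠ i` through `P`: `δ(ℓ_i/ℓ_j) ∈ (ℓ_i/ℓ_j) O`, `ℓ_j/a` a unit, `δ(ℓ_j/a) ∈ O`: `δ(ℓ_i/a) ∈ (ℓ_i/a) O`. (⇐) similar. (Use that `P ∈ C.M`: at least two lines pass through `P`.) -/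
def LogDivStmt : Prop := ∀ (k : Type) [Field k] (r : ℕ) (C : Config k r) (P : Pt k) (a a' : Fin 3 → k)
  (O : Subalgebra k (F k)) (π : F k) (δ : Derivation k (F k) (F k)), P ∈ C.M → LinearIndependent k ![a, a'] →
  a ⬝ᵥ P.rep = 0 → a' ⬝ᵥ P.rep = 0 → IsUnif O π → PR P a ≤ O →
  (RegF C P O δ ↔ ∃ o ∈ O, δ (ev a' / ev a) =
    (∏ i ∈ Finset.univ.filter (fun i => i ∈ C.through P ∧ LinearIndependent k ![C.ℓ i, a]), ev (C.ℓ i) / ev a) * o)

/-- MODULE `B/S2F` (200 lines). (S2): invariant cocycles extend every pencil. USES `EvStmt`, `CoordStmt`, `UnifStmt`, `CurveStmt`, `ExcStmt`, `DerVStmt`, `ChartExAStmt`, `SideStmt`, `GlobPStmt`, `LogDivStmt`. PROOF: for every nonzero `a ∈ P^⊥` fix `a'` independent of it in `P^⊥`, `λ_a = a'/a` and `g_a` as in `LogDivStmt`. For charts `u, v` with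
`u.a P = v.a P = a` let `c u v = D u v (λ_a)/g_a`: it lies in every `O ⊇ u.R, v.R` (`LogDivStmt`; `PR P a ≤ u.R`). `SideStmt`: `c u v = X v - X u`. Choose `δ u ∈ Der(F)` with `δ u (λ_a) = g_a X u`, `a = u.a P` (`DerVStmt` with `K = F` and a vector `v` with `a(v) = 0`, `a'(v) = g_a X u ev a`). Then `RegF C P O (δ u)` for `O ⊇ u.R` (`LogDivStmt`) and
`D u v = δ v - δ u` along `P` if `u.a P = v.a P` (two derivations which agree on `λ_a` agree on all quotients). For arbitrary `a₁, a₂` choose charts `u₁, u₂` with `u_i.a P = a_i` and put `ε a₁ a₂ = D u₁ u₂ - δ u₂ + δ u₁`; for any `u, v` with `u.a P = a₁`, `v.a P = a₂`: `D u v = D u u₁ + D u₁ u₂ + D u₂ v` gives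
`D u v = δ v - δ u + ε a₁ a₂` along `P`. So for `O ⊇ PR P a₁, PR P a₂` choose `u, v` containing `O` (`ChartExAStmt`): `ε a₁ a₂ = D u v - δ v + δ u` along `P` is `RegF` at `O`. In particular `ε a₁ a₂ (λ_(a₁)) ∈ O` for all such `O`, so it lies in `PF P` (`GlobPStmt`), and so does `ε a₁ a₂ (c/c')` (Moebius function of `λ`). -/
def S2FStmt : Prop := ∀ (k : Type) [Field k] [CharZero k] [IsAlgClosed k] (r : ℕ) (C : Config k r) (P : Pt k), P ∈ C.M →
  ∀ D : Chart C → Chart C → Derivation k (F k) (F k), (∀ u v w, D u v + D v w = D u w) →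
  (∀ u v O, IsDiv C O → u.R ≤ O → v.R ≤ O → RegF C P O (D u v)) → ExtF P D

/-- MODULE `B/CaseC2` (100 lines). USES `DescStmt`, `S2FStmt`, `CaseFStmt`. PROOF: descend `D u v` to `F` (`DescStmt`, (1)): a cocycle, `RegF` at all `O ⊇ u.R, v.R`; `S2FStmt`, `CaseFStmt`; go up with `DescStmt`, (2). -/
def CaseC2Stmt : Prop := ∀ (k : Type) [Field k] [CharZero k] [IsAlgClosed k] (r n : ℕ) (C : Config k r) (K : Type)
  [Field K] [Algebra (F k) K] [Algebra k K] [IsScalarTower k (F k) K] [FiniteDimensional (F k) K] [IsGalois (F k) K],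
  C.InfRigid → 6 ≤ r → 2 ≤ n → Roots K C n →
  ∀ D : Chart C → Chart C → Derivation k K K, IsCocycle D → (∀ (g : K ≃ₐ[F k] K) u v, conjD g (D u v) = D u v) →
  (∀ P ∈ C.M, ∀ u v O, IsDiv C O → u.R ≤ O → v.R ≤ O → RegAt C n P O (D u v)) → ∀ P ∈ C.M, ExtOne n P D

/-- MODULE `B/MT2` (150 lines). The main theorem for Galois extensions, given (S1). USES `MFinStmt`, `AvgStmt`, `NPnormalStmt`, `DisjStmt`, `PresRegStmt`, `CoreStmt`, `CaseC2Stmt`, `RegModStmt`, `TwoStmt`. PROOF: `e_P` = average over `NP K P`, `e` = average over `⊤`.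
`D = D⁰ + ∑_(P ∈ C.M) (e_P D - e D) + e D`, `D⁰ = D - ∑_P (e_P D - e D) - e D`. `e_Q e_P = e` for `P ≠ Q` (`DisjStmt`, `AvgStmt`), so `e_Q D⁰ = 0` for all `Q ∈ C.M`, and `e_Q (e_P D - e D) = 0` for `Q ≠ P`. All summands are cocycles satisfying `Pres n` (`RegModStmt`: a subspace stable under conjugation, so under averages). (A) `D⁰`:
`ExtOne n Q` for all `Q ∈ C.M` (S1), `CoreStmt` with any `P₀ ∈ C.M`. (B) `e_P D - e D`: `ExtOne n Q` for `Q ≠ P` (S1), invariant under `NP K P`; `CoreStmt` with `P₀ = P`. (C) `e D`: a cocycle, invariant, `PresRegStmt`; `CaseC2Stmt`, `CoreStmt`. A sum of boundaries is a boundary (`RegModStmt`). -/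
def MT2Stmt : Prop := ∀ (k : Type) [Field k] [CharZero k] [IsAlgClosed k], S1Stmt k → ∀ (r n : ℕ) (C : Config k r) (K : Type)
  [Field K] [Algebra (F k) K] [Algebra k K] [IsScalarTower k (F k) K] [FiniteDimensional (F k) K] [IsGalois (F k) K],
  C.InfRigid → 6 ≤ r → r ≤ n + 1 → Roots K C n →
  ∀ D : Chart C → Chart C → Derivation k K K, IsCocycle D → Pres n D → IsBdry n D

/-- The main theorem over the field `k`. -/
def MainFor (k : Type) [Field k] : Prop := ∀ (r n : ℕ) (C : Config k r), C.InfRigid → 6 ≤ r → r ≤ n + 1 →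
  ∀ (K : Type) [Field K] [Algebra (F k) K] [Algebra k K] [IsScalarTower k (F k) K], IsEtaleCover C n K → H1Vanishes C K

/-- MODULE `B/Et2` (150 lines). USES `ExtDerStmt`, `OverlapStmt`, `EtStepStmt`, `MT2Stmt`. PROOF: let `L` be the normal closure of `K` over `F` (in an algebraic closure of `K`): finite Galois over `F`. Extend `D u v` to `D' u v ∈ Der(L)` (a cocycle by uniqueness). `Pres n D'`: an element `y` of the Kummer field of `L` lies in `K` (all `n`-th roots of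
`ℓ_i/ℓ_j` in `L` lie in `K`, because `K` contains one of them and `k` the `n`-th roots of unity); if it is integral over `u.R ⊔ v.R` it lies in `ic K (u.R ⊔ v.R) = u.A ⊔ v.A` (`OverlapStmt`), and `D' y = D y` is in the same ring. `MT2Stmt`: `D' u v = E' v - E' u`. `E u := T (E' u)` (`ExtDerStmt`): `D u v = E v - E u`, `E u` maps
`ic K u.R ∩ Kummer K` to `ic K u.R`. `EtStepStmt` with `B = u.A K ⊓ Kummer`, `A = u.A K` (elements of `u.A K` are integral over `u.R`, so over `B`). -/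
def Et2Stmt : Prop := ∀ (k : Type) [Field k] [CharZero k] [IsAlgClosed k], S1Stmt k → MainFor k

end Pool.Agent.Lib.MP_4318ff_ag
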