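import Pool.Agent.Lib.MP_4318ff_ag.Spec.Defs

/-!
# MP_4318ff_ag, part A, first block: divisors, Hartogs, the norm argument, local estimates

Every `...Stmt` is the statement of one module (theorem of type `AStmt → BStmt → CStmt`, where `AStmt`, `BStmt` are the
statements quoted in the docstring after USES; elementary facts may be proved inside the module).
Notation in the docstrings: `φ = algebraMap (F k) K`; a form is a vector `c : Fin 3 → k`; `c(P)` is `c ⬝ᵥ P.rep`;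
`P^⊥` = the forms with `c(P) = 0`.
-/

set_option autoImplicit false

namespace Pool.Agent.Lib.MP_4318ff_ag

open scoped LinearAlgebra.Projectivization

/-- MODULE `A/Ev` (40 lines). `ev` is linear and injective. PROOF: `ev a = a0 + a1 x + a2 y`, `x, y` algebraically
independent. -/
def EvStmt : Prop := ∀ (k : Type) [Field k],
  (∀ a b : Fin 3 → k, ev (a + b) = ev a + ev b) ∧
  (∀ (t : k) (a : Fin 3 → k), ev (t • a) = algebraMap k (F k) t * ev a) ∧
  (∀ a : Fin 3 → k, ev a = 0 ↔ a = 0)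

/-- MODULE `A/Coord` (120 lines, helper43 = G2). For a basis `b, c, d` of the forms, `(c/b, d/b)` and `(c/b, d/c)` are
coordinates. PROOF: `b, c, d` = images of the basis `1, x, y` under an invertible matrix; the field generated by `c/b, d/b`
contains `x, y` (express the forms `1, x, y` through `b, c, d`), so its transcendence degree is 2 and the two elements are
algebraically independent; fractions of polynomials in `c/b, d/b` form a field containing `x` and `y`. For `(c/b, d/c)`: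
`d/b = (c/b) (d/c)`. -/
def CoordStmt : Prop := ∀ (k : Type) [Field k] (b c d : Fin 3 → k), LinearIndependent k ![b, c, d] →
  IsCoord (ev c / ev b) (ev d / ev b) ∧ IsCoord (ev c / ev b) (ev d / ev c)

/-- MODULE `A/Loc` (120 lines). Localisations of `k[z, w]` at irreducible polynomials. PROOF: the set of all `f` with
`f h₂ = h₁`, `p ∤ h₂` is a subalgebra because `p` is prime (UFD). `f = h₁/h₂`, `h₁, h₂ ≠ 0`, take out the powers of `p`:
`f = p^e u` with `u, u⁻¹ ∈ O`. `h⁻¹ = h₁/h₂` with `p ∤ h₂` gives `h h₁ = h₂`, so `p ∤ h`. Use injectivity of `cm z w`. -/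
def LocStmt : Prop := ∀ (k : Type) [Field k] (z w : F k), IsCoord z w →
  ∀ p : MvPolynomial (Fin 2) k, Irreducible p →
    (∃ O : Subalgebra k (F k), IsLoc z w p O) ∧
    ∀ O : Subalgebra k (F k), IsLoc z w p O →
      (∀ h, cm z w h ∈ O) ∧ (∀ h, h ≠ 0 → ((cm z w h)⁻¹ ∈ O ↔ ¬ p ∣ h)) ∧ IsUnif O (cm z w p)

/-- MODULE `A/Unif` (60 lines). Consequences of the existence of a uniformiser: `O` is a valuation ring, integrally closed.
PROOF: `f = π^e u`; `π^e u ∈ O`, `e < 0` would give `π⁻¹ = π^(-e-1) (π^e u) u⁻¹ ∈ O`. If `f` is integral and not in `O`, then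
`f⁻¹ ∈ O`, and dividing the equation by `f^(m-1)` gives `f ∈ O`. -/
def UnifStmt : Prop := ∀ (k : Type) [Field k] (O : Subalgebra k (F k)) (π : F k), IsUnif O π →
  (∀ f, f ∈ O ∨ f⁻¹ ∈ O) ∧ (∀ f : F k, IsIntegral O f → f ∈ O) ∧ (∀ f ∈ O, f⁻¹ ∉ O → f / π ∈ O) ∧
  (∀ (e : ℤ) (u : F k), u ≠ 0 → u ∈ O → u⁻¹ ∈ O → π ^ e * u ∈ O → 0 ≤ e)

/-- MODULE `A/Curve` (150 lines). Curves of the plane. USES `EvStmt`, `CoordStmt`, `LocStmt`, `UnifStmt`. PROOF: let `O` be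
given by `(b₀, c₀, d₀, p)`. `UnitForm O b₀`. For a form `b ≠ 0`, `b/b₀` is a nonzero polynomial of degree `≤ 1` in the
coordinates: either it is prime to `p`, then `b₀/b ∈ O` and `c/b = (c/b₀)(b₀/b) ∈ O`: `UnitForm O b`; or `p` divides it, so
`p = t b/b₀` with a constant `t` (degree 1), `b/b₀` is a uniformiser, and every form `c` independent of `b` is not
divisible by `p` (degree), so `UnitForm O c` and `b/c = (b/b₀)(b₀/c)` is a uniformiser. (Note `b/b₀` may be constant, then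
`UnitForm`.) Change of coordinates: if `UnitForm O b` and `b, c, d` is a basis, put `z = c/b, w = d/b`: `k[z, w] ⊆ O`, the
nonunits of `O` in it form a prime ideal `𝔭`; `b₀/b` is not in `𝔭` (unit). An element `h(z,w)` is `H(z₀,w₀) (b₀/b)^N`,
`N` = degree, `H` a polynomial: so `𝔭 = {h : p | H}`. It is principal: `p(z₀, w₀) (b₀/b)^(deg p) =: q(z, w)` is a polynomial,
take for the new `p` an irreducible factor `q'` of `q` in `k[z, w]` lying in `𝔭`. Then the localisation `O'` of `k[z, w]` at `q'`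
is contained in `O` (if `q' ∤ h` and `h ∈ 𝔭`, then `q'` and `h` have no common factor, so `𝔭` contains a nonzero polynomial
in `z` alone and one in `w` alone (resultant / `k(z)[w]` Bezout): both `z` and `w` are algebraic over `k` modulo `𝔭`; but then
`O/𝔪` is algebraic over `k`, while `k[z₀,w₀]/p` is not). Two valuation rings with uniformisers, `O' ≤ O < F`, are equal
(`f = π'^e u`, if `e < 0` and `f ∈ O` then `π'⁻¹ ∈ O`, so `O = F`). You may choose another proof. -/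
def CurveStmt : Prop := ∀ (k : Type) [Field k] (O : Subalgebra k (F k)), IsCurve O →
  (∃ π, IsUnif O π) ∧ (∃ b, UnitForm O b) ∧
  (∀ b : Fin 3 → k, b ≠ 0 → UnitForm O b ∨
    ∀ c : Fin 3 → k, LinearIndependent k ![b, c] → UnitForm O c ∧ IsUnif O (ev b / ev c)) ∧
  (∀ b c d : Fin 3 → k, LinearIndependent k ![b, c, d] → UnitForm O b →
    ∃ p, IsLoc (ev c / ev b) (ev d / ev b) p O)

/-- MODULE `A/Exc` (120 lines). The exceptional curve over `P`. USES `EvStmt`, `CoordStmt`, `LocStmt`, `UnifStmt`. PROOF: let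
`O` be given by `(b₀, c₀, d₀)`, `z = c₀/b₀`, `ξ = d₀/c₀`, `O` = localisation of `k[z, ξ]` at `z`. `b₀(P) ≠ 0` (otherwise `P = 0`). A
form is `b = β b₀ + γ c₀ + δ d₀`, `β = b(P)/b₀(P)`, `b/b₀ = β + γ z + δ z ξ`, a unit of `O` iff `β ≠ 0`. If `c(P) = 0`, `c ≠ 0`:
`c/b₀ = z (γ + δ ξ)` and `γ + δ ξ` is a unit. Everything follows; for the last item `z' = c/b`, `ξ' = d/c`: `k[z', ξ'] ⊆ O`, `z'` is a
uniformiser, and the residue class of `ξ' = (γ' + δ' ξ)/(γ + δ ξ)` is transcendental over `k`, so a polynomial in `z', ξ'` not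
divisible by `z'` is a unit of `O`: the localisation of `k[z', ξ']` at `z'` is contained in `O` and has a uniformiser, so it is
`O` (two valuation rings with uniformisers, one contained in the other and both `≠ F`, are equal). -/
def ExcStmt : Prop := ∀ (k : Type) [Field k] (P : Pt k),
  (∃ O : Subalgebra k (F k), IsExc P O) ∧
  ∀ O : Subalgebra k (F k), IsExc P O →
    (∀ b : Fin 3 → k, b ⬝ᵥ P.rep ≠ 0 → UnitForm O b) ∧
    (∀ c d : Fin 3 → k, c ≠ 0 → c ⬝ᵥ P.rep = 0 → d ⬝ᵥ P.rep = 0 → ev d / ev c ∈ O) ∧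
    (∀ b c : Fin 3 → k, b ⬝ᵥ P.rep ≠ 0 → c ≠ 0 → c ⬝ᵥ P.rep = 0 → IsUnif O (ev c / ev b)) ∧
    (∀ b c d : Fin 3 → k, LinearIndependent k ![b, c, d] → c ⬝ᵥ P.rep = 0 → d ⬝ᵥ P.rep = 0 →
      IsLoc (ev c / ev b) (ev d / ev c) (MvPolynomial.X 0) O)

/-- MODULE `A/ChartEx` (60 lines). Every divisor lies in a chart. USES `EvStmt`, `CurveStmt`, `ExcStmt`. PROOF: curve: choose
`b` with `UnitForm O b` and for every `P` a form `a P ∈ P^⊥`, `UnitForm O (a P)` (of two independent forms of `P^⊥` one is a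
unit form). Exceptional curve over `T`: `b(T) ≠ 0`, `a T ∈ T^⊥` arbitrary, `a Q ∈ Q^⊥` with `(a Q)(T) ≠ 0` for `Q ≠ T` (for
points outside `C.M` anything). Generators of `u.R` lie in `O`: `Algebra.adjoin_le`. -/
def ChartExStmt : Prop := ∀ (k : Type) [Field k] (r : ℕ) (C : Config k r) (O : Subalgebra k (F k)),
  IsDiv C O → ∃ u : Chart C, u.R ≤ O

/-- MODULE `A/Ord` (80 lines). Order of vanishing at the origin and at infinity. `z, w` coordinates with `(z, w/z)` and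
`(1/z, w/z)` coordinates. PROOF: `h(z, w) = ∑ h_m z^(m0+m1) (w/z)^(m1)` is a polynomial in `z` and `ξ = w/z` without
cancellation; it is divisible by `z^e` in `k[z, ξ]` (equivalently in the localisation at `z`) iff all `m0 + m1 ≥ e`. At infinity
`h(z, w) s^e = ∑ h_m s^(e-m0-m1) ξ^(m1)` with `s = 1/z`; if some `m0+m1 > e` let `d` be the maximal value: `s^(d-e)` times it is a
polynomial in `s, ξ` not divisible by `s`. -/
def OrdStmt : Prop := ∀ (k : Type) [Field k] (z w : F k) (h : MvPolynomial (Fin 2) k) (e : ℕ),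
  IsCoord z w →
  (∀ O : Subalgebra k (F k), IsCoord z (w / z) → IsLoc z (w / z) (MvPolynomial.X 0) O →
    (cm z w h / z ^ e ∈ O ↔ ∀ m ∈ h.support, e ≤ m 0 + m 1)) ∧
  (∀ O : Subalgebra k (F k), IsCoord (1 / z) (w / z) → IsLoc (1 / z) (w / z) (MvPolynomial.X 0) O →
    (cm z w h / z ^ e ∈ O ↔ ∀ m ∈ h.support, m 0 + m 1 ≤ e))

/-- MODULE `A/HartA` (60 lines). Hartogs on the affine plane `b ≠ 0`. USES `CoordStmt`, `LocStmt`. PROOF: `f = h₁/h₂` in lowest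
terms (UFD); if an irreducible `p` divides `h₂`, then `f` is not in the localisation at `p`, which is a curve with
`UnitForm b` (all `c'/b` are polynomials of degree `≤ 1` in `c/b, d/b`). -/
def HartAStmt : Prop := ∀ (k : Type) [Field k] (b c d : Fin 3 → k), LinearIndependent k ![b, c, d] →
  ∀ f : F k, (∀ O, IsCurve O → UnitForm O b → f ∈ O) → ∃ h, f = cm (ev c / ev b) (ev d / ev b) h

/-- MODULE `A/Hart` (200 lines). Hartogs on the charts of the blow-up `S`. USES `EvStmt`, `CoordStmt`, `LocStmt`, `UnifStmt`,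
`CurveStmt`, `ExcStmt`, `OrdStmt`. PROOF: `b = u.b`, `(b, c, d)` a basis, `k[z, w] = k[c/b, d/b] ⊆ u.R` (it contains all `e/b`). `f = h₁/h₂` in
lowest terms. If an irreducible `p` divides `h₂`, the curve `O_p` does not contain `f`, so `u.R ⊄ O_p`, so some `e/a_P ∉ O_p`
(`P ∈ C.M`, `e ∈ P^⊥`): by `CurveStmt` `a_P` is not a unit form, so `p` divides `α_P := a_P/b`. So `h₂` divides a product of powers of the
`α_P` (`C.M` is finite, or just finitely many of them) and `f = h / ∏ α_P^(e_P)`. (1) If `b(P) = 0`, or `a_Q(P) = 0` for some `Q ≠ P` in `C.M`,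
then `1/α_P ∈ u.R`: `b ∈ P^⊥` gives `b/a_P ∈ u.R`; if `a_Q(P) = 0` choose `e ∈ Q^⊥` with `e(P) ≠ 0`: `e/a_P = (e/a_Q)(a_Q/a_P) ∈ u.R`, and
`b ∈ P^⊥ + k e`, so `b/a_P ∈ u.R`. So we may assume (multiply `f` by a unit of `u.R`; the hypothesis is kept) that only points `P` of the
set `S'` of `P` with `b(P) ≠ 0`, `a_Q(P) ≠ 0` for all `Q ≠ P` occur. (2) For `P ∈ S'` the exceptional curve `O` over `P` satisfies
`u.R ≤ O` (`ExcStmt`), the `α_Q`, `Q ≠ P`, are units of `O`, so `h/α_P^(e_P) ∈ O`, and by `OrdStmt` (coordinates `α_P, d'/b` with `a_P, d'` a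
basis of `P^⊥`) `h ∈ 𝔪_P^(e_P)`, `𝔪_P = (α_P, d'/b)`. (3) the ideals `𝔪_P`, `P ∈ S'`, are pairwise comaximal, so
`h ∈ ⋂ 𝔪_P^(e_P) = ∏ 𝔪_P^(e_P)`; `𝔪_P` is generated by `α_P` and `d'/b`, and `(d'/b)/α_P = d'/a_P ∈ u.R`, so `∏ 𝔪_P^(e_P) ⊆ ∏ α_P^(e_P) u.R`. -/
def HartStmt : Prop := ∀ (k : Type) [Field k] (r : ℕ) (C : Config k r) (u : Chart C) (f : F k),
  (∀ O, IsDiv C O → u.R ≤ O → f ∈ O) → f ∈ u.R

/-- MODULE `A/HartK` (60 lines, helper43 = G1). USES `HartStmt`, `UnifStmt`, `CurveStmt`, `ExcStmt`. PROOF: the coefficients of the minimal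
polynomial of `y` over `F` lie in every `O` (`O` is integrally closed in `F`: `minpoly` of an integral element over an integrally
closed domain), so in `u.R`. -/
def HartKStmt : Prop := ∀ (k : Type) [Field k] (r : ℕ) (C : Config k r) (K : Type) [Field K] [Algebra (F k) K]
  [FiniteDimensional (F k) K] (u : Chart C) (y : K),
  (∀ O, IsDiv C O → u.R ≤ O → y ∈ ic K O) → y ∈ ic K u.R

/-- MODULE `A/Pow` (50 lines). `x y₁ⁿ, x y₂ⁿ` integral implies `x (y₁ + y₂)ⁿ` integral. PROOF: binomial theorem;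
`(x y₁^i y₂^(n-i))^n = (x y₁^n)^i (x y₂^n)^(n-i)` is integral, so `x y₁^i y₂^(n-i)` is integral. -/
def PowStmt : Prop := ∀ (k : Type) [Field k] (K : Type) [Field K] [Algebra (F k) K] (S : Subalgebra k (F k)) (n : ℕ),
  0 < n → ∀ x y₁ y₂ : K, x * y₁ ^ n ∈ ic K S → x * y₂ ^ n ∈ ic K S → x * (y₁ + y₂) ^ n ∈ ic K S

open Classical in
/-- MODULE `A/Norm` (180 lines). The norm argument. USES `EvStmt`, `CoordStmt`, `LocStmt`, `UnifStmt`, `CurveStmt`, `ExcStmt`, `OrdStmt`,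
`HartAStmt`. PROOF: `N = [K : F]`, `q` = number of lines not through `T`, `Π_b = ∏ ℓ_i/b` over these lines, `H` = norm of `g^n`. The norm
of an integral element lies in `O` (integrally closed): `Π_b^N H ∈ O` for every curve `O` and every unit form `b`; and
`H / (c/b)^(N(n-1)) ∈ O` for the exceptional curve over `T`. Choose `b` with `b(T) ≠ 0` and a basis `c, d` of `T^⊥`. By `HartAStmt`
`Π_b^N H = h(z, w)`, `z = c/b`, `w = d/b`. At the exceptional curve: `Π_b ∈ O`, so `h(z, w)/z^(N(n-1)) ∈ O`: all monomials of `h` have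
degree `≥ N(n-1)` (`OrdStmt`). At the line `b = 0` (coordinates `b/c = 1/z`, `d/c = w/z`; `c` is a unit form there): `Π_c^N H ∈ O` and
`Π_b^N H = Π_c^N H (c/b)^(qN)`, so `h(z, w)/z^(qN) ∈ O` and all monomials of `h` have degree `≤ qN < N(n-1)`. So `h = 0`, `H = 0`
(the `ℓ_i` are not zero), `g = 0`. -/
def NormStmt : Prop := ∀ (k : Type) [Field k] (r n : ℕ) (C : Config k r) (K : Type) [Field K] [Algebra (F k) K]
  [FiniteDimensional (F k) K] (T : Pt k) (g : K),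
  (Finset.univ.filter (fun i => C.ℓ i ⬝ᵥ T.rep ≠ 0)).card + 1 < n →
  (∀ O, IsCurve O → ∀ b, UnitForm O b →
    algebraMap (F k) K (∏ i ∈ Finset.univ.filter (fun i => C.ℓ i ⬝ᵥ T.rep ≠ 0), ev (C.ℓ i) / ev b) * g ^ n ∈ ic K O) →
  (∀ O, IsExc T O → ∀ b c : Fin 3 → k, b ⬝ᵥ T.rep ≠ 0 → c ≠ 0 → c ⬝ᵥ T.rep = 0 →
    algebraMap (F k) K ((ev c / ev b)⁻¹ ^ (n - 1)) * g ^ n ∈ ic K O) →
  g = 0

/-- MODULE `A/Tau` (70 lines). The logarithmic derivatives `τ = Δ(ℓ_i)/ℓ_i - Δ(ℓ_j)/ℓ_j` along a pencil. PROOF: `τ = Δ(λ)/λ` with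
`λ = ℓ_i/ℓ_j`. If `λ, λ⁻¹ ∈ O`: `Δ(λ) ∈ ic`. If `λ ∈ O`: take a root `z^n = λ`, `τ = n Δ(z)/z`, `τ^n λ = (n Δ z)^n`, and `Δ z ∈ ic`;
also `Δ(λ)^n = λ^(n-1) (n Δ z)^n`. -/
def TauStmt : Prop := ∀ (k : Type) [Field k] (r n : ℕ) (C : Config k r) (K : Type) [Field K] [Algebra (F k) K]
  [Algebra k K] [IsScalarTower k (F k) K] (P : Pt k) (O : Subalgebra k (F k)) (Δ : Derivation k K K),
  0 < n → Roots K C n → RegAt C n P O Δ → ∀ i ∈ C.through P, ∀ j ∈ C.through P,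
  ev (C.ℓ i) / ev (C.ℓ j) ∈ O →
  let φ := algebraMap (F k) K
  let τ := Δ (φ (ev (C.ℓ i))) / φ (ev (C.ℓ i)) - Δ (φ (ev (C.ℓ j))) / φ (ev (C.ℓ j))
  (ev (C.ℓ j) / ev (C.ℓ i) ∈ O → τ ∈ ic K O) ∧
  φ (ev (C.ℓ i) / ev (C.ℓ j)) * τ ^ n ∈ ic K O ∧
  ∃ y ∈ ic K O, Δ (φ (ev (C.ℓ i) / ev (C.ℓ j))) ^ n = φ ((ev (C.ℓ i) / ev (C.ℓ j)) ^ (n - 1)) * y

open Classical in
/-- MODULE `A/LocCurve` (120 lines). The pole of one pencil term at a curve. USES `EvStmt`, `UnifStmt`, `CurveStmt`, `PowStmt`, `TauStmt`.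
PROOF: `∑ ρ_i ℓ_i = 0` gives `∑ ρ_i ℓ_i(T) = 0`, so the sum is `∑_i ρ_i ℓ_i(T) τ_(i j0)` for any `j0` through `P`. Choose `j0` through
`P` such that the other lines... precisely: at most one line `ℓ_j` of `C` is not a unit form at `O` (`CurveStmt`); choose `j0` through
`P` different from it (`P ∈ M`). For `i ≠ j` the quotient `ℓ_i/ℓ_j0` is a unit of `O` and `τ_(i j0) ∈ ic K O`; the product `Π` is in `O`.
For `i = j`: if `ℓ_j(T) = 0` the coefficient is 0; otherwise `Π = (ℓ_j/b) Π'` and `(ℓ_j/b) τ^n = (ℓ_j/ℓ_j0) τ^n (ℓ_j0/b)` is integral.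
Add up with `PowStmt` (coefficients in `k` are harmless). -/
def LocCurveStmt : Prop := ∀ (k : Type) [Field k] (r n : ℕ) (C : Config k r) (K : Type) [Field K] [Algebra (F k) K]
  [Algebra k K] [IsScalarTower k (F k) K] (P T : Pt k) (O : Subalgebra k (F k)) (Δ : Derivation k K K) (b : Fin 3 → k)
  (ρ : Fin r → k),
  0 < n → Roots K C n → P ∈ C.M → IsCurve O → UnitForm O b → RegAt C n P O Δ → C.IsRel P ρ →
  algebraMap (F k) K (∏ i ∈ Finset.univ.filter (fun i => C.ℓ i ⬝ᵥ T.rep ≠ 0), ev (C.ℓ i) / ev b) *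
    (∑ i, algebraMap k K (ρ i * (C.ℓ i ⬝ᵥ T.rep)) *
      (Δ (algebraMap (F k) K (ev (C.ℓ i))) / algebraMap (F k) K (ev (C.ℓ i)))) ^ n ∈ ic K O

/-- MODULE `A/LocExc` (160 lines). The zero of one pencil term at the exceptional curve over `T ≠ P`. USES `EvStmt`, `UnifStmt`, `ExcStmt`,
`PowStmt`, `TauStmt`. PROOF: let `ℓ₁` be the form of the line `PT`, `ℓ₂ ∈ P^⊥` with `ℓ₂(T) = 1`; `ℓ_i = α_i ℓ₁ + β_i ℓ₂`, `β_i = ℓ_i(T)`
for `i` through `P`; `λ = ℓ₁/ℓ₂ ∈ O`, `λ/(c/b) ∈ O` (`ExcStmt`). `∑ ρ_i α_i = 0 = ∑ ρ_i β_i`. With `d = Δ(λ)`: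
the sum is `ω = d ∑_(β_i ≠ 0) ρ_i β_i α_i/(α_i λ + β_i)`, because `Δ(ℓ_i)/ℓ_i - Δ(ℓ₂)/ℓ₂ = Δ(ℓ_i/ℓ₂)/(ℓ_i/ℓ₂)` and `ℓ_i/ℓ₂ = α_i λ + β_i`, a unit of
`O` when `β_i ≠ 0`. Moreover `β_i α_i/(α_i λ + β_i) = α_i - α_i² λ/(α_i λ + β_i)`. (a) if no line of `C` with `ρ_i ≠ 0` passes through `P` and `T`:
`ω = - λ d ∑ ρ_i α_i²/(α_i λ + β_i)`, `d ∈ ic K O`, so `ω ∈ (c/b) ic K O` and `ω^n ∈ (c/b)^n ic`. (b) otherwise `ℓ_(i0)` is
proportional to `ℓ₁`; choose `j0` through `P`, `j0 ≠ i0`; `λ' = ℓ_(i0)/ℓ_(j0) ∈ (c/b) O`; `Δ(λ')^n ∈ λ'^(n-1) ic K O` (`TauStmt`), and `λ` is a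
Moebius function of `λ'` regular at `λ' = 0`: `λ = s λ'/(1 + t λ')`, so `d = Δ(λ) = s Δ(λ')/(1 + tλ')²` and `d^n ∈ (c/b)^(n-1) ic K O`;
`ω` is `d` times an element of `O`. -/
def LocExcStmt : Prop := ∀ (k : Type) [Field k] (r n : ℕ) (C : Config k r) (K : Type) [Field K] [Algebra (F k) K]
  [Algebra k K] [IsScalarTower k (F k) K] (P T : Pt k) (O : Subalgebra k (F k)) (Δ : Derivation k K K) (b c : Fin 3 → k)
  (ρ : Fin r → k),
  0 < n → Roots K C n → P ∈ C.M → P ≠ T → IsExc T O → RegAt C n P O Δ → C.IsRel P ρ →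
  b ⬝ᵥ T.rep ≠ 0 → c ≠ 0 → c ⬝ᵥ T.rep = 0 →
  algebraMap (F k) K ((ev c / ev b)⁻¹ ^ (n - 1)) *
    (∑ i, algebraMap k K (ρ i * (C.ℓ i ⬝ᵥ T.rep)) *
      (Δ (algebraMap (F k) K (ev (C.ℓ i))) / algebraMap (F k) K (ev (C.ℓ i)))) ^ n ∈ ic K O

/-- MODULE `A/Glob` (80 lines). The functions `g` do not depend on the chart. PROOF: `Δ P v - Δ P u - D u v` vanishes on the quotients of
forms through `P`, so `(Δ P v - Δ P u - D u v)(ℓ_i)/ℓ_i = κ_P` does not depend on `i` through `P`; the difference of the two sides is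
`∑_P ∑_i r_(P,i) (D u v (ℓ_i)/ℓ_i + κ_P)`, which is `0` by the two conditions. -/
def GlobStmt : Prop := ∀ (k : Type) [Field k] (r : ℕ) (C : Config k r) (K : Type) [Field K] [Algebra (F k) K]
  [Algebra k K] [IsScalarTower k (F k) K] (S : Finset (Pt k)) (D₀ : Derivation k K K) (Δ Δ' : Pt k → Derivation k K K)
  (s : Pt k → Fin r → k),
  (∀ P ∈ S, EqOn P D₀ (Δ' P - Δ P)) → (∀ P ∈ S, ∀ i, i ∉ C.through P → s P i = 0) → (∀ P ∈ S, ∑ i, s P i = 0) →
  (∀ i, ∑ P ∈ S, s P i = 0) →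
  ∑ P ∈ S, ∑ i, algebraMap k K (s P i) * (Δ P (algebraMap (F k) K (ev (C.ℓ i))) / algebraMap (F k) K (ev (C.ℓ i))) =
  ∑ P ∈ S, ∑ i, algebraMap k K (s P i) * (Δ' P (algebraMap (F k) K (ev (C.ℓ i))) / algebraMap (F k) K (ev (C.ℓ i)))

open Classical in
/-- MODULE `A/Van` (120 lines). USES `EvStmt`, `ChartExStmt`, `CurveStmt`, `ExcStmt`, `PowStmt`, `NormStmt`, `LocCurveStmt`, `LocExcStmt`, `GlobStmt`.
PROOF: put `s P i = ρ P i ℓ_i(T)`; `∑_i s P i = 0` (relation evaluated at `T`), `∑_P s P i = 0` for every `i` (for `i` through `T` all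
terms are 0). By `GlobStmt` the sum `g` is the same for all charts. Apply `NormStmt` to `g`: for a curve `O` take a chart `u` with
`u.R ≤ O` (`ChartExStmt`) and add up `LocCurveStmt` with `PowStmt`; for the exceptional curve over `T ∈ C.M` take a chart containing it and add up
`LocExcStmt` for `P ≠ T`; the term `P = T` is `0` (all coefficients vanish). -/
def VanStmt : Prop := ∀ (k : Type) [Field k] (r n : ℕ) (C : Config k r) (K : Type) [Field K] [Algebra (F k) K]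
  [Algebra k K] [IsScalarTower k (F k) K] [FiniteDimensional (F k) K] (T : Pt k), Roots K C n → T ∈ C.M →
  (Finset.univ.filter (fun i => C.ℓ i ⬝ᵥ T.rep ≠ 0)).card + 1 < n →
  ∀ (D : Chart C → Chart C → Derivation k K K) (S : Finset (Pt k)) (Δ : Pt k → Chart C → Derivation k K K),
  (∀ P ∈ S, P ∈ C.M) → (∀ P ∈ S, ∀ u O, IsDiv C O → u.R ≤ O → RegAt C n P O (Δ P u)) →
  (∀ P ∈ S, ∀ u v, EqOn P (D u v) (Δ P v - Δ P u)) →
  ∀ ρ : Pt k → Fin r → k, (∀ P ∈ S, C.IsRel P (ρ P)) → (∀ i, C.ℓ i ⬝ᵥ T.rep ≠ 0 → ∑ P ∈ S, ρ P i = 0) →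
  ∀ u : Chart C, ∑ P ∈ S, ∑ i, algebraMap k K (ρ P i * (C.ℓ i ⬝ᵥ T.rep)) *
    (Δ P u (algebraMap (F k) K (ev (C.ℓ i))) / algebraMap (F k) K (ev (C.ℓ i))) = 0

end Pool.Agent.Lib.MP_4318ff_ag
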