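import Pool.Agent.Lib.MP_4318ff_ag.Spec.A1

/-!
# MP_4318ff_ag, part A, second block: derivations, Kummer decomposition, regularity, averages

Notation as in `A1`: `φ = algebraMap (F k) K`, `c(P) = c ⬝ᵥ P.rep`, `P^⊥`.
-/

set_option autoImplicit false

namespace Pool.Agent.Lib.MP_4318ff_ag

open scoped LinearAlgebra.Projectivization

/-- MODULE `A/DerV` (120 lines). Vector fields from vectors. PROOF: there is a derivation of `F = k(x, y)` to `K` with prescribed
values on `x` and `y` (`MvPolynomial.mkDerivation`, then quotient rule on the fraction field), and it extends to the finite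
separable extension `K` (characteristic 0). Take `x ↦ v 1 - v 0 x`, `y ↦ v 2 - v 0 y`. Then
`E(ev c) = c1 (v1 - v0 x) + c2 (v2 - v0 y) = ∑ c_i v_i - v0 (c0 + c1 x + c2 y)`. -/
def DerVStmt : Prop := ∀ (k : Type) [Field k] [CharZero k] (K : Type) [Field K] [Algebra (F k) K]
  [Algebra k K] [IsScalarTower k (F k) K] [FiniteDimensional (F k) K] (v : Fin 3 → K),
  ∃ E : Derivation k K K, ∀ c : Fin 3 → k,
    E (algebraMap (F k) K (ev c)) = ∑ i, algebraMap k K (c i) * v i - v 0 * algebraMap (F k) K (ev c)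

/-- MODULE `A/DerUniq` (80 lines). A derivation is determined by its values along two pencils. USES `EvStmt`, `CoordStmt`. PROOF: take
the difference; let `b` be the form of the line `PQ`, `(b, c)` a basis of `P^⊥`, `(b, d)` a basis of `Q^⊥`: `(b, c, d)` is a basis; the
difference kills `c/b` and `d/b`, so `F` (`CoordStmt`: fractions of polynomials in them), so the algebraic separable extension
`K`: `0 = Δ(m(y)) = m'(y) Δ(y)` for the minimal polynomial `m` of `y` over `F`. -/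
def DerUniqStmt : Prop := ∀ (k : Type) [Field k] [CharZero k] (K : Type) [Field K] [Algebra (F k) K]
  [Algebra k K] [IsScalarTower k (F k) K] [FiniteDimensional (F k) K] (P Q : Pt k) (Δ Δ' : Derivation k K K),
  P ≠ Q → EqOn P Δ Δ' → EqOn Q Δ Δ' → Δ = Δ'

/-- MODULE `A/Pen` (70 lines). Equality on the lines of `C` gives equality on the pencil. USES `EvStmt`. PROOF: choose `i ≠ j` through `P`
(`P ∈ C.M`): `P^⊥` is spanned by `ℓ_i, ℓ_j`; the hypothesis says that `E` and `Δ` agree on `λ = ℓ_i/ℓ_j` (logarithmic derivatives);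
`c/c' = (αλ + β)/(γλ + δ)`. -/
def PenStmt : Prop := ∀ (k : Type) [Field k] (r : ℕ) (C : Config k r) (K : Type) [Field K] [Algebra (F k) K]
  [Algebra k K] [IsScalarTower k (F k) K] (P : Pt k) (E Δ : Derivation k K K), P ∈ C.M →
  (∀ i ∈ C.through P, ∀ j ∈ C.through P,
    let φ := algebraMap (F k) K
    E (φ (ev (C.ℓ i))) / φ (ev (C.ℓ i)) - E (φ (ev (C.ℓ j))) / φ (ev (C.ℓ j)) =
    Δ (φ (ev (C.ℓ i))) / φ (ev (C.ℓ i)) - Δ (φ (ev (C.ℓ j))) / φ (ev (C.ℓ j))) →
  EqOn P E Δ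

/-- MODULE `A/RegEq` (40 lines). PROOF: on quotients of forms by hypothesis; `z^n = λ` gives `n z^(n-1) E z = E λ = Δ λ = n z^(n-1) Δ z`,
so `E z = Δ z` (`z ≠ 0` because the forms `ℓ_i` are not zero; characteristic 0). -/
def RegEqStmt : Prop := ∀ (k : Type) [Field k] [CharZero k] (r n : ℕ) (C : Config k r) (K : Type) [Field K]
  [Algebra (F k) K] [Algebra k K] [IsScalarTower k (F k) K] (P : Pt k) (O : Subalgebra k (F k)) (E Δ : Derivation k K K),
  0 < n → EqOn P E Δ → RegAt C n P O Δ → RegAt C n P O E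

/-- MODULE `A/RegMod` (60 lines). The derivations regular at `O` form a `k`-subspace stable under the Galois group, and so do the
derivations mapping `ic K S ∩ Kummer` to `ic K S`. PROOF: `ic K O` is a ring containing the image of `k`, mapped to itself by every
`g ∈ Gal(K/F)`; `g⁻¹` maps `n`-th roots of `λ ∈ F` to `n`-th roots of `λ` and `Kummer` to itself. -/
def RegModStmt : Prop := ∀ (k : Type) [Field k] (r n : ℕ) (C : Config k r) (K : Type) [Field K]
  [Algebra (F k) K] [Algebra k K] [IsScalarTower k (F k) K],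
  (∀ (S : Subalgebra k (F k)) (g : K ≃ₐ[F k] K) (y : K), y ∈ ic K S → g y ∈ ic K S) ∧
  (∀ (P : Pt k) (O : Subalgebra k (F k)), ∃ W : Submodule k (Derivation k K K),
    (∀ D, D ∈ W ↔ RegAt C n P O D) ∧ ∀ (g : K ≃ₐ[F k] K), ∀ D ∈ W, conjD g D ∈ W) ∧
  (∀ S : Subalgebra k (F k), ∃ W : Submodule k (Derivation k K K),
    (∀ D : Derivation k K K, D ∈ W ↔ ∀ y ∈ ic K S, y ∈ Kummer K C n → D y ∈ ic K S) ∧
    ∀ (g : K ≃ₐ[F k] K), ∀ D ∈ W, conjD g D ∈ W)

/-- MODULE `A/LocReg` (60 lines). USES `LocStmt` (or only: `(cm z w h)⁻¹ ∈ O` if `p ∤ h`, immediate from `IsLoc`). PROOF: by induction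
on the polynomial, `E(h(z, w)) ∈ ic K O`; `f h₂ = h₁` gives `E f = (E h₁ - f E h₂)/h₂` with `1/h₂ ∈ O`. -/
def LocRegStmt : Prop := ∀ (k : Type) [Field k] (K : Type) [Field K] [Algebra (F k) K]
  [Algebra k K] [IsScalarTower k (F k) K] (z w : F k) (p : MvPolynomial (Fin 2) k) (O : Subalgebra k (F k))
  (E : Derivation k K K), IsCoord z w → IsLoc z w p O →
  E (algebraMap (F k) K z) ∈ ic K O → E (algebraMap (F k) K w) ∈ ic K O →
  ∀ f ∈ O, E (algebraMap (F k) K f) ∈ ic K O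

/-- MODULE `A/KumDec` (170 lines). Decomposition of the integral elements of the Kummer field. PROOF: fix `i₀` (if `r = 0` trivial) and
roots `z_i^n = ℓ_i/ℓ_(i₀)`. `k` contains all `n`-th roots of unity, so all roots of all `ℓ_i/ℓ_j` are products of the `z`'s and constants,
and the Kummer field is spanned over `F` by the monomials `Z^e = ∏ z_i^(e_i)`, `0 ≤ e_i < n`. Every `g ∈ G = Gal(K/F)` multiplies
`Z^e` by a root of unity `χ_e(g) ∈ k`; `χ_e : G → kˣ` is a homomorphism. If `χ_e = χ_(e')`, then `Z^e/Z^(e')` is fixed by `G`, so lies in `F`. So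
`y = ∑_χ y_χ`, the sum over finitely many different characters `χ = χ_(e(χ))`, `y_χ = f_χ Z^(e(χ))`, `f_χ ∈ F`. Orthogonality
(`∑_g ψ(g) = 0` for a nontrivial homomorphism `ψ : G → kˣ`, Mathlib `sum_hom_units_eq_zero`) gives
`y_χ = (1/|G|) ∑_g χ(g)⁻¹ g(y)`, which is integral over `S`. `y_χ^n = f_χ^n ∏ (ℓ_i/ℓ_(i₀))^(e_i)`. -/
def KumDecStmt : Prop := ∀ (k : Type) [Field k] [CharZero k] [IsAlgClosed k] (r n : ℕ) (C : Config k r) (K : Type)
  [Field K] [Algebra (F k) K] [Algebra k K] [IsScalarTower k (F k) K] [FiniteDimensional (F k) K] [IsGalois (F k) K]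
  (S : Subalgebra k (F k)) (y : K), 0 < n → Roots K C n → y ∈ ic K S → y ∈ Kummer K C n →
  y ∈ AddSubgroup.closure {h : K | h ∈ ic K S ∧ ∃ (c : F k) (e : Fin r → ℤ), ∑ i, e i = 0 ∧
    h ^ n = algebraMap (F k) K (c ^ n * ∏ i, ev (C.ℓ i) ^ e i)}

/-- MODULE `A/KumReg` (120 lines). USES `UnifStmt`. PROOF: `s ∈ O` (integrally closed), `h ≠ 0` w.l.o.g. (a) `s = c^n u`, `c = π^e u'`, so
`s = π^(ne) u''`, `e ≥ 0`; `w := h/π^e`, `w^n = u''` a unit of `O`: `w, w⁻¹ ∈ ic K O` and `E w = w E(u'')/(n u'') ∈ ic`, so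
`E h = E(π^e) w + π^e E w ∈ ic`. (b) `s = π^e u''`, `e = nq + e'`, `0 ≤ e' < n`, `q ≥ 0`; `w := h/(π^q ζ^(e'))`, `w^n = u''`; as before, with
`E ζ ∈ ic`. -/
def KumRegStmt : Prop := ∀ (k : Type) [Field k] [CharZero k] (n : ℕ) (K : Type) [Field K] [Algebra (F k) K]
  [Algebra k K] [IsScalarTower k (F k) K] (O : Subalgebra k (F k)) (π : F k) (E : Derivation k K K) (h : K) (s : F k),
  0 < n → IsUnif O π → (∀ f ∈ O, E (algebraMap (F k) K f) ∈ ic K O) → h ∈ ic K O →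
  h ^ n = algebraMap (F k) K s →
  ((∃ c u : F k, u ∈ O ∧ u⁻¹ ∈ O ∧ s = c ^ n * u) ∨
    (∃ ζ ∈ ic K O, ζ ^ n = algebraMap (F k) K π ∧ E ζ ∈ ic K O)) →
  E h ∈ ic K O

/-- MODULE `A/Good` (60 lines). USES `EvStmt`, `KumDecStmt`, `KumRegStmt`. PROOF: decompose `y`; for a summand `h`,
`h^n = φ(c^n ∏ ℓ_i^(e_i))`, `∑ e_i = 0`; in the first case `∏ ℓ_i^(e_i) = ∏ (ℓ_i/ℓ_(i₀))^(e_i)` is a unit of `O`; in the second apply
`KumRegStmt` (b). -/
def GoodStmt : Prop := ∀ (k : Type) [Field k] [CharZero k] [IsAlgClosed k] (r n : ℕ) (C : Config k r) (K : Type)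
  [Field K] [Algebra (F k) K] [Algebra k K] [IsScalarTower k (F k) K] [FiniteDimensional (F k) K] [IsGalois (F k) K]
  (O : Subalgebra k (F k)) (π : F k) (E : Derivation k K K), 0 < n → Roots K C n → IsUnif O π →
  (∀ f ∈ O, E (algebraMap (F k) K f) ∈ ic K O) →
  ((∀ i j, ev (C.ℓ i) / ev (C.ℓ j) ∈ O) ∨ (∃ ζ ∈ ic K O, ζ ^ n = algebraMap (F k) K π ∧ E ζ ∈ ic K O)) →
  ∀ y ∈ ic K O, y ∈ Kummer K C n → E y ∈ ic K O

/-- MODULE `A/RegCurve` (150 lines). Regularity at a curve. USES `EvStmt`, `CoordStmt`, `CurveStmt`, `LocRegStmt`, `GoodStmt`. PROOF: (0) for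
`P ≠ Q` in the set `M' = {P ∈ C.M, P ≠ P₀}` such that the form `b` of the line `PQ` is a unit form: `(b, c)` basis of `P^⊥`, `(b, d)` basis of
`Q^⊥`; `c/b, d/b ∈ O`, `IsLoc (c/b) (d/b) p O` (`CurveStmt`), `E(c/b), E(d/b) ∈ ic K O` by `RegAt`, so `E(O) ⊆ ic K O` (`LocRegStmt`). (a) if all `ℓ_i` are unit
forms: choose `P, Q`: if some form `c₀` is not a unit form choose `P` with `c₀(P) ≠ 0` (else `P` arbitrary) and `Q ≠ P` arbitrary (by `h2` applied
to a form vanishing at `P`); the line `PQ` is not `c₀`, so it is a unit form. `GoodStmt`, first case. (b) `ℓ_i` is not a unit form: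
`P ∈ M'` on the line `i` (`h1`), `Q ∈ M'` with `ℓ_i(Q) ≠ 0` (`h2`); `j` through `P`, `j ≠ i`: `π = ℓ_i/ℓ_j` is a uniformiser (`CurveStmt`),
`ζ` a root of it, `E ζ ∈ ic` by `RegAt` at `P`. `GoodStmt`, second case. -/
def RegCurveStmt : Prop := ∀ (k : Type) [Field k] [CharZero k] [IsAlgClosed k] (r n : ℕ) (C : Config k r) (K : Type)
  [Field K] [Algebra (F k) K] [Algebra k K] [IsScalarTower k (F k) K] [FiniteDimensional (F k) K] [IsGalois (F k) K]
  (O : Subalgebra k (F k)) (E : Derivation k K K) (P₀ : Pt k), 0 < n → Roots K C n → IsCurve O →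
  (∀ i, ∃ P ∈ C.M, P ≠ P₀ ∧ i ∈ C.through P) →
  (∀ c : Fin 3 → k, c ≠ 0 → ∃ P ∈ C.M, P ≠ P₀ ∧ c ⬝ᵥ P.rep ≠ 0) →
  (∀ P ∈ C.M, P ≠ P₀ → RegAt C n P O E) →
  ∀ y ∈ ic K O, y ∈ Kummer K C n → E y ∈ ic K O

/-- MODULE `A/RegExc` (100 lines). Regularity at the exceptional curve over `T`. USES `EvStmt`, `CoordStmt`, `ExcStmt`, `LocRegStmt`, `GoodStmt`. PROOF:
`j` through `Q`, `j ≠ i` (`Q ∈ C.M`); `ℓ_j(T) ≠ 0` (the lines `i, j` meet only in `Q ≠ T`). `π = ℓ_i/ℓ_j` is a uniformiser (`ExcStmt`),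
`E(π) ∈ ic` and `E ζ ∈ ic` for a root `ζ` (`RegAt` at `Q`). `d ∈ T^⊥` independent of `ℓ_i`: `E(d/ℓ_i) ∈ ic` by hypothesis;
`IsLoc (ℓ_i/ℓ_j) (d/ℓ_i) (X 0) O` (`ExcStmt`). `LocRegStmt`, `GoodStmt`. -/
def RegExcStmt : Prop := ∀ (k : Type) [Field k] [CharZero k] [IsAlgClosed k] (r n : ℕ) (C : Config k r) (K : Type)
  [Field K] [Algebra (F k) K] [Algebra k K] [IsScalarTower k (F k) K] [FiniteDimensional (F k) K] [IsGalois (F k) K]
  (T Q : Pt k) (i : Fin r) (O : Subalgebra k (F k)) (E : Derivation k K K), 0 < n → Roots K C n → IsExc T O →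
  T ≠ Q → Q ∈ C.M → i ∈ C.through T → i ∈ C.through Q → RegAt C n Q O E →
  (∀ c d : Fin 3 → k, c ≠ 0 → c ⬝ᵥ T.rep = 0 → d ⬝ᵥ T.rep = 0 → E (algebraMap (F k) K (ev d / ev c)) ∈ ic K O) →
  ∀ y ∈ ic K O, y ∈ Kummer K C n → E y ∈ ic K O

/-- MODULE `A/Fix` (180 lines). Elements of the field generated by `F` and the algebraic closure `K_T` of the pencil field have
integral order at the exceptional curve over `T`. USES `EvStmt`, `CoordStmt`, `UnifStmt`, `ExcStmt`. PROOF: let `K_T` be the set of `y ∈ K` algebraic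
over `PF T`: a field, contained in `ic K O` (all quotients of forms through `T` lie in `O`, polynomials over `k` split, so `PF T ⊆ O`). `NP K T` is the fixing subgroup of
the intermediate field `F(K_T)`, so by Galois theory `x ∈ F(K_T)`. `F = PF(T)(t)`, so `F(K_T) = K_T(t)` and `x = t^e p(t)/q(t)` with `e ∈ ℤ`,
`p, q ∈ K_T[X]`, `p(0), q(0) ≠ 0` (if `x ≠ 0`). `p(t), q(t)` are units of the ring `ic K O`: `q(t) = q(0) (1 + t y)` with `y ∈ ic K O`, and `t` lies in all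
maximal ideals of `ic K O` (they lie over the maximal ideal of `O`, `ic K O` is integral over the local ring `O`). So `x = t^e u`, `u` a
unit of `ic K O`; `t x^n ∈ ic K O` gives `t^(1+ne) ∈ O`, `1 + ne ≥ 0`, `e ≥ 0` because `n ≥ 2`, so `x ∈ ic K O`. -/
def FixStmt : Prop := ∀ (k : Type) [Field k] [CharZero k] [IsAlgClosed k] (n : ℕ) (K : Type)
  [Field K] [Algebra (F k) K] [Algebra k K] [IsScalarTower k (F k) K] [FiniteDimensional (F k) K] [IsGalois (F k) K]
  (T : Pt k) (O : Subalgebra k (F k)) (b c : Fin 3 → k) (x : K), 2 ≤ n → IsExc T O → b ⬝ᵥ T.rep ≠ 0 → c ≠ 0 →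
  c ⬝ᵥ T.rep = 0 → (∀ g ∈ NP K T, g x = x) → algebraMap (F k) K (ev c / ev b) * x ^ n ∈ ic K O → x ∈ ic K O

/-- MODULE `A/Inv` (140 lines). A vector field invariant under `N_T` and regular along two other pencils is regular along the pencil `T`
at the exceptional curve over `T`. USES `EvStmt`, `UnifStmt`, `ExcStmt`, `PowStmt`, `TauStmt`, `FixStmt`. PROOF: `b` = form of the line `Q₁Q₂`,
`b(T) ≠ 0` (otherwise `Q₂` lies on the line `TQ₁ = i₁` and on `i₂`, so `Q₂ = T`). `t = ℓ_(i₁)/b`, uniformiser. (1) `E(ℓ_(i₁)/b)^n ∈ t^(n-1) ic`: let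
`j₁` through `Q₁`, `j₁ ≠ i₁`, `λ = ℓ_(i₁)/ℓ_(j₁)`, `ε = ℓ_(j₁)/b`, a unit of `O`; `E(λ ε) = ε E(λ) + λ E(ε)`, `E(ε) ∈ ic` (`RegAt` at `Q₁`, `b ∈ Q₁^⊥`) and
`E(λ)^n ∈ λ^(n-1) ic` (`TauStmt`); use `PowStmt` with `x = t^(-(n-1))`. (2) the same for `ℓ_(i₂)/b` with `Q₂`; `ℓ_(i₂)/ℓ_(i₁) =: μ` is a unit of `O`. (3)
`E(μ) = (E(ℓ_(i₂)/b) - μ E(ℓ_(i₁)/b))/t`, so `t E(μ)^n ∈ ic K O`. (4) `x = E(φ μ)` is fixed by `N_T` (`g x = (conjD g E)(g φ μ)`), so
`x ∈ ic K O` by `FixStmt`. (5) every `d/c` is a Moebius function of `μ` regular at `O` together with ...: `ℓ_(i₁), ℓ_(i₂)` is a basis of `T^⊥`,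
`d/c = (α + β μ)/(γ + δ μ)` with `γ + δ μ = c/ℓ_(i₁)` a unit of `O`, so `E(d/c) ∈ ic K O`. -/
def InvStmt : Prop := ∀ (k : Type) [Field k] [CharZero k] [IsAlgClosed k] (r n : ℕ) (C : Config k r) (K : Type)
  [Field K] [Algebra (F k) K] [Algebra k K] [IsScalarTower k (F k) K] [FiniteDimensional (F k) K] [IsGalois (F k) K]
  (T Q₁ Q₂ : Pt k) (i₁ i₂ : Fin r) (O : Subalgebra k (F k)) (E : Derivation k K K), 2 ≤ n → Roots K C n → IsExc T O →
  i₁ ≠ i₂ → T ≠ Q₁ → T ≠ Q₂ → Q₁ ∈ C.M → Q₂ ∈ C.M → i₁ ∈ C.through T → i₂ ∈ C.through T →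
  i₁ ∈ C.through Q₁ → i₂ ∈ C.through Q₂ → RegAt C n Q₁ O E → RegAt C n Q₂ O E → (∀ g ∈ NP K T, conjD g E = E) →
  ∀ c d : Fin 3 → k, c ≠ 0 → c ⬝ᵥ T.rep = 0 → d ⬝ᵥ T.rep = 0 → E (algebraMap (F k) K (ev d / ev c)) ∈ ic K O

/-! ### Averages -/

open Classical in
/-- The average of the conjugates of a derivation over a subgroup. -/
noncomputable def avgD {k : Type} [Field k] {K : Type} [Field K] [Algebra (F k) K] [Algebra k K] [IsScalarTower k (F k) K]
    [FiniteDimensional (F k) K] (N : Subgroup (K ≃ₐ[F k] K)) (D : Derivation k K K) : Derivation k K K :=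
  ((Finset.univ.filter (fun g : K ≃ₐ[F k] K => g ∈ N)).card : k)⁻¹ •
    ∑ g ∈ Finset.univ.filter (fun g : K ≃ₐ[F k] K => g ∈ N), conjD g D

/-- MODULE `A/Avg` (150 lines). Properties of the averages. PROOF: `conjD` is a linear action (`conjD g (conjD h D) = conjD (g h) D`);
reindexing of sums; for normal `N, N'`: `e_N e_(N')` is the average over the multiset of products `h h'`, every element of `N N'` occurs
`|N ∩ N'|` times, so it is the average over `N N' = N ⊔ N'`. -/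
def AvgStmt : Prop := ∀ (k : Type) [Field k] [CharZero k] (K : Type) [Field K] [Algebra (F k) K]
  [Algebra k K] [IsScalarTower k (F k) K] [FiniteDimensional (F k) K],
  (∀ (g : K ≃ₐ[F k] K) (D D' : Derivation k K K), conjD g (D + D') = conjD g D + conjD g D') ∧
  (∀ (g : K ≃ₐ[F k] K) (c : k) (D : Derivation k K K), conjD g (c • D) = c • conjD g D) ∧
  (∀ (g h : K ≃ₐ[F k] K) (D : Derivation k K K), conjD g (conjD h D) = conjD (g * h) D) ∧
  (∀ (N : Subgroup (K ≃ₐ[F k] K)) (D D' : Derivation k K K), avgD N (D + D') = avgD N D + avgD N D') ∧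
  (∀ (N : Subgroup (K ≃ₐ[F k] K)) (D D' : Derivation k K K), avgD N (D - D') = avgD N D - avgD N D') ∧
  (∀ (N : Subgroup (K ≃ₐ[F k] K)) (D : Derivation k K K), ∀ g ∈ N, conjD g (avgD N D) = avgD N D) ∧
  (∀ (N : Subgroup (K ≃ₐ[F k] K)) (D : Derivation k K K), (∀ g ∈ N, conjD g D = D) → avgD N D = D) ∧
  (∀ (N : Subgroup (K ≃ₐ[F k] K)) (W : Submodule k (Derivation k K K)),
    (∀ g ∈ N, ∀ D ∈ W, conjD g D ∈ W) → ∀ D ∈ W, avgD N D ∈ W) ∧
  (∀ (N N' : Subgroup (K ≃ₐ[F k] K)), N.Normal → N'.Normal → ∀ D : Derivation k K K,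
    avgD N (avgD N' D) = avgD (N ⊔ N') D) ∧
  (∀ (N : Subgroup (K ≃ₐ[F k] K)), N.Normal → ∀ (g : K ≃ₐ[F k] K) (D : Derivation k K K),
    conjD g (avgD N D) = avgD N (conjD g D))

/-- MODULE `A/NPnormal` (40 lines). `N_P` is normal. PROOF: `h⁻¹ g h y = y` for `g ∈ N_P`: `h y` is algebraic over `PF P` because `h` fixes
`F ⊇ PF P`. -/
def NPnormalStmt : Prop := ∀ (k : Type) [Field k] (K : Type) [Field K] [Algebra (F k) K]
  [Algebra k K] [IsScalarTower k (F k) K] (P : Pt k), (NP K P).Normal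

/-- MODULE `A/AlgCl` (120 lines). Linear disjointness of two pencils. USES `EvStmt`, `CoordStmt`. Let `P ≠ Q`, `α ∈ K` algebraic over `PF P` and contained in
the field generated by `F` and the elements of `K` algebraic over `PF Q`. Then `α ∈ φ(PF P)`. PROOF: `F = k(λ, μ)`, `PF P = k(λ)`, `PF Q = k(μ)`
(`λ = c/b`, `μ = d/b`, `b` the form of the line `PQ`). Let `K_Q` be the field of elements algebraic over `k(μ)`; `k` is algebraically closed in
`K_Q` (it is algebraically closed) and `λ` is transcendental over `K_Q`; the generated field is `K_Q(λ)`. Multiply `α` by an element of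
`k[λ]` to make it integral over `k[λ]`; then it is integral over `K_Q[λ]`, which is integrally closed: `α = ∑ c_s λ^s`, `c_s ∈ K_Q`. Let
`m(λ, T)` be a monic polynomial with coefficients in `k[λ]` which kills `α`. The identity `m(λ, ∑ c_s λ^s) = 0` in `K_Q[λ]` can be
specialised at every `λ₀ ∈ k`: `m(λ₀, ∑ c_s λ₀^s) = 0`, so `∑ c_s λ₀^s ∈ K_Q` is algebraic over `k`, so it lies in `k`. Vandermonde
(`k` infinite): `c_s ∈ k`. -/
def AlgClStmt : Prop := ∀ (k : Type) [Field k] [CharZero k] [IsAlgClosed k] (K : Type)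
  [Field K] [Algebra (F k) K] [Algebra k K] [IsScalarTower k (F k) K] [FiniteDimensional (F k) K] (P Q : Pt k) (α : K),
  P ≠ Q → IsAlgebraic (PF P) α →
  α ∈ IntermediateField.adjoin (F k) {y : K | IsAlgebraic (PF Q) y} → ∃ f ∈ PF P, α = algebraMap (F k) K f

/-- MODULE `A/Disj` (90 lines). USES `NPnormalStmt`, `AlgClStmt`. PROOF: `N = N_P ⊔ N_Q`. Let `K_P` be the field of the elements of `K` algebraic over `PF P`; it is
stable under `G = Gal(K/F)`; let `Ḡ`, `N̄` be the images of `G` and `N` in `Aut(K_P)`; the kernel of `G → Ḡ` is `N_P ≤ N`. The fixed field of `Ḡ` is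
`K_P ∩ F = PF P` (`AlgClStmt` with `α ∈ F`). The fixed field of `N̄` is contained in `K_P ∩ F(K_Q)` (`F(K_Q)` is the fixed field of `N_Q`, which is the fixing
subgroup of `IntermediateField.adjoin (F k) K_Q`), so it is `PF P` too (`AlgClStmt`). Artin: `|Ḡ| = [K_P : PF P] = |N̄|`, so `Ḡ = N̄`, `G = N N_P = N`. -/
def DisjStmt : Prop := ∀ (k : Type) [Field k] [CharZero k] [IsAlgClosed k] (K : Type)
  [Field K] [Algebra (F k) K] [Algebra k K] [IsScalarTower k (F k) K] [FiniteDimensional (F k) K] [IsGalois (F k) K]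
  (P Q : Pt k), P ≠ Q → NP K P ⊔ NP K Q = ⊤

/-- MODULE `A/ExtMod` (120 lines). The cochains for which the pencil `P` extends form a vector space stable under conjugation and averages. USES
`RegModStmt`, `AvgStmt`, `NPnormalStmt`. PROOF: add, conjugate, average `Δ` and `E`; `(conjD g D)(φ f) = g (D (φ f))`; elements algebraic over `PF P` form
a field stable under the Galois group. -/
def ExtModStmt : Prop := ∀ (k : Type) [Field k] [CharZero k] (r n : ℕ) (C : Config k r) (K : Type)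
  [Field K] [Algebra (F k) K] [Algebra k K] [IsScalarTower k (F k) K] [FiniteDimensional (F k) K] (P : Pt k)
  (D D' : Chart C → Chart C → Derivation k K K), Ext n P D → Ext n P D' →
  Ext n P (fun u v => D u v - D' u v) ∧ Ext n P (fun u v => D u v + D' u v) ∧
  (∀ N : Subgroup (K ≃ₐ[F k] K), Ext n P (fun u v => avgD N (D u v)))

/-- MODULE `A/Kill` (80 lines). USES `RegModStmt`, `AvgStmt`. PROOF: apply the average over `N_P` to `D = Δ_v - Δ_u + E` on `f = c/c'`; `E(f)` is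
algebraic over `PF P`, so it is fixed by `N_P` and `(avg E)(f) = E(f)`: `0 = (avg Δ_v - avg Δ_u)(f) + E(f)`. So `D = Δ'_v - Δ'_u` on the pencil with
`Δ'_u = Δ_u - avg Δ_u`, which is regular (`RegModStmt`). -/
def KillStmt : Prop := ∀ (k : Type) [Field k] [CharZero k] (r n : ℕ) (C : Config k r) (K : Type)
  [Field K] [Algebra (F k) K] [Algebra k K] [IsScalarTower k (F k) K] [FiniteDimensional (F k) K] (P : Pt k)
  (D : Chart C → Chart C → Derivation k K K), P ∈ C.M → Ext n P D → (∀ u v, avgD (NP K P) (D u v) = 0) → ExtOne n P D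

end Pool.Agent.Lib.MP_4318ff_ag
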