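import Pool.Agent.Lib.MP_4318ff_ag.Spec.Defs

/-!
# MP_4318ff_ag, block LA: combinatorics and linear algebra of infinitesimally rigid configurations

RULES. Module X: file Pool/Agent/Lib/MP_4318ff_ag/LA/X.lean, first line
`import Pool.Agent.Lib.MP_4318ff_ag.Spec.LA`, namespace `Pool.Agent.Lib.MP_4318ff_ag`, private lemmas with names starting
with X_, final theorem `theorem tX (h1 : AStmt) ... : XStmt`; the statements listed under Uses are hypotheses of your
theorem, in this order. All modules are independent. Never use congr!.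

Conventions: a form is a vector `c : Fin 3 → k`, its value at the point `P` is `c ⬝ᵥ P.rep` (P.rep ≠ 0: P.rep_nonzero). Two
points P, Q are equal iff their representatives are proportional (Projectivization.mk_eq_mk_iff' with P.mk_rep).
-/

set_option autoImplicit false

namespace Pool.Agent.Lib.MP_4318ff_ag

open scoped LinearAlgebra.Projectivization

/-- The value of the form `a` at a vector `w` with coordinates in a `k`-vector space. -/
def dotE {k : Type} [Field k] {E : Type} [AddCommGroup E] [Module k E] (a : Fin 3 → k) (w : Fin 3 → E) : E :=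
  ∑ i, a i • w i

/-- Module Pnt (theorem tPnt; points and forms). Uses: nothing.
Proof. (1) Two independent forms c, d: the vectors x with c ⬝ᵥ x = 0 = d ⬝ᵥ x form a space of dimension 1 (finrank of the kernel
of a surjective map k^3 → k^2, or the multiples of the cross product c × d ≠ 0), so P.rep and Q.rep (≠ 0) are proportional and
P = Q. (2) The space of all forms vanishing at P has dimension 2 (kernel of a nonzero functional) and contains the independent
c, d, so it is their span (or: a third independent form e would give P.rep = 0). (3) P ≠ Q: P.rep, Q.rep are independent, so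
the forms vanishing at both are a space of dimension 1 (as in (1)); c is a generator. (4) Otherwise all forms vanishing at P
vanish at Q; there are two independent forms vanishing at P (P.rep a ≠ 0 for some a; take P.rep a • e_b - P.rep b • e_a for the two
b ≠ a), and P = Q by (1). (5) see (4). -/
def PntStmt : Prop := ∀ (k : Type) [Field k],
  (∀ (c d : Fin 3 → k) (P Q : Pt k), LinearIndependent k ![c, d] → c ⬝ᵥ P.rep = 0 → d ⬝ᵥ P.rep = 0 →
    c ⬝ᵥ Q.rep = 0 → d ⬝ᵥ Q.rep = 0 → P = Q) ∧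
  (∀ (P : Pt k) (c d e : Fin 3 → k), LinearIndependent k ![c, d] → c ⬝ᵥ P.rep = 0 → d ⬝ᵥ P.rep = 0 →
    e ⬝ᵥ P.rep = 0 → ∃ x y : k, e = x • c + y • d) ∧
  (∀ P Q : Pt k, P ≠ Q → ∃ c : Fin 3 → k, c ≠ 0 ∧ c ⬝ᵥ P.rep = 0 ∧ c ⬝ᵥ Q.rep = 0 ∧
    ∀ d : Fin 3 → k, d ⬝ᵥ P.rep = 0 → d ⬝ᵥ Q.rep = 0 → ∃ x : k, d = x • c) ∧
  (∀ P Q : Pt k, P ≠ Q → ∃ c : Fin 3 → k, c ⬝ᵥ P.rep = 0 ∧ c ⬝ᵥ Q.rep ≠ 0) ∧
  (∀ P : Pt k, ∃ c d : Fin 3 → k, LinearIndependent k ![c, d] ∧ c ⬝ᵥ P.rep = 0 ∧ d ⬝ᵥ P.rep = 0)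

/-- Module Bas (theorem tBas; lines through a point). Uses: Pnt.
Proof. (1) Pnt (1) with C.indep. (2) ℓ m = x ℓ i + y ℓ j by Pnt (2); x = 0 would make ℓ m, ℓ j dependent, y = 0 would
make ℓ m, ℓ i dependent (C.indep). (3) ncard ≥ 3 (Set.two_lt_ncard or Set.ncard and Finset.two_lt_card). (4) the set through P
without i and j is not empty. (5) M is contained in the set of the points P for which there are i ≠ j in through P; by (1) such
a point is determined by (i, j) (Set.Finite.of_injOn or: M is contained in the union over the pairs i ≠ j of the subsingleton sets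
{P | i ∈ through P ∧ j ∈ through P}). (6) two different i, j ∈ through P are independent forms vanishing at P; by C.span not all
ℓ m vanish at P (otherwise P.rep = 0). -/
def BasStmt : Prop := ∀ (k : Type) [Field k] (r : ℕ) (C : Config k r),
  (∀ (i j : Fin r) (P Q : Pt k), i ≠ j → i ∈ C.through P → j ∈ C.through P → i ∈ C.through Q → j ∈ C.through Q →
    P = Q) ∧
  (∀ (P : Pt k) (i j m : Fin r), i ∈ C.through P → j ∈ C.through P → m ∈ C.through P → i ≠ j → i ≠ m → j ≠ m →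
    ∃ x y : k, x ≠ 0 ∧ y ≠ 0 ∧ C.ℓ m = x • C.ℓ i + y • C.ℓ j) ∧
  (∀ P ∈ C.M, ∃ i ∈ C.through P, ∃ j ∈ C.through P, ∃ m ∈ C.through P, i ≠ j ∧ i ≠ m ∧ j ≠ m) ∧
  (∀ P ∈ C.M, ∀ i j : Fin r, ∃ m ∈ C.through P, m ≠ i ∧ m ≠ j) ∧
  C.M.Finite ∧
  (∀ P : Pt k, ∃ i, i ∉ C.through P)

/-- Module Eig (theorem tEig; eigenforms of all lines through a point). Uses: Pnt, Bas.
Proof. (1) Let i, j ∈ through P be different and m a third line of through P (Bas (4)). ℓ m = x ℓ i + y ℓ j with x, y ≠ 0 (Bas (2)).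
Then μ m (x ℓ i + y ℓ j) = ℓ m B = x μ i ℓ i + y μ j ℓ j, so μ i = μ m = μ j by C.indep. If i = j nothing is to prove. (2) Every form c
with c ⬝ᵥ P.rep = 0 is x ℓ i + y ℓ j for two different i, j ∈ through P (Pnt (2)), apply the hypothesis and (1). -/
def EigStmt : Prop := ∀ (k : Type) [Field k] (r : ℕ) (C : Config k r) (P : Pt k), P ∈ C.M →
  ∀ (B : Matrix (Fin 3) (Fin 3) k) (μ : Fin r → k), (∀ i ∈ C.through P, Matrix.vecMul (C.ℓ i) B = μ i • C.ℓ i) →
    (∀ i ∈ C.through P, ∀ j ∈ C.through P, μ i = μ j) ∧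
    (∀ i ∈ C.through P, ∀ c : Fin 3 → k, c ⬝ᵥ P.rep = 0 → Matrix.vecMul c B = μ i • c)

/-- Module Dua (theorem tDua; duality). Uses: nothing.
Proof. On the finite dimensional space V of the functions ρ : S → Fin r → k (S as a finite type) consider the functionals
(a) ρ ↦ ρ P i for P ∈ S and i ∉ through P, (b) ρ ↦ ∑_i ρ P i ℓ i a for P ∈ S, a : Fin 3, (c) ρ ↦ ∑_P ρ P i for i ∉ Z, and
X ρ = ∑_P ∑_i ρ P i x P i. By hypothesis X vanishes on the common kernel (extend ρ by 0 outside S), so X is a linear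
combination of them: mem_span_of_iInf_ker_le_ker (Mathlib.LinearAlgebra.Dual.Lemmas) with the family over the finite type
(S × Fin r) ⊕ (S × Fin 3) ⊕ Fin r where the functionals for i ∈ through P in (a), i ∈ Z in (c) are 0. Let κ P i, v P a, s i be the
coefficients (s i = 0 for i ∈ Z may be assumed: replace it by 0). Evaluate at the ρ which is 1 at (P, i) and 0
elsewhere: x P i = [i ∉ through P] κ P i + ∑_a ℓ i a v P a + [i ∉ Z] s i. -/
def DuaStmt : Prop := ∀ (k : Type) [Field k] (r : ℕ) (C : Config k r) (S : Finset (Pt k)) (Z : Set (Fin r))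
  (x : Pt k → Fin r → k),
  (∀ ρ : Pt k → Fin r → k, (∀ P, P ∉ S → ρ P = 0) → (∀ P ∈ S, C.IsRel P (ρ P)) → (∀ i, i ∉ Z → ∑ P ∈ S, ρ P i = 0) →
    ∑ P ∈ S, ∑ i, ρ P i * x P i = 0) →
  ∃ (v : Pt k → Fin 3 → k) (s : Fin r → k), (∀ i ∈ Z, s i = 0) ∧
    ∀ P ∈ S, ∀ i ∈ C.through P, x P i = C.ℓ i ⬝ᵥ v P + s i

/-- Module Exl (theorem tExl; extension of the coefficients). Uses: nothing.
Proof. Let b be a basis of E over k (Module.Basis.ofVectorSpace k E) and Q the finite set of all indices q in the supports of the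
b.repr (t x), x ∈ X. For q ∈ Q let t_q x = b.repr (t x) q; for α ∈ 𝒜 apply the linear map b.coord q to ∑ α x • t x = 0:
∑ α x * t_q x = 0. So there is y_q with t_q x = ∑_j N x j * y_q j. Put y j = ∑_{q ∈ Q} y_q j • b q. Then
∑_j N x j • y j = ∑_{q ∈ Q} t_q x • b q = t x (Basis.sum_repr / Finsupp.linearCombination of b.repr, support in Q). -/
def ExlStmt : Prop := ∀ (k : Type) [Field k] (X Y : Type) [Fintype X] [Fintype Y] (𝒜 : Set (X → k)) (N : X → Y → k),
  (∀ t : X → k, (∀ α ∈ 𝒜, ∑ x, α x * t x = 0) → ∃ y : Y → k, ∀ x, t x = ∑ j, N x j * y j) →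
  ∀ (E : Type) [AddCommGroup E] [Module k E] (t : X → E), (∀ α ∈ 𝒜, ∑ x, α x • t x = 0) →
    ∃ y : Y → E, ∀ x, t x = ∑ j, N x j • y j

/-- Module Fou (theorem tFou; points on at least four lines). Uses: Pnt, Bas.
Proof. Let j ∈ through Q and suppose that no other point of M is on the line j. Take another line j' ∈ through Q and β j = ℓ j',
β i = 0 for i ≠ j. Deformation condition at R ∈ M with w = 0: β i = 0 unless i = j, and j ∈ through R only for R = Q, where
ℓ j' ⬝ᵥ Q.rep = 0. InfRigid: ℓ i B = -s i ℓ i for i ≠ j and ℓ j' = ℓ j B + s j ℓ j. There are three different lines i1, i2, i3 ≠ j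
through Q. As in Eig: the s i of these are equal to one number -c (ℓ i3 = x ℓ i1 + y ℓ i2, x, y ≠ 0, Bas (2)), and ℓ j is a combination of
ℓ i1, ℓ i2 (Pnt (2)), so ℓ j B = c ℓ j and ℓ j' = (c + s j) ℓ j, a contradiction to C.indep. -/
def FouStmt : Prop := ∀ (k : Type) [Field k] (r : ℕ) (C : Config k r), C.InfRigid → ∀ Q : Pt k,
  4 ≤ (C.through Q).ncard → ∀ j ∈ C.through Q, ∃ R ∈ C.M, R ≠ Q ∧ j ∈ C.through R

/-- Module Epl (theorem tEpl; five eigenvectors). Uses: nothing.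
Proof. V = k^3 with f = right multiplication by B (Matrix.vecMulLinear or toLin'), v j (j ∈ J) pairwise independent
eigenvectors with eigenvalues μ j. Let not all v j have the same eigenvalue. (a) Among three v with pairwise different eigenvalues
(independent, Module.End.eigenvectors_linearIndependent', so a basis) a fourth eigenvector v = x1 v1 + x2 v2 + x3 v3 with
eigenvalue μ has (μ - μ_i) x_i = 0, so at most one x_i ≠ 0 (two nonzero x would give μ_i = μ = μ_j) and v is proportional to one of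
them: impossible as J has at least 5 > 3 elements. So at most two different eigenvalues occur, c and c'. (b) If both occur at
least twice, v1, v2 (for c) and v3, v4 (for c') : the eigenspaces for c, c' are independent (Module.End.eigenspaces_iSupIndep or: if
x1 v1 + x2 v2 = x3 v3 + x4 v4 apply B - c') of dimension ≥ 2 each, in total ≥ 4 > 3, impossible. So one of them occurs exactly once. -/
def EplStmt : Prop := ∀ (k : Type) [Field k] (r : ℕ) (v : Fin r → Fin 3 → k) (J : Finset (Fin r))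
  (B : Matrix (Fin 3) (Fin 3) k) (μ : Fin r → k), 5 ≤ J.card →
  (∀ i ∈ J, ∀ j ∈ J, i ≠ j → LinearIndependent k ![v i, v j]) → (∀ j ∈ J, Matrix.vecMul (v j) B = μ j • v j) →
  ∃ c : k, ∃ j₀ ∈ J, ∀ j ∈ J, j ≠ j₀ → μ j = c

/-- Module Two (theorem tTwo; every line contains two points of M). Uses: Pnt, Bas, Fou, Epl.
Proof. Suppose that the line i contains at most one point of M; let P be this point, or any point on the line if there is
none (a nonzero vector orthogonal to ℓ i; P = Projectivization.mk). Take a form b with b ⬝ᵥ P.rep = 0 which is not proportional to ℓ i, β i = b, β j = 0 for j ≠ i: a deformation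
(w = 0 at every point; b vanishes at P). InfRigid: ℓ j B = -s j ℓ j for j ≠ i, b = ℓ i B + s i ℓ i, so ℓ i B is not proportional
to ℓ i. There are r - 1 ≥ 5 lines j ≠ i. By Epl there are c and j₀ with -s j = c for all j ∉ {i, j₀}. There are ≥ 4 such j; call
them good. The matrix B is not the scalar c (ℓ i B is not c ℓ i). Let j1 ≠ j2 be good and Q the point of intersection. A good j
passes through Q: otherwise ℓ j1, ℓ j2, ℓ j are independent eigenforms for c, a basis, and B = c. The line i is not through Q,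
since a form vanishing at Q is a combination of ℓ j1, ℓ j2 (Pnt (2)) and satisfies x B = c x. So 4 ≤ ncard (through Q) and by Fou every good line j contains a point R_j ∈ M, R_j ≠ Q. At
least three lines pass through R_j; a good line j' ≠ j does not (else R_j = Q by Bas (1)). So the lines through R_j are exactly
j, i, j₀ and j₀ ≠ j. For two good lines j ≠ j' both R_j and R_j' lie on i and j₀ (i ≠ j₀ because there are three lines), so R_j = R_j' lies on j and j'
and R_j = Q, a contradiction. -/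
def TwoStmt : Prop := ∀ (k : Type) [Field k] (r : ℕ) (C : Config k r), C.InfRigid → 6 ≤ r → ∀ i : Fin r,
  ∃ P ∈ C.M, ∃ Q ∈ C.M, P ≠ Q ∧ i ∈ C.through P ∧ i ∈ C.through Q

/-- Module Spn (theorem tSpn; M without one point is not contained in a line). Uses: Pnt, Bas, Two.
Proof. (1) Suppose that every P ∈ M, P ≠ P₀, lies on the line c = 0. A line i not through P₀ contains two points of M, both
≠ P₀, so both on c = 0, and ℓ i is proportional to c (Pnt (3)). By C.indep there is at most one such line, and there is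
one, i₀, by Bas (6). All other lines pass through P₀. Let j ≠ i₀ be a
line (6 ≤ r). It contains a point R ∈ M, R ≠ P₀ (Two). At least three lines pass through R, so there is one different from j and i₀; it
passes through P₀ and R like j, so it is j (Bas (1) gives P₀ = R), a contradiction. (2) from (1): if the span were not everything, a
nonzero form c would vanish on it (Submodule.exists_le_ker_of_lt_top, or a dual argument). -/
def SpnStmt : Prop := ∀ (k : Type) [Field k] (r : ℕ) (C : Config k r), C.InfRigid → 6 ≤ r →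
  (∀ (P₀ : Pt k) (c : Fin 3 → k), c ≠ 0 → ∃ P ∈ C.M, P ≠ P₀ ∧ c ⬝ᵥ P.rep ≠ 0) ∧
  (∀ P₀ : Pt k, Submodule.span k {x : Fin 3 → k | ∃ P ∈ C.M, P ≠ P₀ ∧ x = P.rep} = ⊤)

/-- Module Avd (theorem tAvd; a form through P₀ and not through finitely many other points). Uses: Pnt.
Proof. Two independent forms c, d vanishing at P₀ (Pnt (5)). For P ∈ S not both c ⬝ᵥ P.rep and d ⬝ᵥ P.rep are 0 (Pnt (1)). Take φ = c + x d: it vanishes at P for at most one x if d ⬝ᵥ P.rep ≠ 0, and for no x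
otherwise. k is infinite and S finite, so some x is good (Infinite.exists_notMem_finset). -/
def AvdStmt : Prop := ∀ (k : Type) [Field k] [Infinite k] (P₀ : Pt k) (S : Finset (Pt k)), P₀ ∉ S →
  ∃ φ : Fin 3 → k, φ ⬝ᵥ P₀.rep = 0 ∧ ∀ P ∈ S, φ ⬝ᵥ P.rep ≠ 0

/-- Module Fmk (theorem tFmk; formality over k). Uses: Pnt, Bas, Two, Avd.
Proof. Let S be the points of M different from P₀ (finite, Bas (5)) and φ as in Avd. β i = t i • φ is a deformation: at P ∈ S,
t i = ℓ i ⬝ᵥ w on through P, so β i ⬝ᵥ P.rep + ℓ i ⬝ᵥ (-(φ ⬝ᵥ P.rep) • w) = 0; at P₀ (if it is in M) β i ⬝ᵥ P₀.rep = 0 and w = 0.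
InfRigid: t i φ = ℓ i B + s i ℓ i for all i. Let P ∈ S and w as above. (1) s is constant on through P: for three lines i, j, m through P
with ℓ m = x ℓ i + y ℓ j, x, y ≠ 0: t m = x t i + y t j, so x s i ℓ i + y s j ℓ j = s m (x ℓ i + y ℓ j) and s i = s m = s j (Bas (2), (4)).
Let s_P be the common value. (2) for every form c vanishing at P: (c ⬝ᵥ w) φ = c B + s_P c, since c is a
combination of two ℓ i (Pnt (2)). (3) for P ≠ Q in S take c ≠ 0 vanishing at P and Q (Pnt (3)); (c ⬝ᵥ w_P - c ⬝ᵥ w_Q) φ = (s_P - s_Q) c; evaluate at P: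
the right side vanishes and φ ⬝ᵥ P.rep ≠ 0, so c ⬝ᵥ w_P = c ⬝ᵥ w_Q and (s_P - s_Q) c = 0, s_P = s_Q. (4) every line contains a point of
S (Two), so all s i are one number σ: t i φ = ℓ i (B + σ). The set of all forms c with c (B + σ) ∈ k φ is a subspace which
contains all ℓ i, so it is everything (C.span); for the unit vectors e_a: e_a (B + σ) = v a φ, hence c (B + σ) = (c ⬝ᵥ v) φ for all c, and
t i φ = (ℓ i ⬝ᵥ v) φ, φ ≠ 0 (if φ = 0 then S is empty; but S is not empty by Two, r ≥ 6; and φ ⬝ᵥ P.rep ≠ 0). -/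
def FmkStmt : Prop := ∀ (k : Type) [Field k] [Infinite k] (r : ℕ) (C : Config k r), C.InfRigid → 6 ≤ r →
  ∀ (P₀ : Pt k) (t : Fin r → k),
    (∀ P ∈ C.M, P ≠ P₀ → ∃ w : Fin 3 → k, ∀ i ∈ C.through P, t i = C.ℓ i ⬝ᵥ w) →
    ∃ v : Fin 3 → k, ∀ i, t i = C.ℓ i ⬝ᵥ v

/-- Module LA3 (theorem tLA3; formality over E, also without one point). Uses: Dua, Exl, Fmk.
Proof. Exl with X = Fin r, Y = Fin 3, N i a = ℓ i a, 𝒜 = {ρ | ∃ P ∈ M, P ≠ P₀ ∧ IsRel P ρ}. Hypothesis of Exl: if t : Fin r → k is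
killed by all ρ ∈ 𝒜, then for P ∈ M, P ≠ P₀, Dua with S = {P}, Z = everything gives v with t i = ℓ i ⬝ᵥ v on through P; then Fmk. For t over
E: if t i = dotE (ℓ i) w on through P and ρ ∈ Rel_P, then ∑ ρ i • t i = ∑_a (∑_i ρ i ℓ i a) • w a = 0 (ρ i = 0 outside
through P). -/
def LA3Stmt : Prop := ∀ (k : Type) [Field k] [Infinite k] (r : ℕ) (C : Config k r), C.InfRigid → 6 ≤ r →
  ∀ (P₀ : Pt k) (E : Type) [AddCommGroup E] [Module k E] (t : Fin r → E),
    (∀ P ∈ C.M, P ≠ P₀ → ∃ w : Fin 3 → E, ∀ i ∈ C.through P, t i = dotE (C.ℓ i) w) →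
    ∃ v : Fin 3 → E, ∀ i, t i = dotE (C.ℓ i) v

/-- Module Cor (theorem tCor; the core). Uses: Dua.
Proof. For y : Fin 3 → k: Dua for x P i ⬝ᵥ y and Z = ∅ (from (H)) gives v and s with x P i ⬝ᵥ y = ℓ i ⬝ᵥ v P + s i on through P, P ∈ S; apply
it to the three unit vectors y = e_a (Pi.single a 1): matrices V' P (columns v_a P) and forms β' i (β' i a = s_a i) with
x P i = ℓ i V' P + β' i. If P₀ ∈ S (then S = M) let V = V', β = β'. Otherwise Dua for x P i ⬝ᵥ P₀.rep and Z = through P₀ (from (H0)):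
x P i ⬝ᵥ P₀.rep = ℓ i ⬝ᵥ v₀ P + s₀ i with s₀ i = 0 for i ∈ through P₀. Let φ be a form with φ ⬝ᵥ P₀.rep = 1 (a coordinate of P₀.rep is
not 0), δ i = s₀ i - β' i ⬝ᵥ P₀.rep, η P = v₀ P - V' P P₀.rep; then ℓ i ⬝ᵥ η P + δ i = 0 for P ∈ S, i ∈ through P. Put β i = β' i + δ i φ,
V P = V' P + (η P) φ^T (vecMulVec): still x P i = ℓ i V P + β i for P ∈ S, i ∈ through P, and β i ⬝ᵥ P₀.rep = s₀ i = 0 for i ∈ through P₀. Now β is a
deformation: at P ∈ S, 0 = x P i ⬝ᵥ P.rep = ℓ i ⬝ᵥ (V P P.rep) + β i ⬝ᵥ P.rep for i ∈ through P; at P₀ (if P₀ ∈ M, P₀ ∉ S) w = 0. InfRigid: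
β i = ℓ i B + s i ℓ i, so x P i = ℓ i (V P + B) + s i ℓ i. -/
def CorStmt : Prop := ∀ (k : Type) [Field k] (r : ℕ) (C : Config k r), C.InfRigid →
  ∀ (P₀ : Pt k) (S : Finset (Pt k)), (∀ P ∈ S, P ∈ C.M) → (∀ P ∈ C.M, P ≠ P₀ → P ∈ S) →
  ∀ x : Pt k → Fin r → Fin 3 → k, (∀ P ∈ S, ∀ i ∈ C.through P, x P i ⬝ᵥ P.rep = 0) →
    (∀ ρ : Pt k → Fin r → k, (∀ P, P ∉ S → ρ P = 0) → (∀ P ∈ S, C.IsRel P (ρ P)) → (∀ i, ∑ P ∈ S, ρ P i = 0) →
      ∀ y : Fin 3 → k, ∑ P ∈ S, ∑ i, ρ P i * (x P i ⬝ᵥ y) = 0) →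
    (P₀ ∉ S → ∀ ρ : Pt k → Fin r → k, (∀ P, P ∉ S → ρ P = 0) → (∀ P ∈ S, C.IsRel P (ρ P)) →
      (∀ i, i ∉ C.through P₀ → ∑ P ∈ S, ρ P i = 0) → ∑ P ∈ S, ∑ i, ρ P i * (x P i ⬝ᵥ P₀.rep) = 0) →
    ∃ (V : Pt k → Matrix (Fin 3) (Fin 3) k) (s : Fin r → k), ∀ P ∈ S, ∀ i ∈ C.through P,
      x P i = Matrix.vecMul (C.ℓ i) (V P) + s i • C.ℓ i

/-- Module L4k (theorem tL4k; LA4 over k). Uses: Eig, Spn, Cor.
Proof. x P i = t P i • ℓ i. x P i ⬝ᵥ P.rep = 0 on through P. (H) for ρ with all sums 0: the function y ↦ ∑ ρ P i (t P i ℓ i ⬝ᵥ y) is linear in y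
and vanishes at y = T.rep for all T ∈ M (hypothesis), and these span k^3 (Spn (2)), so it is 0 (write it as b ⬝ᵥ y for one vector b; if b ≠ 0
Spn (1) gives T with b ⬝ᵥ T.rep ≠ 0). (H0): P₀ ∉ S. If P₀ ∈ M it is the hypothesis for T = P₀. If P₀ ∉ M the hypothesis (H0) is needed all
the same: apply Cor with another P₀: if P₀ ∉ M then S = M, use a point of S (not empty by Spn) in the place of P₀ (every P ∈ M is in S). So: choose P₁ = P₀ if
P₀ ∈ M, else P₁ any point of S. Cor: (t P i - s i) ℓ i = ℓ i V P for i ∈ through P, P ∈ S ⊆ M; Eig: t P i - s i does not depend on i ∈ through P; call it a P. -/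
def L4kStmt : Prop := ∀ (k : Type) [Field k] (r : ℕ) (C : Config k r), C.InfRigid → 6 ≤ r →
  ∀ (P₀ : Pt k) (S : Finset (Pt k)), (∀ P ∈ S, P ∈ C.M) → (∀ P ∈ C.M, P ≠ P₀ → P ∈ S) →
  ∀ t : Pt k → Fin r → k,
    (∀ T ∈ C.M, ∀ ρ : Pt k → Fin r → k, (∀ P, P ∉ S → ρ P = 0) → (∀ P ∈ S, C.IsRel P (ρ P)) →
      (∀ i, i ∉ C.through T → ∑ P ∈ S, ρ P i = 0) →
      ∑ P ∈ S, ∑ i, (ρ P i * (C.ℓ i ⬝ᵥ T.rep)) * t P i = 0) →
    ∃ (s : Fin r → k) (a : Pt k → k), ∀ P ∈ S, ∀ i ∈ C.through P, t P i = s i + a P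

/-- Module LA4 (theorem tLA4). Uses: Exl, L4k.
Proof. Exl with X = {q : S × Fin r // q.2 ∈ through q.1} (S as a type), Y = Fin r ⊕ S, N q (inl i) = 1 if q.2 = i, else 0, N q (inr P) = 1 if q.1 = P, else 0,
𝒜 = the functions q ↦ ρ P i * (ℓ i ⬝ᵥ T.rep) (q = (P, i)) for all T ∈ M and all ρ as in the statement. (The sums over P ∈ S and all i equal the
sums over X since ρ P i = 0 for i ∉ through P.) The hypothesis of Exl is L4k (extend t : X → k by 0 to all P, i), the conclusion is LA4. -/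
def LA4Stmt : Prop := ∀ (k : Type) [Field k] (r : ℕ) (C : Config k r), C.InfRigid → 6 ≤ r →
  ∀ (P₀ : Pt k) (S : Finset (Pt k)), (∀ P ∈ S, P ∈ C.M) → (∀ P ∈ C.M, P ≠ P₀ → P ∈ S) →
  ∀ (E : Type) [AddCommGroup E] [Module k E] (t : Pt k → Fin r → E),
    (∀ T ∈ C.M, ∀ ρ : Pt k → Fin r → k, (∀ P, P ∉ S → ρ P = 0) → (∀ P ∈ S, C.IsRel P (ρ P)) →
      (∀ i, i ∉ C.through T → ∑ P ∈ S, ρ P i = 0) →
      ∑ P ∈ S, ∑ i, (ρ P i * (C.ℓ i ⬝ᵥ T.rep)) • t P i = 0) →
    ∃ (s : Fin r → E) (a : Pt k → E), ∀ P ∈ S, ∀ i ∈ C.through P, t P i = s i + a P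

/-- Module LA5 (theorem tLA5; the vector v over an extension E of F). Uses: LA3, LA4.
Proof. LA4 gives s, a with t P i = s i + a P. Then s i ev(ℓ i) = t P i ev(ℓ i) - a P ev(ℓ i) = dotE (ℓ i) (w P - a P • gen) for P ∈ S,
i ∈ through P (ev c = ∑ c i gen i; multiplication by a P and algebraMap). Every P ∈ M, P ≠ P₀ is in S. LA3 for the family
s i ev(ℓ i) gives v. The action of k on E is that of the algebra (IsScalarTower). -/
def LA5Stmt : Prop := ∀ (k : Type) [Field k] [Infinite k] (r : ℕ) (C : Config k r), C.InfRigid → 6 ≤ r →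
  ∀ (P₀ : Pt k) (S : Finset (Pt k)), (∀ P ∈ S, P ∈ C.M) → (∀ P ∈ C.M, P ≠ P₀ → P ∈ S) →
  ∀ (E : Type) [Field E] [Algebra (F k) E] [Algebra k E] [IsScalarTower k (F k) E] (t : Pt k → Fin r → E)
    (w : Pt k → Fin 3 → E),
    (∀ P ∈ S, ∀ i ∈ C.through P, t P i * algebraMap (F k) E (ev (C.ℓ i)) = dotE (C.ℓ i) (w P)) →
    (∀ T ∈ C.M, ∀ ρ : Pt k → Fin r → k, (∀ P, P ∉ S → ρ P = 0) → (∀ P ∈ S, C.IsRel P (ρ P)) →
      (∀ i, i ∉ C.through T → ∑ P ∈ S, ρ P i = 0) →
      ∑ P ∈ S, ∑ i, (ρ P i * (C.ℓ i ⬝ᵥ T.rep)) • t P i = 0) →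
    ∃ (s : Fin r → E) (a : Pt k → E) (v : Fin 3 → E), (∀ P ∈ S, ∀ i ∈ C.through P, t P i = s i + a P) ∧
      ∀ i, dotE (C.ℓ i) v = s i * algebraMap (F k) E (ev (C.ℓ i))

/-- Module LA7 (theorem tLA7; case C). Uses: Cor, Spn.
Proof. Let S be the finite set M (hypothesis hS) and e : E → k a k-linear map with e 1 = 1 (LinearMap.exists_leftInverse_of_injective for
Algebra.linearMap k E, injective since E is nontrivial). Apply e to the hypothesis (algebraMap k E z = z • 1):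
∑ ρ P i ((ℓ i ⬝ᵥ y) e(t P i) + u P i ⬝ᵥ y) = 0. Cor with x P i = e(t P i) • ℓ i + u P i and P₀ := a point of M (not empty by Spn), which is in S, so
(H0) is empty. x P i ⬝ᵥ P.rep = 0 on through P. Result: u P i = ℓ i V P + (s i - e(t P i)) ℓ i. -/
def LA7Stmt : Prop := ∀ (k : Type) [Field k] (r : ℕ) (C : Config k r), C.InfRigid → 6 ≤ r →
  ∀ (S : Finset (Pt k)), (∀ P, P ∈ S ↔ P ∈ C.M) →
  ∀ (E : Type) [Ring E] [Nontrivial E] [Algebra k E] (t : Pt k → Fin r → E) (u : Pt k → Fin r → Fin 3 → k),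
    (∀ P ∈ S, ∀ i ∈ C.through P, u P i ⬝ᵥ P.rep = 0) →
    (∀ ρ : Pt k → Fin r → k, (∀ P, P ∉ S → ρ P = 0) → (∀ P ∈ S, C.IsRel P (ρ P)) → (∀ i, ∑ P ∈ S, ρ P i = 0) →
      ∀ y : Fin 3 → k, ∑ P ∈ S, ∑ i, ρ P i • ((C.ℓ i ⬝ᵥ y) • t P i + algebraMap k E (u P i ⬝ᵥ y)) = 0) →
    ∀ P ∈ S, ∃ (A : Matrix (Fin 3) (Fin 3) k) (c : Fin r → k), ∀ i ∈ C.through P,
      u P i = Matrix.vecMul (C.ℓ i) A + c i • C.ℓ i

end Pool.Agent.Lib.MP_4318ff_ag
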