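import Pool.Agent.Lib.MP_4318ff_ag.Spec.A2
import Pool.Agent.Lib.MP_4318ff_ag.Spec.LA

/-!
# MP_4318ff_ag, part A, third block: core theorem, invariant classes (case C), Galois closure, assembly
-/

set_option autoImplicit false

namespace Pool.Agent.Lib.MP_4318ff_ag

open scoped LinearAlgebra.Projectivization

/-! ### The core theorem -/

/-- MODULE `A/MFin` (40 lines). There are finitely many multiple points. PROOF: a point of `C.M` is the intersection of two of the lines. -/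
def MFinStmt : Prop := ∀ (k : Type) [Field k] (r : ℕ) (C : Config k r), C.M.Finite

/-- MODULE `A/Vec` (140 lines). One vector field for all pencils. USES `EvStmt`, `VanStmt`, `LA5Stmt`, `DerVStmt`, `PenStmt`. PROOF: fix the chart `u`. `t P i = Δ P u (ℓ_i)/ℓ_i`,
`w P j = Δ P u (gen j)`: `Δ P u (ev c) = dotE c (w P)`. For `T ∈ C.M` at most `r - 3` lines do not pass through `T`, so `card + 1 ≤ r - 2 < n`, and `VanStmt`
gives the hypothesis of `LA5Stmt` (with the `P₀` here). Result: `s, a, v` with `t P i = s i + a P`, `dotE ℓ_i v = s i ℓ_i`. `DerVStmt` for `v` gives `E` with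
`E(ℓ_i)/ℓ_i = s i - v 0`, so the differences agree with those of `Δ P u` and `PenStmt` gives `EqOn P (E) (Δ P u)`. -/
def VecStmt : Prop := ∀ (k : Type) [Field k] [CharZero k] [IsAlgClosed k] (r n : ℕ) (C : Config k r) (K : Type)
  [Field K] [Algebra (F k) K] [Algebra k K] [IsScalarTower k (F k) K] [FiniteDimensional (F k) K],
  C.InfRigid → 6 ≤ r → r ≤ n + 1 → Roots K C n →
  ∀ (P₀ : Pt k) (S : Finset (Pt k)), (∀ P ∈ S, P ∈ C.M) → (∀ P ∈ C.M, P ≠ P₀ → P ∈ S) →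
  ∀ (D : Chart C → Chart C → Derivation k K K) (Δ : Pt k → Chart C → Derivation k K K),
  (∀ P ∈ S, ∀ u O, IsDiv C O → u.R ≤ O → RegAt C n P O (Δ P u)) →
  (∀ P ∈ S, ∀ u v, EqOn P (D u v) (Δ P v - Δ P u)) →
  ∃ E : Chart C → Derivation k K K, ∀ u, ∀ P ∈ S, EqOn P (E u) (Δ P u)

/-- MODULE `A/Core` (200 lines). USES `MFinStmt`, `VecStmt`, `HartKStmt`, `DerUniqStmt`, `RegEqStmt`, `RegModStmt`, `RegCurveStmt`, `RegExcStmt`, `InvStmt`, `AvgStmt`, `TwoStmt`, `SpnStmt`.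
PROOF: `M' = {P ∈ C.M, P ≠ P₀}` contains two different points, every line of `C` contains a point of `M'` (`TwoStmt`), and no form vanishes on `M'` (`SpnStmt`). Case 1: `ExtOne n P₀ D`: `S = C.M`, `E`
from `VecStmt`. Case 2: `S = M'`, `E₀` from `VecStmt`, `E u =` average of `E₀ u` over `NP K P₀`. In both cases `D u v = E v - E u` (`DerUniqStmt` for two points of
`S`; in case 2 first for `E₀`, then average, `D u v` is invariant) and `RegAt C n P O (E u)` for `P ∈ S`, `IsDiv C O`, `u.R ≤ O` (`RegEqStmt`, `RegModStmt`: conjugation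
and averages preserve it). Regularity: `y ∈ ic K u.R ∩ Kummer`; by `HartKStmt` it is enough that `E u y ∈ ic K O` for all divisors `O` with `u.R ≤ O`
(then `y ∈ ic K O`). `O` a curve: `RegCurveStmt`. `O` exceptional over `T ∈ C.M`. If `T ∈ S`: a line `i` through `T` and not through `P₀` if `T ≠ P₀` (three lines pass through
`T`, at most one of them through `P₀`), `Q ∈ C.M` on it, `Q ≠ T` (`TwoStmt`), then `Q ∈ S`; the hypothesis on `T^⊥` of `RegExcStmt` is `RegAt` at `T` (`d/c ∈ O`, `ExcStmt` or directly: you may use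
`ExcStmt`). If `T = P₀ ∉ S` (case 2): `i₁ ≠ i₂` through `T`, `Q₁, Q₂` on them, `InvStmt` gives the hypothesis of `RegExcStmt`. (`6 ≤ r ≤ n + 1` gives `n ≥ 5`.) -/
def CoreStmt : Prop := ∀ (k : Type) [Field k] [CharZero k] [IsAlgClosed k] (r n : ℕ) (C : Config k r) (K : Type)
  [Field K] [Algebra (F k) K] [Algebra k K] [IsScalarTower k (F k) K] [FiniteDimensional (F k) K] [IsGalois (F k) K],
  C.InfRigid → 6 ≤ r → r ≤ n + 1 → Roots K C n →
  ∀ (D : Chart C → Chart C → Derivation k K K) (P₀ : Pt k),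
  (∀ P ∈ C.M, P ≠ P₀ → ExtOne n P D) →
  (ExtOne n P₀ D ∨ ∀ g ∈ NP K P₀, ∀ u v, conjD g (D u v) = D u v) →
  IsBdry n D

/-! ### Case C: invariant cocycles. Everything descends to `F`. -/

/-- Equality along the pencil `P` for derivations of `F`. -/
def EqOnF {k : Type} [Field k] (P : Pt k) (D D' : Derivation k (F k) (F k)) : Prop :=
  ∀ c c' : Fin 3 → k, c ⬝ᵥ P.rep = 0 → c' ⬝ᵥ P.rep = 0 → D (ev c / ev c') = D' (ev c / ev c')

/-- Logarithmic regularity along the pencil `P` at `O` for derivations of `F`. -/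
def RegF {k : Type} [Field k] {r : ℕ} (C : Config k r) (P : Pt k) (O : Subalgebra k (F k))
    (δ : Derivation k (F k) (F k)) : Prop :=
  (∀ c c' : Fin 3 → k, c ⬝ᵥ P.rep = 0 → c' ⬝ᵥ P.rep = 0 → ev c / ev c' ∈ O → δ (ev c / ev c') ∈ O) ∧
  (∀ i ∈ C.through P, ∀ j ∈ C.through P, ev (C.ℓ i) / ev (C.ℓ j) ∈ O →
    δ (ev (C.ℓ i) / ev (C.ℓ j)) / (ev (C.ℓ i) / ev (C.ℓ j)) ∈ O)

/-- `Ext` for derivations of `F`. -/
def ExtF {k : Type} [Field k] {r : ℕ} {C : Config k r} (P : Pt k)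
    (D : Chart C → Chart C → Derivation k (F k) (F k)) : Prop :=
  ∃ (δ : Chart C → Derivation k (F k) (F k)) (ε : (Fin 3 → k) → (Fin 3 → k) → Derivation k (F k) (F k)),
    (∀ u, ∀ O, IsDiv C O → u.R ≤ O → RegF C P O (δ u)) ∧
    (∀ a a' : Fin 3 → k, a ≠ 0 → a' ≠ 0 → a ⬝ᵥ P.rep = 0 → a' ⬝ᵥ P.rep = 0 →
      (∀ O, IsDiv C O → PR P a ≤ O → PR P a' ≤ O → RegF C P O (ε a a')) ∧
      ∀ c c' : Fin 3 → k, c ⬝ᵥ P.rep = 0 → c' ⬝ᵥ P.rep = 0 → ε a a' (ev c / ev c') ∈ PF P) ∧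
    ∀ u v, EqOnF P (D u v) (δ v - δ u + ε (u.a P) (v.a P))

/-- `ExtOne` for derivations of `F`. -/
def ExtOneF {k : Type} [Field k] {r : ℕ} {C : Config k r} (P : Pt k)
    (D : Chart C → Chart C → Derivation k (F k) (F k)) : Prop :=
  ∃ δ : Chart C → Derivation k (F k) (F k),
    (∀ u, ∀ O, IsDiv C O → u.R ≤ O → RegF C P O (δ u)) ∧ ∀ u v, EqOnF P (D u v) (δ v - δ u)

/-- MODULE `A/Desc` (150 lines). Descent of invariant derivations. USES `UnifStmt`, `CurveStmt`, `ExcStmt`, `TauStmt`. PROOF: (1) `Δ` invariant under `Gal(K/F)` maps `F` to the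
fixed field `F`. (2) `RegAt` implies `RegF`: first item: `ic K O ∩ F = O`. Second: `λ = ℓ_i/ℓ_j ∈ O`; a unit: clear. Otherwise `λ` is a uniformiser of `O` (curve: `O` is the line `ℓ_i`,
`CurveStmt`; exceptional curve over `T`: `ℓ_i(T) = 0 ≠ ℓ_j(T)`, or `T = P` and then `λ` is a unit, `ExcStmt`), `Δ(λ)^n ∈ λ^(n-1) ic K O` (`TauStmt`) so `δ(λ)^n ∈ λ^(n-1) O`
and, `n ≥ 2`, `δ(λ) ∈ λ O`. (3) Conversely `z^n = λ`: `Δ z = z Δ(λ)/(n λ)`. (4) every `δ ∈ Der(F)` extends to `K` (finite separable); the extension is invariant. -/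
def DescStmt : Prop := ∀ (k : Type) [Field k] [CharZero k] (r n : ℕ) (C : Config k r) (K : Type)
  [Field K] [Algebra (F k) K] [Algebra k K] [IsScalarTower k (F k) K] [FiniteDimensional (F k) K] [IsGalois (F k) K],
  2 ≤ n → Roots K C n →
  (∀ Δ : Derivation k K K, (∀ g : K ≃ₐ[F k] K, conjD g Δ = Δ) →
    ∃ δ : Derivation k (F k) (F k), (∀ f, Δ (algebraMap (F k) K f) = algebraMap (F k) K (δ f)) ∧
      ∀ P O, IsDiv C O → RegAt C n P O Δ → RegF C P O δ) ∧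
  (∀ δ : Derivation k (F k) (F k), ∃ Δ : Derivation k K K,
    (∀ f, Δ (algebraMap (F k) K f) = algebraMap (F k) K (δ f)) ∧ ∀ P O, RegF C P O δ → RegAt C n P O Δ)

/-- MODULE `C/PenPoly` (120 lines). Regular functions on a pencil. USES `EvStmt`, `CoordStmt`, `LocStmt`, `UnifStmt`, `CurveStmt`. PROOF: `λ = a'/a` with `a, a'` a basis of `P^⊥` (for the first statement choose `a'`):
`PF P = k(λ)`, `PR P a = k[λ]`, `PR P a' = k[1/λ]`. `f = g(λ)/h(λ)` in lowest terms; `h` splits into linear factors `λ - t` (`k` algebraically closed), `λ - t = c/a` with `c = a' - t a`; the line `c = 0` has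
a local ring `O` (a curve, `LocStmt` with coordinates `c/a, d/a`) in which `c/a` is a uniformiser, `a` (and `a'` if `t ≠ 0`) are unit forms; so `f ∉ O` if `t` is a zero of `h`. -/
def PenPolyStmt : Prop := ∀ (k : Type) [Field k] [IsAlgClosed k] (P : Pt k) (f : F k), f ∈ PF P →
  (∀ a : Fin 3 → k, a ≠ 0 → a ⬝ᵥ P.rep = 0 → (∀ O, IsCurve O → UnitForm O a → f ∈ O) → f ∈ PR P a) ∧
  (∀ a a' : Fin 3 → k, a ≠ 0 → a' ≠ 0 → a ⬝ᵥ P.rep = 0 → a' ⬝ᵥ P.rep = 0 →
    (∀ O, IsCurve O → UnitForm O a → UnitForm O a' → f ∈ O) → f ∈ PR P a ⊔ PR P a')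

/-- MODULE `C/Split` (180 lines). `H¹(P¹, Θ) = 0`. USES `EvStmt`, `CoordStmt`, `CurveStmt`, `PenPolyStmt`, `DerVStmt`. PROOF: let `δ, ε` be as in `ExtF P D`. (1) for given nonzero `a, a', a'' ∈ P^⊥` there are charts `u, v, w` with `u.a P = a`,
`v.a P = a'`, `w.a P = a''` (the other data arbitrary); the cocycle identity gives `ε(a,a') + ε(a',a'') = ε(a,a'')` along the pencil `P`; in particular `ε(a,a) = 0`, `ε(a',a) = - ε(a,a')`. (2) `ε(a,a')(c/a) ∈ PR P a ⊔ PR P a'`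
for `c ∈ P^⊥`: `PenPolyStmt`, because for a curve `O` with `UnitForm O a`, `UnitForm O a'` we have `PR P a ≤ O`, `PR P a' ≤ O` and `RegF` applies to `c/a ∈ O`. (3) fix a basis `a₀, a₁` of `P^⊥`, `λ = a₀/a₁`, `PR P a₀ = k[1/λ]`,
`PR P a₁ = k[λ]`, `p := ε(a₀,a₁)(λ) ∈ k[λ, 1/λ]`, `p = p₊ + p₋` (nonnegative and negative exponents). Choose derivations `η₁, η₀` of `F` with `η₁(λ) = p₊`, `η₀(λ) = - p₋` (and `0` on a second coordinate):
`ε(a₀,a₁) = η₁ - η₀` on the pencil. `η_a := η₀ - ε(a, a₀)`, which equals `η₁ - ε(a, a₁)` along the pencil, for every `a` (also `a₀, a₁`). (4) `η_a(c/a) ∈ PR P a`: it lies in `PF P`, and for a curve `O` with `UnitForm O a` either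
`a₀` or `a₁` is a unit form at `O` (at most one form up to a factor is not a unit form); in the first case `η₀(c/a)`: `1/λ, a/a₀` and `c/a₀` lie in `PR P a₀ ≤ O`, `η₀` maps `k[1/λ]` to itself (`η₀(1/λ) = p₋/λ²`), so `η₀(c/a) ∈ O` (`a/a₀` is a unit of `O`), and `ε(a,a₀)(c/a) ∈ O`
by `RegF`; similarly in the second case with `η₁`. `PenPolyStmt`. -/
def SplitStmt : Prop := ∀ (k : Type) [Field k] [CharZero k] [IsAlgClosed k] (r : ℕ) (C : Config k r) (P : Pt k), P ∈ C.M →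
  ∀ D : Chart C → Chart C → Derivation k (F k) (F k), (∀ u v w, D u v + D v w = D u w) →
  ∀ (δ : Chart C → Derivation k (F k) (F k)) (ε : (Fin 3 → k) → (Fin 3 → k) → Derivation k (F k) (F k)),
  (∀ a a' : Fin 3 → k, a ≠ 0 → a' ≠ 0 → a ⬝ᵥ P.rep = 0 → a' ⬝ᵥ P.rep = 0 →
      (∀ O, IsDiv C O → PR P a ≤ O → PR P a' ≤ O → RegF C P O (ε a a')) ∧
      ∀ c c' : Fin 3 → k, c ⬝ᵥ P.rep = 0 → c' ⬝ᵥ P.rep = 0 → ε a a' (ev c / ev c') ∈ PF P) →
  (∀ u v, EqOnF P (D u v) (δ v - δ u + ε (u.a P) (v.a P))) →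
  ∃ η : (Fin 3 → k) → Derivation k (F k) (F k),
    (∀ a c : Fin 3 → k, a ≠ 0 → a ⬝ᵥ P.rep = 0 → c ⬝ᵥ P.rep = 0 → η a (ev c / ev a) ∈ PR P a) ∧
    ∀ a a' : Fin 3 → k, a ≠ 0 → a' ≠ 0 → a ⬝ᵥ P.rep = 0 → a' ⬝ᵥ P.rep = 0 → EqOnF P (ε a a') (η a' - η a)

/-- MODULE `C/Polar` (150 lines). The polar parts. USES `EvStmt`, `UnifStmt`, `CurveStmt`. PROOF: let `i` pass through `P`, `O` the line `ℓ_i` (`¬ UnitForm O ℓ_i`). Choose `a ∈ P^⊥` independent of `ℓ_i`, `PR P a = k[ℓ_i/a]`, let `κ ∈ k` be the constant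
term of the polynomial `η_a(ℓ_i/a)` in `ℓ_i/a`, and `υ i := κ a` (a form through `P`). For another `a' ∈ P^⊥` independent of `ℓ_i`: `a, a'` are unit forms at `O`, `ε(a,a') = η_(a') - η_a` is logarithmic there, so
`η_(a')(ℓ_i/a') ≡ η_a(ℓ_i/a') = (a/a') η_a(ℓ_i/a) + (ℓ_i/a) η_a(a/a') ≡ κ a/a' = υ_i/a'` modulo `(ℓ_i/a) O`. Hence for every `a` with `PR P a ≤ O` (so `a` is independent of `ℓ_i`) and every `j ≠ i` through `P`:
`η_a(ℓ_i/ℓ_j)/(ℓ_i/ℓ_j) - υ_i/ℓ_i ∈ O` (`ℓ_i/ℓ_j = (ℓ_i/a)(a/ℓ_j)`). -/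
def PolarStmt : Prop := ∀ (k : Type) [Field k] [CharZero k] [IsAlgClosed k] (r : ℕ) (C : Config k r) (P : Pt k), P ∈ C.M →
  ∀ (ε : (Fin 3 → k) → (Fin 3 → k) → Derivation k (F k) (F k)) (η : (Fin 3 → k) → Derivation k (F k) (F k)),
  (∀ a a' : Fin 3 → k, a ≠ 0 → a' ≠ 0 → a ⬝ᵥ P.rep = 0 → a' ⬝ᵥ P.rep = 0 →
      ∀ O, IsDiv C O → PR P a ≤ O → PR P a' ≤ O → RegF C P O (ε a a')) →
  (∀ a c : Fin 3 → k, a ≠ 0 → a ⬝ᵥ P.rep = 0 → c ⬝ᵥ P.rep = 0 → η a (ev c / ev a) ∈ PR P a) →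
  (∀ a a' : Fin 3 → k, a ≠ 0 → a' ≠ 0 → a ⬝ᵥ P.rep = 0 → a' ⬝ᵥ P.rep = 0 → EqOnF P (ε a a') (η a' - η a)) →
  ∃ υ : Fin r → Fin 3 → k, (∀ i, υ i ⬝ᵥ P.rep = 0) ∧
    ∀ i ∈ C.through P, ∀ a : Fin 3 → k, a ⬝ᵥ P.rep = 0 → LinearIndependent k ![C.ℓ i, a] →
      ∃ g ∈ PR P a, η a (ev (C.ℓ i) / ev a) = ev (υ i) / ev a + ev (C.ℓ i) / ev a * g

/-- MODULE `C/Const` (60 lines). USES `EvStmt`, `CoordStmt`, `CurveStmt`, `LocStmt`, `HartAStmt`, `OrdStmt`. PROOF: `f = h(z, w)`, `z = c/b`, `w = d/b` (`HartAStmt`); at the line `b = 0` (coordinates `1/z, w/z`) `f ∈ O`, so all monomials have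
degree `≤ 0` (`OrdStmt` with `e = 0`). -/
def ConstStmt : Prop := ∀ (k : Type) [Field k] (f : F k), (∀ O, IsCurve O → f ∈ O) → ∃ t : k, f = algebraMap k (F k) t

/-- MODULE `C/GlobC` (180 lines). The global functions of case C. USES `EvStmt`, `UnifStmt`, `CurveStmt`, `ChartExStmt`, `ConstStmt`. Data: for every `P ∈ S = C.M`: derivations `δ P u` (regular), `η P a` (regular on the chart `a`
of the pencil), forms `υ P i` with the property of `PolarStmt`; `f P u = δ P u + η P (u.a P)` and `D u v = f P v - f P u` along the pencil `P`. PROOF: `G_u = ∑_P ∑_i ρ P i (ℓ_i(y)) f P u(ℓ_i)/ℓ_i` is independent of `u` (as in `GlobStmt`: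
`∑_i ρ P i ℓ_i(y) = 0` and `∑_P ρ P i = 0`). `G - ∑ ρ P i ℓ_i(y) υ P i/ℓ_i` lies in every curve `O`: take a chart `u` with `u.R ≤ O`. For `i, j` through `P` which are unit forms at `O`:
`f P u(ℓ_i)/ℓ_i - f P u(ℓ_j)/ℓ_j = f P u(ℓ_i/ℓ_j)/(ℓ_i/ℓ_j) ∈ O` (`RegF` for `δ`; `η P a` maps `PR P a ≤ O` to itself and `ℓ_i/ℓ_j = (ℓ_i/a)/(ℓ_j/a)`, a quotient of units of `O`) and `υ P i/ℓ_i ∈ O`. If `ℓ_i` is not a unit form at `O` (one line at most), `P` on it, `j ≠ i` through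
`P`: `a = u.a P` is independent of `ℓ_i` and `f P u(ℓ_i)/ℓ_i - f P u(ℓ_j)/ℓ_j - υ P i/ℓ_i ∈ O` (`RegF` second item for `δ`; `η_a(ℓ_i/ℓ_j)/(ℓ_i/ℓ_j) = η_a(ℓ_i/a)/(ℓ_i/a) - η_a(ℓ_j/a)/(ℓ_j/a)`, property of `υ`). Sum with `∑_i ρ P i ℓ_i(y) = 0`. `ConstStmt`. -/
def GlobCStmt : Prop := ∀ (k : Type) [Field k] [CharZero k] [IsAlgClosed k] (r : ℕ) (C : Config k r) (S : Finset (Pt k)),
  (∀ P ∈ S, P ∈ C.M) →
  ∀ (D : Chart C → Chart C → Derivation k (F k) (F k)) (δ : Pt k → Chart C → Derivation k (F k) (F k))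
    (η : Pt k → (Fin 3 → k) → Derivation k (F k) (F k)) (υ : Pt k → Fin r → Fin 3 → k),
  (∀ P ∈ S, ∀ u O, IsDiv C O → u.R ≤ O → RegF C P O (δ P u)) →
  (∀ P ∈ S, ∀ a c : Fin 3 → k, a ≠ 0 → a ⬝ᵥ P.rep = 0 → c ⬝ᵥ P.rep = 0 → η P a (ev c / ev a) ∈ PR P a) →
  (∀ P ∈ S, ∀ i ∈ C.through P, ∀ a : Fin 3 → k, a ⬝ᵥ P.rep = 0 → LinearIndependent k ![C.ℓ i, a] →
      ∃ g ∈ PR P a, η P a (ev (C.ℓ i) / ev a) = ev (υ P i) / ev a + ev (C.ℓ i) / ev a * g) →
  (∀ P ∈ S, ∀ u v, EqOnF P (D u v) (δ P v + η P (v.a P) - (δ P u + η P (u.a P)))) →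
  ∀ ρ : Pt k → Fin r → k, (∀ P ∈ S, C.IsRel P (ρ P)) → (∀ i, ∑ P ∈ S, ρ P i = 0) → ∀ (y : Fin 3 → k) (u : Chart C),
  ∃ t : k, ∑ P ∈ S, ∑ i, algebraMap k (F k) (ρ P i * (C.ℓ i ⬝ᵥ y)) *
    ((δ P u + η P (u.a P)) (ev (C.ℓ i)) / ev (C.ℓ i) - ev (υ P i) / ev (C.ℓ i)) = algebraMap k (F k) t

/-- MODULE `C/CaseF` (180 lines). USES `EvStmt`, `MFinStmt`, `SplitStmt`, `PolarStmt`, `GlobCStmt`, `LA7Stmt`, `DerVStmt`, `PenStmt`. PROOF: `S = C.M`; `δ P, ε P` from `ExtF`, `η P` from `SplitStmt`, `υ P` from `PolarStmt`. Fix a chart `u`, `t P i = (δ P u + η P (u.a P))(ℓ_i)/ℓ_i`.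
For `ρ` with `ρ P ∈ Rel_P`, `∑_P ρ P i = 0`: `GlobCStmt`: `∑ ρ P i ℓ_i(y) (t P i - υ P i/ℓ_i) = c(y) ∈ k`, linear in `y`, `c` = a form. Put `y = e_j` (unit vectors), multiply by `gen j` and add: `∑_j ℓ_i(e_j) gen j = ev ℓ_i`, so
`∑ ρ P i ev(ℓ_i) t P i - ∑ ρ P i ev(υ P i) = ev c`, and the first sum is `∑_P f P u(∑_i ρ P i ev ℓ_i) = 0`. So `c = - ∑ ρ P i υ P i` (`ev` injective), i.e. `∑ ρ P i (ℓ_i(y) (t P i - υ P i/ℓ_i) + υ P i(y)) = 0` for all `y`. `LA7Stmt` (with `E = F`):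
`υ P i = ℓ_i A_P + c_i ℓ_i` for `i` through `P`. `(ℓ_i A_P)(P) = 0` for `i` through `P`, so `A_P` maps `P^⊥` to itself (`c ↦ vecMul c A_P`). `DerVStmt` (with `K = F`) for the vector `v_i = ∑_j A_P i j gen j`: a derivation `ξ_P` with
`ξ_P(ev c) = ev(vecMul c A_P) - v_0 ev c`; `ξ_P(c/a) = ev(cA)/ev a - (ev c/ev a)(ev(aA)/ev a) ∈ PR P a`. Put `δ' P u = δ P u + η P (u.a P) - ξ_P`. Then `D u v = δ' P v - δ' P u` along `P`, and `RegF C P O (δ' P u)`: for `η' = η P a - ξ_P`,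
`a = u.a P`, `PR P a ≤ O`: `η'(c/a) ∈ PR P a`; `c/c' ∈ O` implies that `c'/a` is a unit of `O` (if `c, c'` are independent, `1` is a combination of `c/a` and `c'/a`), so `η'(c/c') ∈ O`; `η'(ℓ_i/a) ∈ (ℓ_i/a) PR P a` for `i` through `P` (independent
of `a`: `η(ℓ_i/a) = υ_i/a + (ℓ_i/a) g` and `ξ(ℓ_i/a) = (υ_i - c_i ℓ_i)/a - (ℓ_i/a)(..)`; proportional to `a`: both are 0), so the second item of `RegF` holds: `η'(ℓ_i/ℓ_j)/(ℓ_i/ℓ_j) = η'(ℓ_i/a)/(ℓ_i/a) - η'(ℓ_j/a)/(ℓ_j/a)`. -/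
def CaseFStmt : Prop := ∀ (k : Type) [Field k] [CharZero k] [IsAlgClosed k] (r : ℕ) (C : Config k r), C.InfRigid → 6 ≤ r →
  ∀ D : Chart C → Chart C → Derivation k (F k) (F k), (∀ u v w, D u v + D v w = D u w) →
  (∀ P ∈ C.M, ExtF P D) → ∀ P ∈ C.M, ExtOneF P D

/-- MODULE `C/CaseC` (120 lines). USES `AvgStmt`, `RegModStmt`, `AlgClStmt`, `DescStmt`, `CaseFStmt`. PROOF: replace `Δ` and `E` in `Ext n P D` by their averages over the whole Galois group (`RegModStmt`, `AvgStmt`); `D u v` is invariant. All descend to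
derivations of `F` (`DescStmt`); `E a a' (c/c')` is algebraic over `PF P` and lies in `F`, so in `PF P` (`AlgClStmt` with `α ∈ F`, any `Q ≠ P`). `CaseFStmt`, and go up with `DescStmt`. -/
def CaseCStmt : Prop := ∀ (k : Type) [Field k] [CharZero k] [IsAlgClosed k] (r n : ℕ) (C : Config k r) (K : Type)
  [Field K] [Algebra (F k) K] [Algebra k K] [IsScalarTower k (F k) K] [FiniteDimensional (F k) K] [IsGalois (F k) K],
  C.InfRigid → 6 ≤ r → 2 ≤ n → Roots K C n →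
  ∀ D : Chart C → Chart C → Derivation k K K, IsCocycle D → (∀ (g : K ≃ₐ[F k] K) u v, conjD g (D u v) = D u v) →
  (∀ P ∈ C.M, Ext n P D) → ∀ P ∈ C.M, ExtOne n P D

/-- MODULE `A/MT` (150 lines). The main theorem for Galois extensions. USES `MFinStmt`, `AvgStmt`, `NPnormalStmt`, `DisjStmt`, `ExtModStmt`, `KillStmt`, `CoreStmt`, `CaseCStmt`, `RegModStmt`, `TwoStmt`. PROOF: `e_P` = average over `NP K P`, `e` = average over `⊤`.
`D = D⁰ + ∑_(P ∈ C.M) (e_P D - e D) + e D`, `D⁰ = D - ∑_P (e_P D - e D) - e D`. `e_Q e_P = e` for `P ≠ Q` (`DisjStmt`, `AvgStmt`), so `e_Q D⁰ = 0` for all `Q ∈ C.M`, and `e_Q (e_P D - e D) = 0` for `Q ≠ P`. All summands satisfy `Ext n Q` for all `Q` (`ExtModStmt`). (A) `D⁰`: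
`ExtOne n Q` for all `Q` (`KillStmt`), `CoreStmt` with any `P₀ ∈ C.M` (or any point). (B) `e_P D - e D`: `ExtOne n Q` for `Q ≠ P`, invariant under `NP K P`; `CoreStmt` with `P₀ = P`. (C) `e D`: a cocycle, invariant; `CaseCStmt`, `CoreStmt`. A sum of
boundaries is a boundary (`RegModStmt`). -/
def MTStmt : Prop := ∀ (k : Type) [Field k] [CharZero k] [IsAlgClosed k] (r n : ℕ) (C : Config k r) (K : Type)
  [Field K] [Algebra (F k) K] [Algebra k K] [IsScalarTower k (F k) K] [FiniteDimensional (F k) K] [IsGalois (F k) K],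
  C.InfRigid → 6 ≤ r → r ≤ n + 1 → Roots K C n →
  ∀ D : Chart C → Chart C → Derivation k K K, IsCocycle D → (∀ P ∈ C.M, Ext n P D) → IsBdry n D

/-! ### Etale coverings -/

/-- `K` is the function field of a connected finite etale covering of the Hirzebruch-Kummer covering of `C`. -/
structure IsEtaleCover {k : Type} [Field k] {r : ℕ} (C : Config k r) (n : ℕ) (K : Type) [Field K] [Algebra (F k) K] :
    Prop where
  finite : FiniteDimensional (F k) K
  roots : Roots K C n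
  etale : ∀ u : Chart C, RingHom.Etale
    (Subring.inclusion (inf_le_left : u.A K ⊓ (Kummer K C n).toSubring ≤ u.A K))

/-- The first cohomology group of the tangent sheaf of `Y` is zero. -/
def H1Vanishes {k : Type} [Field k] {r : ℕ} (C : Config k r) (K : Type) [Field K] [Algebra (F k) K] [Algebra k K] : Prop :=
  ∀ D : Chart C → Chart C → Derivation k K K,
    (∀ u v, ∀ x ∈ u.A K ⊔ v.A K, D u v x ∈ u.A K ⊔ v.A K) →
    (∀ u v w, D u v + D v w = D u w) →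
    ∃ E : Chart C → Derivation k K K, (∀ u, ∀ x ∈ u.A K, E u x ∈ u.A K) ∧ ∀ u v, D u v = E v - E u

/-- MODULE `E/ExtDer` (100 lines). Extension of derivations to a finite extension. `K ⊆ L` finite over `F` (characteristic 0). PROOF: `L/K` is finite separable; existence and uniqueness of the extension of a derivation (`Algebra.FormallyEtale` or
primitive element); trace: `D' (∑ ...)`: for `x ∈ K`, `y ∈ L`: `Tr(D' y) = D(Tr y)` is not needed; only `(1/d) Tr ∘ θ` restricted to `K` is a derivation of `K`, because `Tr` is `K`-linear. `Tr` maps `ic L S` to `ic K S` (`Algebra.isIntegral_trace`). -/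
def ExtDerStmt : Prop := ∀ (k : Type) [Field k] [CharZero k] (K L : Type) [Field K] [Field L] [Algebra (F k) K] [Algebra (F k) L]
  [Algebra K L] [IsScalarTower (F k) K L] [Algebra k K] [Algebra k L] [IsScalarTower k (F k) K] [IsScalarTower k (F k) L]
  [FiniteDimensional (F k) L],
  (∀ D : Derivation k K K, ∃ D' : Derivation k L L, ∀ x : K, D' (algebraMap K L x) = algebraMap K L (D x)) ∧
  (∀ D D' : Derivation k L L, (∀ x : K, D (algebraMap K L x) = D' (algebraMap K L x)) → D = D') ∧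
  (∀ (S : Subalgebra k (F k)) (x : K), algebraMap K L x ∈ ic L S ↔ x ∈ ic K S) ∧
  ∃ T : Derivation k L L → Derivation k K K,
    (∀ D D', T (D - D') = T D - T D') ∧
    (∀ (D : Derivation k K K) (D' : Derivation k L L), (∀ x : K, D' (algebraMap K L x) = algebraMap K L (D x)) → T D' = D) ∧
    (∀ (S : Subalgebra k (F k)) (D' : Derivation k L L) (x : K), D' (algebraMap K L x) ∈ ic L S → T D' x ∈ ic K S)

/-- MODULE `E/ExtL` (100 lines). `Ext` passes to the extension. USES `ExtDerStmt`. PROOF: extend `Δ` and `E`; `RegAt`: quotients of forms lie in `F ⊆ K`; a root `z ∈ L` of `ℓ_i/ℓ_j` is a root of unity in `k` (`k` algebraically closed) times a root in `K`, so it lies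
in `K`; algebraic elements of `K` over `PF P` are algebraic in `L`. -/
def ExtLStmt : Prop := ∀ (k : Type) [Field k] [CharZero k] [IsAlgClosed k] (r n : ℕ) (C : Config k r) (K L : Type) [Field K] [Field L] [Algebra (F k) K] [Algebra (F k) L]
  [Algebra K L] [IsScalarTower (F k) K L] [Algebra k K] [Algebra k L] [IsScalarTower k (F k) K] [IsScalarTower k (F k) L]
  [FiniteDimensional (F k) L] (P : Pt k) (D : Chart C → Chart C → Derivation k K K) (D' : Chart C → Chart C → Derivation k L L),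
  0 < n → Roots K C n → (∀ u v (x : K), D' u v (algebraMap K L x) = algebraMap K L (D u v x)) → Ext n P D → Ext n P D'

/-- MODULE `E/EtStep` (100 lines). The etale step. PROOF: let `B ⊆ A` be the two rings, `A` formally etale over `B`, `E` a derivation of `K` with `E(B) ⊆ A`. The two `B`-algebra... precisely: `B → A[ε]`, `b ↦ b + ε E(b)` is a ring map lifting
`B → A`; formal etaleness gives a ring map `A → A[ε]` over it lifting the identity, i.e. a derivation `E' : A → A` with `E' = E` on `B` (or use that `A`-valued derivations of `B` extend uniquely to `A`: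
`KaehlerDifferential` of a formally etale extension). `A` is algebraic and separable over `B` (fraction fields, characteristic 0): `E' = E` on `A`. So `E(A) ⊆ A`. -/
def EtStepStmt : Prop := ∀ (K : Type) [Field K] [CharZero K] (B A : Subring K) (h : B ≤ A), RingHom.Etale (Subring.inclusion h) →
  ∀ E : Derivation ℤ K K, (∀ x ∈ B, E x ∈ A) → (∀ x ∈ A, IsIntegral B x) → ∀ x ∈ A, E x ∈ A

/-- MODULE `E/Et` (150 lines). USES `ExtDerStmt`, `ExtLStmt`, `EtStepStmt`, `MTStmt`. PROOF: let `L` be the normal closure of `K` over `F` (in an algebraic closure of `K`): finite Galois over `F`. Extend `D u v` to `D' u v ∈ Der(L)` (a cocycle by uniqueness), `Ext n P D'` (`ExtLStmt`),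
`MTStmt`: `D' u v = E' v - E' u`, `E' u` maps `ic L u.R ∩ Kummer L` to `ic L u.R`. `E u := T (E' u)`: `D u v = E v - E u`, `E u` maps `ic K u.R ∩ Kummer K` to `ic K u.R` (`Kummer K ⊆ Kummer L`). `EtStepStmt` with `B = u.A K ⊓ Kummer`, `A = u.A K`. -/
def EtStmt : Prop := ∀ (k : Type) [Field k] [CharZero k] [IsAlgClosed k] (r n : ℕ) (C : Config k r) (K : Type)
  [Field K] [Algebra (F k) K] [Algebra k K] [IsScalarTower k (F k) K],
  C.InfRigid → 6 ≤ r → r ≤ n + 1 → IsEtaleCover C n K →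
  ∀ D : Chart C → Chart C → Derivation k K K, IsCocycle D → (∀ P ∈ C.M, Ext n P D) →
  ∃ E : Chart C → Derivation k K K, (∀ u, ∀ x ∈ u.A K, E u x ∈ u.A K) ∧ ∀ u v, D u v = E v - E u

/-- PART S (helper12, helper10): every pencil extends. -/
def PartSStmt : Prop := ∀ (k : Type) [Field k] [CharZero k] [IsAlgClosed k] (r n : ℕ) (C : Config k r) (K : Type)
  [Field K] [Algebra (F k) K] [Algebra k K] [IsScalarTower k (F k) K], 4 ≤ n → IsEtaleCover C n K →
  ∀ D : Chart C → Chart C → Derivation k K K, (∀ u v, ∀ x ∈ u.A K ⊔ v.A K, D u v x ∈ u.A K ⊔ v.A K) → IsCocycle D →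
  ∀ P ∈ C.M, Ext n P D

/-- The main theorem over an algebraically closed field of characteristic 0. -/
def MainStmt : Prop := ∀ (k : Type) [Field k] [CharZero k] [IsAlgClosed k] (r n : ℕ) (C : Config k r),
  C.InfRigid → 6 ≤ r → r ≤ n + 1 →
  ∀ (K : Type) [Field K] [Algebra (F k) K] [Algebra k K] [IsScalarTower k (F k) K], IsEtaleCover C n K → H1Vanishes C K

/-- MODULE `E/Main` (20 lines). USES `EtStmt`, `PartSStmt`. -/
def MainOfStmt : Prop := EtStmt → PartSStmt → MainStmt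

end Pool.Agent.Lib.MP_4318ff_ag
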