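import Pool.Agent.Lib.MP_4318ff_ag.Spec.A3

/-!
# MP_4318ff_ag: formal deformations, shared definitions (part N and folder X)

`K[[X]]` = `PowerSeries K`. A formal deformation of `Y` over `k[[X]]` is given by gluing the charts `A_u[[X]]` (an affine smooth
variety has only trivial deformations) by automorphisms over `k[[X]]` which are the identity modulo `X`.
-/

set_option autoImplicit false

namespace Pool.Agent.Lib.MP_4318ff_ag

/-- `σ` is an automorphism of `K[[X]]` over `k[[X]]` (that is, `σ X = X`) which is the identity modulo `X`. -/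
def IsDef {k K : Type} [Field k] [Field K] [Algebra k K] (σ : PowerSeries K ≃ₐ[k] PowerSeries K) : Prop :=
  σ PowerSeries.X = PowerSeries.X ∧ ∀ f, PowerSeries.constantCoeff (σ f) = PowerSeries.constantCoeff f

/-- `σ` maps power series with coefficients in `A` to power series with coefficients in `A`. -/
def Pre {k K : Type} [Field k] [Field K] [Algebra k K] (A : Set K) (σ : PowerSeries K ≃ₐ[k] PowerSeries K) : Prop :=
  ∀ f, (∀ m, PowerSeries.coeff m f ∈ A) → ∀ m, PowerSeries.coeff m (σ f) ∈ A

/-- A formal deformation of `Y` over `k[[X]]`: the charts are glued by the automorphisms `g u v`. -/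
structure IsDefCocycle {k : Type} [Field k] {r : ℕ} (C : Config k r) (K : Type) [Field K] [Algebra (F k) K] [Algebra k K]
    (g : Chart C → Chart C → (PowerSeries K ≃ₐ[k] PowerSeries K)) : Prop where
  isDef : ∀ u v, IsDef (g u v)
  pre : ∀ u v, Pre ((u.A K ⊔ v.A K : Subring K) : Set K) (g u v)
  coc : ∀ u v w, g u v * g v w = g u w

/-- Every formal deformation of `Y` over `k[[X]]` is trivial. -/
def FormallyRigid {k : Type} [Field k] {r : ℕ} (C : Config k r) (K : Type) [Field K] [Algebra (F k) K] [Algebra k K] : Prop :=
  ∀ g : Chart C → Chart C → (PowerSeries K ≃ₐ[k] PowerSeries K), IsDefCocycle C K g →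
    ∃ h : Chart C → (PowerSeries K ≃ₐ[k] PowerSeries K), (∀ u, IsDef (h u) ∧ Pre (u.A K : Set K) (h u)) ∧
      ∀ u v, g u v = (h u)⁻¹ * h v

/-- Etale rigidity of the Hirzebruch-Kummer covering `X` of `C` with exponent `n`: all connected finite etale coverings `Y` of `X`
(`X` itself included) are rigid. -/
def EtaleRigid {k : Type} [Field k] {r : ℕ} (C : Config k r) (n : ℕ) : Prop :=
  ∀ (K : Type) [Field K] [Algebra (F k) K] [Algebra k K] [IsScalarTower k (F k) K], IsEtaleCover C n K → FormallyRigid C K

end Pool.Agent.Lib.MP_4318ff_ag
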