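import Pool.Agent.Lib.MP_4318ff_ag.Spec.A4

/-!
# MP_4318ff_ag, part L: linearly rigid configurations (helper69)

Goal: `MTLStmt`: for a linearly rigid configuration every cocycle whose average over the Galois group is zero is a boundary.

`LinRigid` is implied by infinitesimal rigidity and by rigidity (every arc of configurations over `k[[t]]` is trivial).
RULES. Module X: file Pool/Agent/Lib/MP_4318ff_ag/L/X.lean, first line `import Pool.Agent.Lib.MP_4318ff_ag.Spec.LR`,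
namespace `Pool.Agent.Lib.MP_4318ff_ag`, private lemmas with names starting with X_, final theorem
`theorem tX (h1 : AStmt) ... : XStmt`; the statements listed under USES are hypotheses of your theorem, in this order (you may use
fewer, keep them in the type as `(_ : AStmt)`). All modules are independent. Never use congr!.
-/

set_option autoImplicit false

namespace Pool.Agent.Lib.MP_4318ff_ag

open scoped LinearAlgebra.Projectivization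

/-- Linear rigidity: every family `ℓ i + ε β i` (`ε` a variable) which keeps the incidences at all points of multiplicity at
least `3`, with the point `P` moving to `P + ε w`, is trivial to first order. -/
def Config.LinRigid {k : Type} [Field k] {r : ℕ} (C : Config k r) : Prop :=
  ∀ β : Fin r → Fin 3 → k,
    (∀ P ∈ C.M, ∃ w : Fin 3 → k, ∀ i ∈ C.through P, β i ⬝ᵥ P.rep + C.ℓ i ⬝ᵥ w = 0 ∧ β i ⬝ᵥ w = 0) →
    ∃ (B : Matrix (Fin 3) (Fin 3) k) (s : Fin r → k), ∀ i, β i = Matrix.vecMul (C.ℓ i) B + s i • C.ℓ i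

/-- Module L/LinInf: infinitesimal rigidity implies linear rigidity. -/
def LinInfStmt : Prop := ∀ (k : Type) [Field k] (r : ℕ) (C : Config k r), C.InfRigid → C.LinRigid

/-- Module L/FouL (copy of `FouStmt`). Uses: Pnt, Bas. -/
def FouLStmt : Prop := ∀ (k : Type) [Field k] (r : ℕ) (C : Config k r), C.LinRigid → ∀ Q : Pt k,
  4 ≤ (C.through Q).ncard → ∀ j ∈ C.through Q, ∃ R ∈ C.M, R ≠ Q ∧ j ∈ C.through R

/-- Module L/TwoL (copy of `TwoStmt`). Uses: Pnt, Bas, FouL, Epl. -/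
def TwoLStmt : Prop := ∀ (k : Type) [Field k] (r : ℕ) (C : Config k r), C.LinRigid → 6 ≤ r → ∀ i : Fin r,
  ∃ P ∈ C.M, ∃ Q ∈ C.M, P ≠ Q ∧ i ∈ C.through P ∧ i ∈ C.through Q

/-- Module L/SpnL (copy of `SpnStmt`). Uses: Pnt, Bas, TwoL. -/
def SpnLStmt : Prop := ∀ (k : Type) [Field k] (r : ℕ) (C : Config k r), C.LinRigid → 6 ≤ r →
  (∀ (P₀ : Pt k) (c : Fin 3 → k), c ≠ 0 → ∃ P ∈ C.M, P ≠ P₀ ∧ c ⬝ᵥ P.rep ≠ 0) ∧
  (∀ P₀ : Pt k, Submodule.span k {x : Fin 3 → k | ∃ P ∈ C.M, P ≠ P₀ ∧ x = P.rep} = ⊤)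

/-- Module L/FmkL (copy of `FmkStmt`; the moving point is `w' = (φ ⬝ᵥ w) • P.rep - (φ ⬝ᵥ P.rep) • w`). Uses: Pnt, Bas, TwoL, Avd. -/
def FmkLStmt : Prop := ∀ (k : Type) [Field k] [Infinite k] (r : ℕ) (C : Config k r), C.LinRigid → 6 ≤ r →
  ∀ (P₀ : Pt k) (t : Fin r → k),
    (∀ P ∈ C.M, P ≠ P₀ → ∃ w : Fin 3 → k, ∀ i ∈ C.through P, t i = C.ℓ i ⬝ᵥ w) →
    ∃ v : Fin 3 → k, ∀ i, t i = C.ℓ i ⬝ᵥ v

/-- Module L/LA3L (copy of `LA3Stmt`). Uses: Dua, Exl, FmkL. -/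
def LA3LStmt : Prop := ∀ (k : Type) [Field k] [Infinite k] (r : ℕ) (C : Config k r), C.LinRigid → 6 ≤ r →
  ∀ (P₀ : Pt k) (E : Type) [AddCommGroup E] [Module k E] (t : Fin r → E),
    (∀ P ∈ C.M, P ≠ P₀ → ∃ w : Fin 3 → E, ∀ i ∈ C.through P, t i = dotE (C.ℓ i) w) →
    ∃ v : Fin 3 → E, ∀ i, t i = dotE (C.ℓ i) v

/-- Module L/CorB (first part of the proof of `CorStmt`, no rigidity). Uses: Dua. -/
def CorBStmt : Prop := ∀ (k : Type) [Field k] (r : ℕ) (C : Config k r) (P₀ : Pt k) (S : Finset (Pt k))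
  (x : Pt k → Fin r → Fin 3 → k),
    (∀ ρ : Pt k → Fin r → k, (∀ P, P ∉ S → ρ P = 0) → (∀ P ∈ S, C.IsRel P (ρ P)) → (∀ i, ∑ P ∈ S, ρ P i = 0) →
      ∀ y : Fin 3 → k, ∑ P ∈ S, ∑ i, ρ P i * (x P i ⬝ᵥ y) = 0) →
    (P₀ ∉ S → ∀ ρ : Pt k → Fin r → k, (∀ P, P ∉ S → ρ P = 0) → (∀ P ∈ S, C.IsRel P (ρ P)) →
      (∀ i, i ∉ C.through P₀ → ∑ P ∈ S, ρ P i = 0) → ∑ P ∈ S, ∑ i, ρ P i * (x P i ⬝ᵥ P₀.rep) = 0) →
    ∃ (V : Pt k → Matrix (Fin 3) (Fin 3) k) (β : Fin r → Fin 3 → k),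
      (∀ P ∈ S, ∀ i ∈ C.through P, x P i = Matrix.vecMul (C.ℓ i) (V P) + β i) ∧
      (P₀ ∉ S → ∀ i ∈ C.through P₀, β i ⬝ᵥ P₀.rep = 0)

/-- Module L/ResK (theorem tResK, 150 lines; THE NEW LEMMA: polar parts along the line `i₁` have no residue). Uses: Eig, SpnL, FmkL, CorB.
Proof. Put `t P i = e P` if `i = i₁`, else `0`, and `x P i = t P i • ℓ i`. As in the module LA/L4k (copy its private lemmas; SpnL in
the place of Spn; the hypothesis is the one of L4k because only the term `i = i₁` of the inner sum is not 0) there is a point `P₁` (`P₁ = P₀` if `P₀ ∈ C.M`, otherwise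
a point of `S`) with the hypotheses (H), (H0) of CorB for `P₁`. CorB: `V, β` with `t P i ℓ_i = ℓ_i V_P + β_i` for `P ∈ S`, `i` through `P`, and `β_i(P₁) = 0`
for `i` through `P₁` if `P₁ ∉ S`.
(1) Let `y` be a vector with `ℓ_(i₁) ⬝ᵥ y = 0`. For all `P ∈ S` and `i` through `P`: `β_i ⬝ᵥ y = t P i (ℓ_i ⬝ᵥ y) - ℓ_i ⬝ᵥ (V_P y) = ℓ_i ⬝ᵥ (-(V_P y))` (the first term is 0 for `i = i₁` because
`ℓ_(i₁) ⬝ᵥ y = 0` and for `i ≠ i₁` because `t P i = 0`). FmkL (with the point `P₁`) gives `v_y` with `β_i ⬝ᵥ y = ℓ_i ⬝ᵥ v_y` for ALL `i`.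
(2) Choose `y₀` with `ℓ_(i₁) ⬝ᵥ y₀ = 1` (`ℓ_(i₁) ≠ 0`), for the unit vector `e_a` put `y_a = e_a - ℓ_(i₁)(e_a) y₀`, so `ℓ_(i₁) ⬝ᵥ y_a = 0`; `B` = the matrix with the columns `v_(y_a)`, `τ_i = β_i ⬝ᵥ y₀`. Then
`(β_i - ℓ_i B)_a = β_i ⬝ᵥ e_a - β_i ⬝ᵥ y_a = ℓ_(i₁)(e_a) τ_i`, that is `β_i = ℓ_i B + τ_i ℓ_(i₁)` for all `i`.
(3) `β' i = τ_i ℓ_(i₁)` for `i ≠ i₁`, `β' i₁ = 0` satisfies the hypothesis of LinRigid at every `P ∈ C.M`: if `i₁` passes through `P` take `w = 0`. Otherwise all `i` through `P` are `≠ i₁`, and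
`-(ℓ_i V) P = τ_i ℓ_(i₁)(P) + (ℓ_i B)(P)` for `i` through `P`, where `V = V_P` if `P ∈ S` (because `0 = t P i ℓ_i = ℓ_i V_P + ℓ_i B + τ_i ℓ_(i₁)`) and `V = 0` if `P = P₁ ∉ S` (`β_i(P₁) = 0`). With
`w₀ = -((V + B) P)/ℓ_(i₁)(P)`: `τ_i = ℓ_i ⬝ᵥ w₀`. Take `w = ℓ_(i₁)(w₀) P - ℓ_(i₁)(P) w₀`: `β' i ⬝ᵥ P + ℓ_i ⬝ᵥ w = τ_i ℓ_(i₁)(P) - ℓ_(i₁)(P) ℓ_i(w₀) = 0` and `β' i ⬝ᵥ w = τ_i (ℓ_(i₁)(w₀) ℓ_(i₁)(P) - ℓ_(i₁)(P) ℓ_(i₁)(w₀)) = 0`.
(4) LinRigid: `B', s'` with `β' i = ℓ_i B' + s'_i ℓ_i` for all `i`. So for `P ∈ S`, `i` through `P`: `ℓ_i (V_P + B + B') = (t P i - s''_i) ℓ_i` with `s''_i = s'_i` for `i ≠ i₁` and `s''_(i₁) = s'_(i₁) + τ_(i₁)`. Eig: `t P i - s''_i` does not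
depend on `i` through `P`; call it `a P`. So `t P i = s''_i + a P` and `∑_(P ∈ S) q P i₁ e P = ∑_(P ∈ S) ∑_i q P i t P i = ∑_i s''_i ∑_P q P i + ∑_P a P ∑_i q P i = 0`. -/
def ResKStmt : Prop := ∀ (k : Type) [Field k] [Infinite k] (r : ℕ) (C : Config k r), C.LinRigid → 6 ≤ r →
  ∀ (P₀ : Pt k) (S : Finset (Pt k)), (∀ P ∈ S, P ∈ C.M) → (∀ P ∈ C.M, P ≠ P₀ → P ∈ S) →
  ∀ (i₁ : Fin r) (e : Pt k → k),
    (∀ T ∈ C.M, ∀ ρ : Pt k → Fin r → k, (∀ P, P ∉ S → ρ P = 0) → (∀ P ∈ S, C.IsRel P (ρ P)) →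
      (∀ i, i ∉ C.through T → ∑ P ∈ S, ρ P i = 0) →
      ∑ P ∈ S, (ρ P i₁ * (C.ℓ i₁ ⬝ᵥ T.rep)) * e P = 0) →
    ∀ q : Pt k → Fin r → k, (∀ P ∈ S, ∀ i, i ∉ C.through P → q P i = 0) → (∀ P ∈ S, ∑ i, q P i = 0) →
      (∀ i, ∑ P ∈ S, q P i = 0) → ∑ P ∈ S, q P i₁ * e P = 0

/-- Module L/ResE (theorem tResE, 40 lines; `ResK` with values in a vector space). Uses: ResK.
Proof. For every linear functional `f : E → k` the numbers `f (e P)` satisfy the hypothesis of ResK, so `f (∑ q P i₁ • e P) = 0`; a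
vector killed by all functionals is 0 (`Module.forall_dual_apply_eq_zero_iff`). -/
def ResEStmt : Prop := ∀ (k : Type) [Field k] [Infinite k] (r : ℕ) (C : Config k r), C.LinRigid → 6 ≤ r →
  ∀ (P₀ : Pt k) (S : Finset (Pt k)), (∀ P ∈ S, P ∈ C.M) → (∀ P ∈ C.M, P ≠ P₀ → P ∈ S) →
  ∀ (E : Type) [AddCommGroup E] [Module k E] (i₁ : Fin r) (e : Pt k → E),
    (∀ T ∈ C.M, ∀ ρ : Pt k → Fin r → k, (∀ P, P ∉ S → ρ P = 0) → (∀ P ∈ S, C.IsRel P (ρ P)) →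
      (∀ i, i ∉ C.through T → ∑ P ∈ S, ρ P i = 0) →
      ∑ P ∈ S, (ρ P i₁ * (C.ℓ i₁ ⬝ᵥ T.rep)) • e P = 0) →
    ∀ q : Pt k → Fin r → k, (∀ P ∈ S, ∀ i, i ∉ C.through P → q P i = 0) → (∀ P ∈ S, ∑ i, q P i = 0) →
      (∀ i, ∑ P ∈ S, q P i = 0) → ∑ P ∈ S, q P i₁ • e P = 0

/-- Module L/Inc (theorem tInc, 100 lines; duality for the incidence graph). Uses: Exl.
Proof. `X = {x : S × Fin r // x.2 ∈ through x.1}` (`S` as a type), `Y = Fin r ⊕ S`, `N x (inl i) = 1` if `x.2 = i` else 0, `N x (inr P) = 1` if `x.1 = P` else 0, `𝒜` = all `α : X → k` with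
`∑_(x, x.2 = i) α x = 0` for all `i` and `∑_(x, x.1 = P) α x = 0` for all `P` (such an `α`, extended by 0, is a `q` as in the statement). Exl reduces the claim to `E = k`, where it says that a functional on `X → k`
which vanishes on the common kernel of finitely many functionals is a combination of them (`mem_span_of_iInf_ker_le_ker`, see the module LA/Dua). -/
def IncStmt : Prop := ∀ (k : Type) [Field k] (r : ℕ) (C : Config k r) (S : Finset (Pt k)) (E : Type) [AddCommGroup E]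
  [Module k E] (t : Pt k → Fin r → E),
  (∀ q : Pt k → Fin r → k, (∀ P, P ∉ S → q P = 0) → (∀ P ∈ S, ∀ i, i ∉ C.through P → q P i = 0) →
      (∀ P ∈ S, ∑ i, q P i = 0) → (∀ i, ∑ P ∈ S, q P i = 0) → ∑ P ∈ S, ∑ i, q P i • t P i = 0) →
  ∃ (s : Fin r → E) (a : Pt k → E), ∀ P ∈ S, ∀ i ∈ C.through P, t P i = s i + a P

/-- Module L/ConstK (theorem tConstK, 60 lines). Uses: Unif, Curve, Const. Proof: the coefficients of the minimal polynomial of `y` over `F` lie in every `O` (`O` is integrally closed in `F`,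
see the module A/HartK), so they are constants by `ConstStmt`; `y` is integral over the algebraically closed field `k`, so `y ∈ k`. -/
def ConstKStmt : Prop := ∀ (k : Type) [Field k] [CharZero k] [IsAlgClosed k] (K : Type) [Field K] [Algebra (F k) K]
  [Algebra k K] [IsScalarTower k (F k) K] [FiniteDimensional (F k) K] (y : K),
  (∀ O : Subalgebra k (F k), IsCurve O → y ∈ ic K O) → ∃ c : k, y = algebraMap k K c

/-- Module L/Greg (theorem tGreg, 200 lines; the global functions `g_q` are regular at all curves). Uses: Ev, Unif, Curve, ChartEx, Tau, Glob, Van, Bas, ResE.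
Notation `t^u P i = Δ P u (ℓ_i)/ℓ_i`. Proof. By `GlobStmt` (with `D₀ = D u v`) the sum is the same for all charts, so we may assume `u.R ≤ O` (`ChartExStmt`). All `τ = t P i - t P j` with `i, j` through `P` and `ℓ_i/ℓ_j, ℓ_j/ℓ_i ∈ O` are in `ic K O` (`TauStmt`).
If all `ℓ_i` are unit forms at `O` choose `j_P` through `P` for every `P ∈ S`: the sum is `∑_P ∑_i q P i (t P i - t P j_P)` because `∑_i q P i = 0` (`q P i = 0` if `i` is not through `P`). Otherwise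
`ℓ_(i₁)` is not a unit form at `O` and all other `ℓ_i` are unit forms (`CurveStmt`, `C.indep`). Choose `j_P ≠ i₁` through `P` (`BasStmt`). Let `E = K ⧸ ic K O` (quotient of `k`-vector spaces, `ic K O` as a `k`-subspace; e.g.
`Submodule` with carrier `ic K O`), `e P` = the class of `t P i₁ - t P j_P`. Hypothesis of `ResEStmt`: `VanStmt` (for the chart `u`; at most `r - 3` lines do not pass through `T`, so the number condition holds because `r ≤ n + 1`; see the module A/Vec) gives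
`∑_P ∑_i (ρ P i ℓ_i(T)) t P i = 0`, and `∑_i ρ P i ℓ_i(T) = 0` allows to replace `t P i` by `t P i - t P j_P`, whose class is 0 for `i ≠ i₁` through `P`. So `∑_P q P i₁ • e P = 0`, and `∑_P ∑_i q P i (t P i - t P j_P)` is in `ic K O`. -/
def GregStmt : Prop := ∀ (k : Type) [Field k] [CharZero k] [IsAlgClosed k] (r n : ℕ) (C : Config k r) (K : Type)
  [Field K] [Algebra (F k) K] [Algebra k K] [IsScalarTower k (F k) K] [FiniteDimensional (F k) K],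
  C.LinRigid → 6 ≤ r → r ≤ n + 1 → Roots K C n →
  ∀ (P₀ : Pt k) (S : Finset (Pt k)), (∀ P ∈ S, P ∈ C.M) → (∀ P ∈ C.M, P ≠ P₀ → P ∈ S) →
  ∀ (D : Chart C → Chart C → Derivation k K K) (Δ : Pt k → Chart C → Derivation k K K),
  (∀ P ∈ S, ∀ u O, IsDiv C O → u.R ≤ O → RegAt C n P O (Δ P u)) →
  (∀ P ∈ S, ∀ u v, EqOn P (D u v) (Δ P v - Δ P u)) →
  ∀ q : Pt k → Fin r → k, (∀ P ∈ S, ∀ i, i ∉ C.through P → q P i = 0) → (∀ P ∈ S, ∑ i, q P i = 0) →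
    (∀ i, ∑ P ∈ S, q P i = 0) → ∀ (u : Chart C) (O : Subalgebra k (F k)), IsCurve O →
    ∑ P ∈ S, ∑ i, algebraMap k K (q P i) *
      (Δ P u (algebraMap (F k) K (ev (C.ℓ i))) / algebraMap (F k) K (ev (C.ℓ i))) ∈ ic K O

/-- Module L/InvZ (theorem tInvZ, 120 lines; an invariant vector field along the pencil, regular everywhere, is zero). Uses: Ev, Unif, Curve, ChartEx, Desc, Const, Bas.
Proof. `DescStmt`, (1): `Δ u` restricts to a derivation `δ u` of `F` with `RegF C P O (δ u)` for `IsDiv C O`, `u.R ≤ O`. `EqOn` and the injectivity of `F → K`: `δ u (ℓ_i/ℓ_j) = δ v (ℓ_i/ℓ_j)` for all charts. So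
`τ_(ij) = δ u (ℓ_i/ℓ_j)/(ℓ_i/ℓ_j)` does not depend on `u` and lies in every curve `O` (take a chart `v` with `v.R ≤ O`; `ℓ_i/ℓ_j` or `ℓ_j/ℓ_i` is in `O`, and `τ_(ji) = -τ_(ij)`; second item of `RegF`), so `τ_(ij) = c_(ij) ∈ k` (`ConstStmt`). Let `i ≠ j` pass through `P` and let `m` be a third line through `P`
(`BasStmt`): `ℓ_m = x ℓ_i + y ℓ_j`, `x, y ≠ 0`. With `λ = ℓ_i/ℓ_j`: `δ(x λ + y) = x c_(ij) λ = c_(mj) (x λ + y)`; `λ` is not a constant (`ℓ_i, ℓ_j` independent, `EvStmt`), so `c_(mj) y = 0`, `c_(mj) = 0`, `c_(ij) = 0`. So `Δ u (ℓ_i/ℓ_j) = 0`, which is the claim (quotient rule). -/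
def InvZStmt : Prop := ∀ (k : Type) [Field k] [CharZero k] [IsAlgClosed k] (r n : ℕ) (C : Config k r) (K : Type)
  [Field K] [Algebra (F k) K] [Algebra k K] [IsScalarTower k (F k) K] [FiniteDimensional (F k) K] [IsGalois (F k) K],
  2 ≤ n → Roots K C n → ∀ P ∈ C.M, ∀ Δ : Chart C → Derivation k K K,
  (∀ u O, IsDiv C O → u.R ≤ O → RegAt C n P O (Δ u)) → (∀ u v, EqOn P (Δ v) (Δ u)) →
  (∀ (g : K ≃ₐ[F k] K) (u : Chart C), conjD g (Δ u) = Δ u) →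
  ∀ u : Chart C, ∀ i ∈ C.through P, ∀ j ∈ C.through P,
    Δ u (algebraMap (F k) K (ev (C.ℓ i))) / algebraMap (F k) K (ev (C.ℓ i)) =
    Δ u (algebraMap (F k) K (ev (C.ℓ j))) / algebraMap (F k) K (ev (C.ℓ j))

/-- Module L/Gzero (theorem tGzero, 120 lines). Uses: Avg, RegMod, Greg, ConstK, InvZ. Proof. `g = ∑ q P i t P i ∈ K` is a constant `c ∈ k` (`GregStmt`, `ConstKStmt`). Let `Δ' P u = avgD ⊤ (Δ P u)`: regular (`RegModStmt` and `AvgStmt`),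
invariant (`AvgStmt`), and `EqOn P (Δ' P v) (Δ' P u)`, because `avgD ⊤ (D u v) = 0` and averages of derivations which agree along the pencil agree along the pencil. By `InvZStmt` (for `P ∈ S`) `Δ' P u (ℓ_i)/ℓ_i` is the same for all `i` through `P`. Now
`Δ' P u (ℓ_i)/ℓ_i = (1/|G|) ∑_g g(t P i)` (`conjD g Δ (φ f) = g (Δ (φ f))` for `f ∈ F`), so `c = (1/|G|) ∑_g g(c) = ∑_P ∑_i q P i (Δ' P u (ℓ_i)/ℓ_i) = 0` because `∑_i q P i = 0` and `q P i = 0` for `i` not through `P`. -/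
def GzeroStmt : Prop := ∀ (k : Type) [Field k] [CharZero k] [IsAlgClosed k] (r n : ℕ) (C : Config k r) (K : Type)
  [Field K] [Algebra (F k) K] [Algebra k K] [IsScalarTower k (F k) K] [FiniteDimensional (F k) K] [IsGalois (F k) K],
  C.LinRigid → 6 ≤ r → r ≤ n + 1 → Roots K C n →
  ∀ (P₀ : Pt k) (S : Finset (Pt k)), (∀ P ∈ S, P ∈ C.M) → (∀ P ∈ C.M, P ≠ P₀ → P ∈ S) →
  ∀ (D : Chart C → Chart C → Derivation k K K) (Δ : Pt k → Chart C → Derivation k K K),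
  (∀ P ∈ S, ∀ u O, IsDiv C O → u.R ≤ O → RegAt C n P O (Δ P u)) →
  (∀ P ∈ S, ∀ u v, EqOn P (D u v) (Δ P v - Δ P u)) → (∀ u v, avgD ⊤ (D u v) = 0) →
  ∀ q : Pt k → Fin r → k, (∀ P ∈ S, ∀ i, i ∉ C.through P → q P i = 0) → (∀ P ∈ S, ∑ i, q P i = 0) →
    (∀ i, ∑ P ∈ S, q P i = 0) → ∀ u : Chart C,
    ∑ P ∈ S, ∑ i, algebraMap k K (q P i) *
      (Δ P u (algebraMap (F k) K (ev (C.ℓ i))) / algebraMap (F k) K (ev (C.ℓ i))) = 0

/-- Module L/VecL (theorem tVecL, 100 lines; compare the module A/Vec, most of it can be copied). Uses: Ev, Gzero, Inc, LA3L, DerV, Pen. Proof: fix `u`; `t P i = Δ P u (ℓ_i)/ℓ_i`, `w P j = Δ P u (gen j)`, so `t P i ev(ℓ_i) = dotE (ℓ_i) (w P)`. `GzeroStmt` and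
`IncStmt` (with `E = K`): `t P i = s i + a P`. So `s i ev(ℓ_i) = dotE (ℓ_i) (w P - a P gen)` for `P ∈ S`, `i` through `P`; LA3L for the family `s i ev(ℓ_i)`: `v` with `dotE (ℓ_i) v = s i ev(ℓ_i)`. `DerVStmt` for `v`, `PenStmt` as in A/Vec. -/
def VecLStmt : Prop := ∀ (k : Type) [Field k] [CharZero k] [IsAlgClosed k] (r n : ℕ) (C : Config k r) (K : Type)
  [Field K] [Algebra (F k) K] [Algebra k K] [IsScalarTower k (F k) K] [FiniteDimensional (F k) K] [IsGalois (F k) K],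
  C.LinRigid → 6 ≤ r → r ≤ n + 1 → Roots K C n →
  ∀ (P₀ : Pt k) (S : Finset (Pt k)), (∀ P ∈ S, P ∈ C.M) → (∀ P ∈ C.M, P ≠ P₀ → P ∈ S) →
  ∀ (D : Chart C → Chart C → Derivation k K K) (Δ : Pt k → Chart C → Derivation k K K),
  (∀ P ∈ S, ∀ u O, IsDiv C O → u.R ≤ O → RegAt C n P O (Δ P u)) →
  (∀ P ∈ S, ∀ u v, EqOn P (D u v) (Δ P v - Δ P u)) → (∀ u v, avgD ⊤ (D u v) = 0) →
  ∃ E : Chart C → Derivation k K K, ∀ u, ∀ P ∈ S, EqOn P (E u) (Δ P u)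

/-- Module L/CoreL (theorem tCoreL; compare the module A/Core, copy it with `LinRigid`, `TwoLStmt`, `SpnLStmt`, `VecLStmt`). Uses: MFin, VecL, HartK, DerUniq, RegEq, RegMod, RegCurve, RegExc, Inv, Avg, TwoL, SpnL, Bas, Exc. -/
def CoreLStmt : Prop := ∀ (k : Type) [Field k] [CharZero k] [IsAlgClosed k] (r n : ℕ) (C : Config k r) (K : Type)
  [Field K] [Algebra (F k) K] [Algebra k K] [IsScalarTower k (F k) K] [FiniteDimensional (F k) K] [IsGalois (F k) K],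
  C.LinRigid → 6 ≤ r → r ≤ n + 1 → Roots K C n →
  ∀ (D : Chart C → Chart C → Derivation k K K) (P₀ : Pt k),
  (∀ P ∈ C.M, P ≠ P₀ → ExtOne n P D) →
  (ExtOne n P₀ D ∨ ∀ g ∈ NP K P₀, ∀ u v, conjD g (D u v) = D u v) →
  (∀ u v, avgD ⊤ (D u v) = 0) →
  IsBdry n D

/-- Module L/MTL (theorem tMTL, 120 lines; compare the module B/MT2). Uses: MFin, Avg, NPnormal, Disj, CoreL, RegMod, TwoL. Proof. `e_P` = average over `NP K P`, `e` = average over `⊤`, `e D = 0`. `D = D⁰ + ∑_(P ∈ C.M) e_P D`, `D⁰ = D - ∑_P e_P D`. `e_Q e_P = e` for `P ≠ Q` (`DisjStmt`, `AvgStmt`), `e_P e_P = e_P`,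
so `e_Q D⁰ = 0` for `Q ∈ C.M` and `e_Q (e_P D) = 0` for `Q ≠ P`; `e e_P D = e D = 0`, so `e D⁰ = 0`. All summands are cocycles satisfying `Pres n` (`RegModStmt`). (A) `D⁰`: `ExtOne n Q` for all `Q ∈ C.M` (`S1Stmt`), `CoreLStmt` with any `P₀ ∈ C.M`. (B) `e_P D`: `ExtOne n Q` for `Q ≠ P` (`S1Stmt`),
invariant under `NP K P`; `CoreLStmt` with `P₀ = P`. A sum of boundaries is a boundary (`RegModStmt`). -/
def MTLStmt : Prop := ∀ (k : Type) [Field k] [CharZero k] [IsAlgClosed k], S1Stmt k → ∀ (r n : ℕ) (C : Config k r) (K : Type)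
  [Field K] [Algebra (F k) K] [Algebra k K] [IsScalarTower k (F k) K] [FiniteDimensional (F k) K] [IsGalois (F k) K],
  C.LinRigid → 6 ≤ r → r ≤ n + 1 → Roots K C n →
  ∀ D : Chart C → Chart C → Derivation k K K, IsCocycle D → Pres n D → (∀ u v, avgD ⊤ (D u v) = 0) → IsBdry n D

end Pool.Agent.Lib.MP_4318ff_ag
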