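import Pool.Agent.Lib.MP_4318ff_ag.Spec.W1
import Pool.Agent.Lib.MP_4318ff_ag.Spec.Form
import Pool.Agent.Lib.MP_4318ff_ag.L.ArcLin

/-!
# MP_4318ff_ag, part N: formal deformations (helper69, plan of helper78 and helper69)

Goal: `NFinalStmt`: for a rigid configuration `C` (`ArcRigid`) every formal deformation over `k[[X]]` of every etale covering of the
Hirzebruch-Kummer covering is trivial.

RULES. Module X: file Pool/Agent/Lib/MP_4318ff_ag/N/X.lean, first line `import Pool.Agent.Lib.MP_4318ff_ag.Spec.N`,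
namespace `Pool.Agent.Lib.MP_4318ff_ag`, `open PowerSeries` if you like, private lemmas with names starting with X_, final theorem
`theorem tX (h1 : AStmt) ... : XStmt`; the statements listed under USES are hypotheses of your theorem, in this order (you may use
fewer, keep them in the type as `(_ : AStmt)`). All modules are independent. Never use congr!.

Notation in the docstrings: `φ = algebraMap (F k) K`; `f_m = coeff m f`; `C a` = constant power series; `σ ≡ τ mod X^m`: the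
coefficients with index `< m` of `σ f`, `τ f` agree for all `f`. `B[[X]]` = the power series with coefficients in `B`.
-/

set_option autoImplicit false

namespace Pool.Agent.Lib.MP_4318ff_ag

open scoped LinearAlgebra.Projectivization

/-! ### Automorphisms of `K[[X]]` -/

/-- `σ` is the identity modulo `X ^ m`. -/
def Cong {k K : Type} [Field k] [Field K] [Algebra k K] (m : ℕ) (σ : PowerSeries K ≃ₐ[k] PowerSeries K) : Prop :=
  ∀ (a : K) (j : ℕ), 0 < j → j < m → PowerSeries.coeff j (σ (PowerSeries.C a)) = 0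

/-- The coefficients with index `< m` of `σ f` lie in `F` for `f ∈ F`. -/
def RatBelow {k K : Type} [Field k] [Field K] [Algebra (F k) K] [Algebra k K] (m : ℕ)
    (σ : PowerSeries K ≃ₐ[k] PowerSeries K) : Prop :=
  ∀ (f : F k) (j : ℕ), j < m → PowerSeries.coeff j (σ (PowerSeries.C (algebraMap (F k) K f))) ∈ Set.range (algebraMap (F k) K)

/-- Module N/NGrp (120 lines). Uses: nothing. Proof. (1), (2), (3) direct. (4) let `f ∈ A[[X]]`, `h = σ⁻¹ f`; show `h_m ∈ A` by strong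
induction: `f - σ(∑_(j<m) C(h_j) X^j) = σ(X^m h') = X^m σ(h')`, the left side is in `A[[X]]` and its coefficient at `m` is `h'_0 = h_m`.
(5) `f = X^m h`, `σ f = X^m σ h`. (6) `f = ∑_(j<m) C(f_j) X^j + X^m h`, so `σ f ≡ τ f mod X^m` for all `m` (by (5)). (7) the same
decomposition with `m = N + 1`. (8) by (7). -/
def NGrpStmt : Prop := ∀ (k K : Type) [Field k] [Field K] [Algebra k K],
  (∀ σ τ : PowerSeries K ≃ₐ[k] PowerSeries K, IsDef σ → IsDef τ → IsDef (σ * τ)) ∧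
  (∀ σ : PowerSeries K ≃ₐ[k] PowerSeries K, IsDef σ → IsDef σ⁻¹) ∧
  (∀ (A : Set K) (σ τ : PowerSeries K ≃ₐ[k] PowerSeries K), Pre A σ → Pre A τ → Pre A (σ * τ)) ∧
  (∀ (A : Subring K) (σ : PowerSeries K ≃ₐ[k] PowerSeries K), IsDef σ → Pre (A : Set K) σ → Pre (A : Set K) σ⁻¹) ∧
  (∀ σ : PowerSeries K ≃ₐ[k] PowerSeries K, IsDef σ → ∀ (f : PowerSeries K) (m : ℕ),
    PowerSeries.X ^ m ∣ f → PowerSeries.X ^ m ∣ σ f) ∧
  (∀ σ τ : PowerSeries K ≃ₐ[k] PowerSeries K, IsDef σ → IsDef τ →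
    (∀ a : K, σ (PowerSeries.C a) = τ (PowerSeries.C a)) → σ = τ) ∧
  (∀ σ : PowerSeries K ≃ₐ[k] PowerSeries K, IsDef σ → ∀ (f : PowerSeries K) (N : ℕ), PowerSeries.coeff N (σ f) =
    ∑ p ∈ Finset.HasAntidiagonal.antidiagonal N, PowerSeries.coeff p.1 (σ (PowerSeries.C (PowerSeries.coeff p.2 f)))) ∧
  (∀ (A : Subring K) (σ : PowerSeries K ≃ₐ[k] PowerSeries K), IsDef σ →
    (∀ a ∈ A, ∀ m, PowerSeries.coeff m (σ (PowerSeries.C a)) ∈ A) → Pre (A : Set K) σ)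

/-- Module N/NExt (150 lines). Homomorphisms `K → K[[X]]` extend to automorphisms of `K[[X]]`. Uses: nothing. Proof. Define
`(σ f)_N = ∑_(i+j=N) (h(f_j))_i`. Ring homomorphism: for polynomials in `X` it is clear, and both sides of the multiplicativity depend only on finitely many coefficients (or a
direct computation with sums over triples). `σ X = X`. Injective: `f ≠ 0`, `f = X^m f'`, `f'_0 ≠ 0`: `σ f = X^m σ f'`, constant
coefficient of `σ f'` is `f'_0`. Surjective: solve `σ h = f` recursively: `h_N = f_N - ∑_(i+j=N, i>0) (h(h_j))_i`. -/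
def NExtStmt : Prop := ∀ (k K : Type) [Field k] [Field K] [Algebra k K] (h : K →ₐ[k] PowerSeries K),
  (∀ a, PowerSeries.constantCoeff (h a) = a) →
  ∃ σ : PowerSeries K ≃ₐ[k] PowerSeries K, IsDef σ ∧ ∀ a, σ (PowerSeries.C a) = h a

/-- Module N/NExp (150 lines). Exponentials. Uses: NGrp, NExt. Proof. `h a = ∑_i X^(mi) E^i(a)/i!` is a `k`-algebra homomorphism (`E^i(ab)/i! = ∑_(p+q=i) E^p(a)/p! E^q(b)/q!` by induction from
the Leibniz rule), NExt. -/
def NExpStmt : Prop := ∀ (k K : Type) [Field k] [CharZero k] [Field K] [Algebra k K] (E : Derivation k K K) (m : ℕ), 0 < m →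
  ∃ σ : PowerSeries K ≃ₐ[k] PowerSeries K, IsDef σ ∧
    (∀ (a : K) (N : ℕ), PowerSeries.coeff N (σ (PowerSeries.C a)) =
      if m ∣ N then ((N / m).factorial : k)⁻¹ • (E^[N / m]) a else 0) ∧
    Cong m σ ∧ (∀ a : K, PowerSeries.coeff m (σ (PowerSeries.C a)) = E a) ∧
    (∀ A : Subring K, (∀ (c : k), ∀ x ∈ A, c • x ∈ A) → (∀ x ∈ A, E x ∈ A) → Pre (A : Set K) σ)

/-- Module N/NLead (120 lines). Leading coefficients. Uses: NGrp. Proof. `σ(C a) = C a + X^m (...)`. (1) compare the coefficients at `m` of `σ(C a C b) = σ(C a) σ(C b)`; `k`-linear. For an arbitrary `f`: `σ f ≡ f mod X^m` and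
`(σ f)_m = f_m + D(f_0)` (NGrp (7)). Apply this to `f = σ⁻¹(C a)` for (2), (3), and to `f = τ(C a)` for (4), (5); (6), (7): `τ(σ(C a)) = τ(C a + C(D a) X^m + X^(m+1)(..)) = τ(C a) + X^m τ(C (D a)) + X^(m+1)(..)`. -/
def NLeadStmt : Prop := ∀ (k K : Type) [Field k] [Field K] [Algebra k K] (m : ℕ), 0 < m →
  ∀ σ : PowerSeries K ≃ₐ[k] PowerSeries K, IsDef σ → Cong m σ →
    (∃ D : Derivation k K K, ∀ a : K, PowerSeries.coeff m (σ (PowerSeries.C a)) = D a) ∧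
    Cong m σ⁻¹ ∧
    (∀ a : K, PowerSeries.coeff m (σ⁻¹ (PowerSeries.C a)) = - PowerSeries.coeff m (σ (PowerSeries.C a))) ∧
    (∀ (f : PowerSeries K) (j : ℕ), j < m → PowerSeries.coeff j (σ f) = PowerSeries.coeff j f) ∧
    (∀ τ : PowerSeries K ≃ₐ[k] PowerSeries K, IsDef τ → ∀ a : K, PowerSeries.coeff m (σ (τ (PowerSeries.C a))) =
      PowerSeries.coeff m (τ (PowerSeries.C a)) + PowerSeries.coeff m (σ (PowerSeries.C a))) ∧
    (∀ τ : PowerSeries K ≃ₐ[k] PowerSeries K, IsDef τ → ∀ a : K, PowerSeries.coeff m (τ (σ (PowerSeries.C a))) =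
      PowerSeries.coeff m (τ (PowerSeries.C a)) + PowerSeries.coeff m (σ (PowerSeries.C a))) ∧
    (∀ τ : PowerSeries K ≃ₐ[k] PowerSeries K, IsDef τ → ∀ (f : PowerSeries K) (j : ℕ), j < m →
      PowerSeries.coeff j (τ (σ f)) = PowerSeries.coeff j (τ f))

/-- Module N/NLim (120 lines). Limits. Uses: NGrp, NExt. Proof. `h a` = the power series with the coefficients `(σ_(j+1) (C a))_j`; it agrees with `σ_m (C a)` modulo `X^m` for all `m` (the sequence is stationary), so `h` is an algebra homomorphism. `τ` from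
NExt; `τ f ≡ σ_m f mod X^m` by NGrp (7). Inverse: `f = τ(τ⁻¹ f) ≡ σ_m(τ⁻¹ f) mod X^m`, apply `σ_m⁻¹` (NGrp (5)). -/
def NLimStmt : Prop := ∀ (k K : Type) [Field k] [Field K] [Algebra k K] (σ : ℕ → (PowerSeries K ≃ₐ[k] PowerSeries K)),
  (∀ m, IsDef (σ m)) →
  (∀ (m : ℕ) (a : K) (j : ℕ), j < m → PowerSeries.coeff j (σ (m + 1) (PowerSeries.C a)) =
    PowerSeries.coeff j (σ m (PowerSeries.C a))) →
  ∃ τ : PowerSeries K ≃ₐ[k] PowerSeries K, IsDef τ ∧
    (∀ (m : ℕ) (f : PowerSeries K) (j : ℕ), j < m → PowerSeries.coeff j (τ f) = PowerSeries.coeff j (σ m f)) ∧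
    (∀ (m : ℕ) (f : PowerSeries K) (j : ℕ), j < m → PowerSeries.coeff j (τ⁻¹ f) = PowerSeries.coeff j ((σ m)⁻¹ f)) ∧
    (∀ A : Set K, (∀ m, Pre A (σ m)) → Pre A τ)

/-- Module N/NRoot (100 lines). `n`-th roots of power series. Uses: nothing. Proof. Existence: recursion; the coefficient of `w^n` at `m` is `n w_m + ` a polynomial
with integral coefficients in `w_1, ..., w_(m-1)` (`w_0 = 1`), which lies in `A`; choose `w_m = (1/n)(f_m - ...)`. Formally: build `w^(m) ∈ A[[X]]` with `(w^(m))^n ≡ f mod X^m`, `w^(m+1) = w^(m) + C(c/n) X^m`. Uniqueness: `w^n = w'^n`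
gives `(w/w')^n = 1` and `(v - 1)(1 + v + ... + v^(n-1)) = 0` where the second factor has the constant coefficient `n ≠ 0`. -/
def NRootStmt : Prop := ∀ (k K : Type) [Field k] [CharZero k] [Field K] [Algebra k K] (n : ℕ), 0 < n →
  (∀ (A : Subring K), (∀ (c : k), ∀ x ∈ A, c • x ∈ A) → ∀ f : PowerSeries K, PowerSeries.constantCoeff f = 1 →
    (∀ m, PowerSeries.coeff m f ∈ A) →
    ∃ w : PowerSeries K, PowerSeries.constantCoeff w = 1 ∧ (∀ m, PowerSeries.coeff m w ∈ A) ∧ w ^ n = f) ∧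
  (∀ w w' : PowerSeries K, PowerSeries.constantCoeff w = 1 → PowerSeries.constantCoeff w' = 1 → w ^ n = w' ^ n → w = w')

/-- Module N/NUnit (60 lines). Quotients of power series with coefficients in a ring. Uses: nothing. Proof. The coefficients of `g = f / h`: `g_m h_0 = f_m - ∑_(j<m) g_j h_(m-j)`, strong induction. -/
def NUnitStmt : Prop := ∀ (K : Type) [Field K] (A : Subring K) (f g h : PowerSeries K),
  (PowerSeries.constantCoeff h)⁻¹ ∈ A → PowerSeries.constantCoeff h ≠ 0 → (∀ m, PowerSeries.coeff m h ∈ A) →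
  (∀ m, PowerSeries.coeff m f ∈ A) → g * h = f → ∀ m, PowerSeries.coeff m g ∈ A

/-! ### Step 1: every formal deformation is equivalent to one which preserves `F[[X]]` -/

/-- Module N/NRat (120 lines). Uses: NGrp, NExp, NLead. Proof. By induction on `j`, `1 ≤ j ≤ m`, there is `σ_j` with `IsDef`, `Pre A`, `Cong j`, `RatBelow m` and `(σ_j (C (φ f)))_m - (σ (C (φ f)))_m ∈ φ(F)` for all `f`. `σ_1 = σ`. Step (`j < m`): `D_j` = leading
coefficient of `σ_j` (NLead (1)); it preserves `A` (`Pre`) and `φ(F)` (`RatBelow`). `ε` = the exponential of `-D_j` at `j` (NExp): `Pre A`, `Pre φ(F)`. `σ_(j+1) = ε σ_j`: `Cong (j+1)` by NLead (4), (5) (for `ε`, its coefficient at `j` is `-D_j`), and the coefficient at `i ≤ m` of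
`ε(σ_j(C (φ f)))` is `∑ (ε(C(f_q)))_p`, `p + q = i`, `f_q` the coefficients of `σ_j (C (φ f))` (NGrp (7)); all terms with `q < m` are in `φ(F)`, the term `q = i = m` is `f_m`. Finally `D` = leading coefficient of `σ_m` at `m`. -/
def NRatStmt : Prop := ∀ (k : Type) [Field k] [CharZero k] (K : Type) [Field K] [Algebra (F k) K] [Algebra k K]
  [IsScalarTower k (F k) K] (A : Subring K), (∀ (c : k), ∀ x ∈ A, c • x ∈ A) → ∀ m : ℕ, 0 < m →
  ∀ σ : PowerSeries K ≃ₐ[k] PowerSeries K, IsDef σ → Pre (A : Set K) σ → RatBelow m σ →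
  ∃ D : Derivation k K K, (∀ x ∈ A, D x ∈ A) ∧ ∀ f : F k,
    PowerSeries.coeff m (σ (PowerSeries.C (algebraMap (F k) K f))) - D (algebraMap (F k) K f) ∈ Set.range (algebraMap (F k) K)

/-- Module N/NLoc (100 lines). Automorphisms and derivations which preserve the ring of a chart preserve the ring of the intersection. Uses: Ev, MFin, Overlap, NGrp, NUnit. Proof. `X_uv = (v.b/u.b) ∏_(P ∈ C.M) (v.a P/u.a P) ∈ u.R`, `X_uv⁻¹ ∈ v.R`, and for every `y ∈ u.A ⊔ v.A` there is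
`N` with `X_uv^N y ∈ u.A` (`OverlapStmt` and its proof: `u.R ⊔ v.R = u.R[X_uv⁻¹]`, see the module B/Overlap). So `y = a/X_uv^N`, `τ(C y) τ(C X_uv^N) = τ(C a)`, `τ(C X_uv^N)` has coefficients in `u.A` and the constant coefficient `X_uv^N`, whose inverse lies in `v.A`: NUnit for the ring `u.A ⊔ v.A`; NGrp (8).
Derivations: quotient rule. -/
def NLocStmt : Prop := ∀ (k : Type) [Field k] (r : ℕ) (C : Config k r) (K : Type) [Field K] [Algebra (F k) K] [Algebra k K]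
  [IsScalarTower k (F k) K] (u v : Chart C),
  (∀ τ : PowerSeries K ≃ₐ[k] PowerSeries K, IsDef τ → Pre (u.A K : Set K) τ → Pre ((u.A K ⊔ v.A K : Subring K) : Set K) τ) ∧
  (∀ E : Derivation k K K, (∀ x ∈ u.A K, E x ∈ u.A K) → ∀ x ∈ u.A K ⊔ v.A K, E x ∈ u.A K ⊔ v.A K)

/-- Module N/NStep (150 lines). One step. Uses: NGrp, NExp, NLead, NRat, NLoc. Proof. `D u v` from NRat for `g u v`, `A = u.A K ⊔ v.A K` (stable under `k`: it contains the image of `k`). Coboundary: for `f ∈ F`, `g v w (C (φ f)) = ∑ X^q C(f_q)` with `f_q ∈ φ(F)` for `q < m`, `f_0 = φ f`, and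
`(g u w (C (φ f)))_m = ∑_(p+q=m) (g u v (C f_q))_p` (NGrp (7)): the terms with `p, q < m` are in `φ(F)`, so `(D u w - D u v - D v w)(φ f) ∈ φ(F)`. `EtFFor` gives `E u` (`FRat` for `D u v - (E v - E u)`). `τ u` = the exponential of `E u` at `m` (NExp; `Pre (u.A K)`). For `f ∈ F`: modulo `X^m` nothing changes (NLead (4), (7)), and the
coefficient at `m` of `τ u * g u v * (τ v)⁻¹` is `(g u v (C (φ f)))_m + E u (φ f) - E v (φ f)` (NLead (3), (5), (6)), which is in `φ(F)` because `(D u v - (E v - E u))(φ f) ∈ φ(F)`. -/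
def NStepStmt : Prop := ∀ (k : Type) [Field k] [CharZero k] [IsAlgClosed k] (r n : ℕ) (C : Config k r), EtFFor C n →
  ∀ (K : Type) [Field K] [Algebra (F k) K] [Algebra k K] [IsScalarTower k (F k) K],
  IsEtaleCover C n K → ∀ g : Chart C → Chart C → (PowerSeries K ≃ₐ[k] PowerSeries K), IsDefCocycle C K g →
  ∀ m : ℕ, 0 < m → (∀ u v, RatBelow m (g u v)) →
  ∃ τ : Chart C → (PowerSeries K ≃ₐ[k] PowerSeries K),
    (∀ u, IsDef (τ u) ∧ Pre (u.A K : Set K) (τ u) ∧ Cong m (τ u)) ∧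
    ∀ u v, RatBelow (m + 1) (τ u * g u v * (τ v)⁻¹)

/-- Module N/NEqui (180 lines). Uses: NGrp, NLead, NLim, NLoc, NStep. Proof. Recursion: families `h_m : Chart C → Aut`, `m ≥ 1`, with `IsDef (h_m u)`, `Pre (u.A K) (h_m u)` and `g_m u v = h_m u * g u v * (h_m v)⁻¹` satisfying `RatBelow m`; `h_1 = 1`, `h_(m+1) u = τ u * h_m u` with `τ` from NStep for the cocycle
`g_m` (`IsDefCocycle`: `Pre (u.A ⊔ v.A)` of `h_m u` and of `(h_m v)⁻¹` by NLoc (note `u.A ⊔ v.A = v.A ⊔ u.A`) and NGrp (4)). `h_(m+1) u ≡ h_m u mod X^m` because `τ u ≡ 1` (NLead (4)). NLim: the limits `h u`. For `j < m` the coefficient at `j` of `(h u * g u v * (h v)⁻¹)(C (φ f))` is that of `g_m u v (C (φ f))` (NLim,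
NGrp (5)), so it is in `φ(F)`; so all coefficients are, and `Pre (Set.range φ)` follows from NGrp (8) (`Set.range φ` is a subring). -/
def NEquiStmt : Prop := ∀ (k : Type) [Field k] [CharZero k] [IsAlgClosed k] (r n : ℕ) (C : Config k r), EtFFor C n →
  ∀ (K : Type) [Field K] [Algebra (F k) K] [Algebra k K] [IsScalarTower k (F k) K],
  IsEtaleCover C n K → ∀ g : Chart C → Chart C → (PowerSeries K ≃ₐ[k] PowerSeries K), IsDefCocycle C K g →
  ∃ h : Chart C → (PowerSeries K ≃ₐ[k] PowerSeries K), (∀ u, IsDef (h u) ∧ Pre (u.A K : Set K) (h u)) ∧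
    ∀ u v, Pre (Set.range (algebraMap (F k) K)) (h u * g u v * (h v)⁻¹)

/-! ### Step 2: deformations of the pair (blow-up of the plane, lines) -/

/-- A logarithmic formal deformation of the blow-up `S`. -/
structure IsLogDef {k : Type} [Field k] {r : ℕ} (C : Config k r)
    (γ : Chart C → Chart C → (PowerSeries (F k) ≃ₐ[k] PowerSeries (F k))) : Prop where
  isDef : ∀ u v, IsDef (γ u v)
  pre : ∀ u v, Pre ((u.R ⊔ v.R : Subalgebra k (F k)) : Set (F k)) (γ u v)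
  coc : ∀ u v w, γ u v * γ v w = γ u w
  log : ∀ u v (i j : Fin r) (m : ℕ), PowerSeries.coeff m (γ u v (PowerSeries.C (ev (C.ℓ i) / ev (C.ℓ j)))) *
    (ev (C.ℓ j) / ev (C.ℓ i)) ∈ u.R ⊔ v.R

/-- The pair `(u, θ)` is logarithmic: `θ` preserves the ring of the chart and the lines. -/
def IsLogAt {k : Type} [Field k] {r : ℕ} {C : Config k r} (u : Chart C) (θ : PowerSeries (F k) ≃ₐ[k] PowerSeries (F k)) :
    Prop :=
  IsDef θ ∧ Pre (u.R : Set (F k)) θ ∧ ∀ (i j : Fin r) (m : ℕ),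
    PowerSeries.coeff m (θ (PowerSeries.C (ev (C.ℓ i) / ev (C.ℓ j)))) * (ev (C.ℓ j) / ev (C.ℓ i)) ∈ u.R

/-- Module N/NRes (100 lines). Restriction to `F[[X]]`. Uses: NGrp, NExt. Proof. For `f ∈ F` the coefficients of `σ (C (φ f))` are `φ` of unique elements; this defines an algebra homomorphism `F → F[[X]]` (`φ` and `map φ` are injective); NExt. The formula for all
`f ∈ F[[X]]` follows from NGrp (7). -/
def NResStmt : Prop := ∀ (k : Type) [Field k] (K : Type) [Field K] [Algebra (F k) K] [Algebra k K]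
  [IsScalarTower k (F k) K] (σ : PowerSeries K ≃ₐ[k] PowerSeries K), IsDef σ → Pre (Set.range (algebraMap (F k) K)) σ →
  ∃ γ : PowerSeries (F k) ≃ₐ[k] PowerSeries (F k), IsDef γ ∧
    ∀ f, PowerSeries.map (algebraMap (F k) K) (γ f) = σ (PowerSeries.map (algebraMap (F k) K) f)

/-- Module N/NOLoc (80 lines). The local ring of a divisor is a localisation of the ring of a chart. Uses: Ev, Coord, Curve, Exc. Proof. Curve: `u.b` is a unit form at `O` (`c/u.b ∈ u.R ≤ O`); complete it to a basis `u.b, c, d`: `O` is the localisation of `k[c/u.b, d/u.b] ⊆ u.R` at some `p` (`CurveStmt`): `f h₂ = h₁`, and `h₂⁻¹ ∈ O` since `1 * h₂ = h₂`: the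
element `h₂⁻¹` satisfies `h₂⁻¹ h₂ = 1`. Exceptional curve over `T`: `u.b(T) ≠ 0` (otherwise choose a form `b` with `b(T) ≠ 0`: `u.b/b` is a uniformiser of `O` and `b/u.b ∈ u.R ≤ O`, contradiction), `c = u.a T`, `d ∈ T^⊥` independent of `c`: `O` is the localisation of `k[c/u.b, d/c] ⊆ u.R` at `X 0` (`ExcStmt`). -/
def NOLocStmt : Prop := ∀ (k : Type) [Field k] (r : ℕ) (C : Config k r) (u : Chart C) (O : Subalgebra k (F k)),
  IsDiv C O → u.R ≤ O → ∀ f ∈ O, ∃ h₁ ∈ u.R, ∃ h₂ ∈ u.R, h₂ ≠ 0 ∧ h₂⁻¹ ∈ O ∧ f = h₁ / h₂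

/-- Module N/NForm (80 lines). The lines at a divisor. Uses: Ev, Unif, Curve, Exc. Proof. Curve: if `ℓ_j` is not a unit form, `ℓ_j/ℓ_i` is a uniformiser (`CurveStmt`), so `ℓ_i/ℓ_j ∉ O`; so
`ℓ_j` is a unit form: `a' = u.b`, which is a unit form because `u.R ≤ O`. Exceptional curve over `T`: if `ℓ_j(T) ≠ 0`: `a' = u.b` (`u.b(T) ≠ 0`, see NOLoc). If `ℓ_j(T) = 0` then `ℓ_i(T) = 0` (otherwise `ℓ_j/ℓ_i` is a uniformiser and `ℓ_i/ℓ_j ∉ O`): `a' = u.a T`. (2) uniformisers: `CurveStmt`, `ExcStmt`. -/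
def NFormStmt : Prop := ∀ (k : Type) [Field k] (r : ℕ) (C : Config k r) (u : Chart C) (O : Subalgebra k (F k)) (i j : Fin r),
  IsDiv C O → u.R ≤ O → i ≠ j → ev (C.ℓ i) / ev (C.ℓ j) ∈ O →
  (∃ a' : Fin 3 → k, a' ≠ 0 ∧ ev (C.ℓ i) / ev a' ∈ u.R ∧ ev (C.ℓ j) / ev a' ∈ u.R ∧ ev a' / ev (C.ℓ j) ∈ O) ∧
  (ev (C.ℓ j) / ev (C.ℓ i) ∈ O ∨ IsUnif O (ev (C.ℓ i) / ev (C.ℓ j)))

/-- Module N/NLogO (200 lines). Uses: Ev, Unif, NGrp, NRoot, NUnit, NOLoc, NForm, Curve, Exc. Let `σ` preserve `(u.A ⊔ v.A)[[X]]` and `F[[X]]`, `γ` its restriction. Proof. `ic K O ∩ φ(F) = φ(O)` (`O` has a uniformiser by `CurveStmt`/`ExcStmt`, so it is integrally closed, `UnifStmt`), `u.A ⊔ v.A ≤ ic K O`. (1) `f = h₁/h₂` (NOLoc): `γ(C f) γ(C h₂) = γ(C h₁)`, the coefficients of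
`σ(C (φ h_i))` are in `(u.A ⊔ v.A) ∩ φ(F) ⊆ φ(O)`; NUnit for the ring `O`. (2) `i = j` is clear. Let first `λ = ℓ_i/ℓ_j ∈ O`, `a'` from NForm, `z^n = φ λ` (`Roots`), `y = z φ(ℓ_j/a')`: `y^n = φ((ℓ_i/a')(ℓ_j/a')^(n-1)) ∈ φ(u.R)`, so `y ∈ u.A K` and `σ(C y) ∈ (ic K O)[[X]]`; `σ(C y) = σ(C z) σ(C (φ(ℓ_j/a')))` and the second factor has
coefficients in `φ(O)` by (1) and the constant coefficient `φ(ℓ_j/a')`, a unit: NUnit: `σ(C z) ∈ (ic K O)[[X]]`. Put `w = C(z⁻¹) σ(C z)`: constant coefficient 1, `w^n = map φ (C(λ⁻¹) γ(C λ))`. By NRoot (for `K := F k`, `A = ⊤`) there is `W ∈ F[[X]]` with `W_0 = 1`, `W^n = C(λ⁻¹) γ(C λ)`, and `w = map φ W` (NRoot, uniqueness in `K[[X]]`). So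
`z φ(W_m) ∈ ic K O` and `(z φ(W_m))^n = φ(λ W_m^n) ∈ φ(O)`, so `λ W_m^n ∈ O`, where `λ` is a unit or a uniformiser of `O` (NForm (2)) and `n ≥ 2`: `W_m ∈ O` (`UnifStmt`: `W_m = π^e u'`). So `C(λ⁻¹) γ(C λ) = W^n ∈ O[[X]]`. If `λ ∉ O`, then `λ⁻¹ ∈ O` (`UnifStmt`), `V = C(λ) γ(C λ⁻¹) ∈ O[[X]]`, `V_0 = 1`, and
`C(λ⁻¹) γ(C λ) V = 1`: NUnit. -/
def NLogOStmt : Prop := ∀ (k : Type) [Field k] [CharZero k] (r n : ℕ) (C : Config k r) (K : Type) [Field K] [Algebra (F k) K]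
  [Algebra k K] [IsScalarTower k (F k) K], 2 ≤ n → Roots K C n → ∀ (u v : Chart C)
  (σ : PowerSeries K ≃ₐ[k] PowerSeries K) (γ : PowerSeries (F k) ≃ₐ[k] PowerSeries (F k)), IsDef σ → IsDef γ →
  Pre ((u.A K ⊔ v.A K : Subring K) : Set K) σ →
  (∀ f, PowerSeries.map (algebraMap (F k) K) (γ f) = σ (PowerSeries.map (algebraMap (F k) K) f)) →
  ∀ O : Subalgebra k (F k), IsDiv C O → u.R ≤ O → v.R ≤ O →
  (∀ f ∈ O, ∀ m, PowerSeries.coeff m (γ (PowerSeries.C f)) ∈ O) ∧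
  (∀ (i j : Fin r) (m : ℕ), PowerSeries.coeff m (γ (PowerSeries.C (ev (C.ℓ i) / ev (C.ℓ j)))) *
    (ev (C.ℓ j) / ev (C.ℓ i)) ∈ O)

/-- Module N/NToLog (100 lines). Uses: NGrp, NRes, NLogO, HartUV. Proof. `γ u v` from NRes. `IsDef`; cocycle (NGrp (6) and the injectivity of `map φ`); `Pre`: for `f ∈ u.R ⊔ v.R` the coefficients of `γ(C f)` lie in all `O ⊇ u.R, v.R` (NLogO (1)), so in `u.R ⊔ v.R` (`HartUVStmt`); NGrp (8). `log`: NLogO (2) and `HartUVStmt`. -/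
def NToLogStmt : Prop := ∀ (k : Type) [Field k] [CharZero k] (r n : ℕ) (C : Config k r) (K : Type) [Field K] [Algebra (F k) K]
  [Algebra k K] [IsScalarTower k (F k) K], 2 ≤ n → Roots K C n →
  ∀ g : Chart C → Chart C → (PowerSeries K ≃ₐ[k] PowerSeries K), IsDefCocycle C K g →
  (∀ u v, Pre (Set.range (algebraMap (F k) K)) (g u v)) →
  ∃ γ : Chart C → Chart C → (PowerSeries (F k) ≃ₐ[k] PowerSeries (F k)), IsLogDef C γ ∧
    ∀ u v f, PowerSeries.map (algebraMap (F k) K) (γ u v f) = g u v (PowerSeries.map (algebraMap (F k) K) f)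

/-- Module N/NH1O (180 lines). `H¹(S, O_S) = 0` for the covering by all charts. Uses: Ev, Coord, Curve, Hart, ChartExA, Side, GlobP, PenPoly. Proof. `P ∈ C.M` (hypothesis), `c u v` lies in all `O ⊇ u.R, v.R`. `SideStmt` for every nonzero `a ∈ P^⊥`: functions `X^a u` for the charts with `u.a P = a`, in all `O ⊇ u.R`, so in `u.R` (`HartStmt`); put
`X⁰ u = X^(u.a P) u`. For `u.a P = a`, `v.a P = a'`: `ε(a,a') := c u v - X⁰ v + X⁰ u` does not depend on `u, v` (cocycle). It lies in all `O ⊇ PR P a, PR P a'` (`ChartExAStmt`: charts `u, v` with `u.a P = a`, `v.a P = a'`, `u.R, v.R ≤ O`), so in `PF P` (`GlobPStmt`), and in `PR P a ⊔ PR P a'` (`PenPolyStmt`: a curve `O` with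
`UnitForm O a`, `UnitForm O a'` contains `PR P a, PR P a'`); `ε(a,a') + ε(a',a'') = ε(a,a'')`. Basis `a₀, a₁` of `P^⊥`, `λ = a₀/a₁`: `PR P a₁ = k[λ]`, `PR P a₀ = k[1/λ]`, every element of `PR P a₀ ⊔ PR P a₁` is `y₁ - y₀` with `y_i ∈ PR P a_i` (Laurent polynomials: induction over the generated algebra): `ε(a₀,a₁) = y₁ - y₀`. For arbitrary
`a` put `y_a = y₀ - ε(a,a₀) = y₁ - ε(a,a₁)`; it lies in `PR P a` (`PenPolyStmt` (1): it is in `PF P`; for a curve `O` with `UnitForm O a` one of `a₀, a₁` is a unit form, say `a₀`: `y₀ ∈ PR P a₀ ≤ O`, `ε(a,a₀) ∈ O`). `ε(a,a') = y_(a') - y_a`. `x u = X⁰ u + y_(u.a P)` (for the choice `y_(a₀) = y₀` etc.; `PR P (u.a P) ≤ u.R`). -/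
def NH1OStmt : Prop := ∀ (k : Type) [Field k] [IsAlgClosed k] (r : ℕ) (C : Config k r) (P : Pt k), P ∈ C.M →
  ∀ c : Chart C → Chart C → F k, (∀ u v, c u v ∈ u.R ⊔ v.R) → (∀ u v w, c u v + c v w = c u w) →
  ∃ x : Chart C → F k, (∀ u, x u ∈ u.R) ∧ ∀ u v, c u v = x v - x u

/-- Module N/NTw (180 lines). Twisted multiplicative cocycles are trivial. Uses: NGrp, NH1O. Proof. Construct `a_m : Chart C → F[[X]]`, `m ≥ 1`, coefficients in `u.R`, constant coefficient 1, with `δ u v := a_m u - Φ u v * γ u v (a_m v) ≡ 0 mod X^m` and `a_(m+1) ≡ a_m mod X^m`; `a_1 = 1`. Step: `b u v` = coefficient of `δ u v` at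
`m`: it is in `u.R ⊔ v.R` (`Pre`). `δ u w = δ u v + Φ u v * γ u v (δ v w)` (cocycle), so `b u w = b u v + b v w` (`γ ≡ 1 mod X`, `Φ_0 = 1`). NH1O: `b u v = x v - x u`. `a_(m+1) u = a_m u + C(x u) X^m`. The limit `E u` has the coefficients `(a_(j+1) u)_j`. -/
def NTwStmt : Prop := ∀ (k : Type) [Field k] [IsAlgClosed k] (r : ℕ) (C : Config k r) (P : Pt k), P ∈ C.M →
  ∀ γ : Chart C → Chart C → (PowerSeries (F k) ≃ₐ[k] PowerSeries (F k)), IsLogDef C γ →
  ∀ Φ : Chart C → Chart C → PowerSeries (F k), (∀ u v, PowerSeries.constantCoeff (Φ u v) = 1) →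
  (∀ u v m, PowerSeries.coeff m (Φ u v) ∈ u.R ⊔ v.R) → (∀ u v w, Φ u w = Φ u v * γ u v (Φ v w)) →
  ∃ E : Chart C → PowerSeries (F k), (∀ u, PowerSeries.constantCoeff (E u) = 1) ∧
    (∀ u m, PowerSeries.coeff m (E u) ∈ u.R) ∧ ∀ u v, E u = Φ u v * γ u v (E v)

/-- Module N/NH (80 lines). The deformed equations of the lines. Uses: Ev, NTw. Proof. `λ = ℓ_i/ℓ_(i₀)`, `Φ u v = C(λ⁻¹) γ u v (C λ)` (constant coefficient 1, coefficients in `u.R ⊔ v.R` by `log`; cocycle from `coc`). NTw: `E u`. `H u = C λ * E u`: `γ u v (H v) = γ u v (C λ) γ u v (E v) = C λ Φ u v γ u v (E v) = H u`. -/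
def NHStmt : Prop := ∀ (k : Type) [Field k] [IsAlgClosed k] (r : ℕ) (C : Config k r) (P : Pt k), P ∈ C.M → 2 ≤ r →
  ∀ γ : Chart C → Chart C → (PowerSeries (F k) ≃ₐ[k] PowerSeries (F k)), IsLogDef C γ → ∀ i i₀ : Fin r,
  ∃ H : Chart C → PowerSeries (F k), (∀ u v, γ u v (H v) = H u) ∧
    (∀ u, PowerSeries.constantCoeff (H u) = ev (C.ℓ i) / ev (C.ℓ i₀)) ∧
    ∀ u m, PowerSeries.coeff m (H u) * (ev (C.ℓ i₀) / ev (C.ℓ i)) ∈ u.R

/-- Module N/NH0 (180 lines). Global sections of `O(1)` and of `O(1)` minus the exceptional curve over `P`. Uses: Ev, Coord, Loc, Unif, Curve, Exc, ChartEx, Ord, HartA. Proof. (1) fix a basis `b, c, d` of the forms. For every curve `O` with `UnitForm O b` choose a chart `u` with `u.R ≤ O` (`ChartExStmt`): `u.b` is a unit form at `O`, so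
`f e/b = (f e/u.b)(u.b/b) ∈ O`; by `HartAStmt` `f e/b = h(c/b, d/b)`. At the line `O` of `b` (`LocStmt`, coordinates `b/c = 1/z`, `d/c = w/z`; `c` is a unit form there, `CurveStmt`) take a chart `u` with `u.R ≤ O`: `f e/c = (f e/u.b)(u.b/c) ∈ O`, that is `h(z, w)/z ∈ O`: all monomials of `h` have degree `≤ 1` (`OrdStmt` with exponent 1). So `f e/b = ev c'/ev b`.
(2) `f e/u.b = (f e/u.a P)(u.a P/u.b) ∈ u.R`, so `f = ev c/ev e` by (1). Let `O` be the exceptional curve over `P`, `u.R ≤ O` (`ExcStmt`, `ChartExStmt`): `ev c/ev(u.a P) ∈ O`, and if `c(P) ≠ 0` then `u.a P/c` is a uniformiser of `O` (`ExcStmt`), contradiction. -/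
def NH0Stmt : Prop := ∀ (k : Type) [Field k] [Infinite k] (r : ℕ) (C : Config k r) (e : Fin 3 → k), e ≠ 0 → ∀ f : F k,
  ((∀ u : Chart C, f * (ev e / ev u.b) ∈ u.R) → ∃ c : Fin 3 → k, f = ev c / ev e) ∧
  (∀ P ∈ C.M, (∀ u : Chart C, f * (ev e / ev (u.a P)) ∈ u.R) → ∃ c : Fin 3 → k, c ⬝ᵥ P.rep = 0 ∧ f = ev c / ev e)

/-- Module N/NSpan (100 lines). Completeness of `k[[X]]`. Uses: nothing. Proof. Iterate: `x_0 = x`, `x_m u = ∑_a C(l_m a) y a u + X x_(m+1) u`, `x_m ∈ V`. `L a` = the power series with the coefficients `l_m a`. `x u - ∑_a (map L a) y a u` is divisible by `X^m` for all `m`, so it is 0. -/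
def NSpanStmt : Prop := ∀ (k L : Type) [Field k] [Field L] [Algebra k L] (ι : Type) (d : ℕ) (V : Set (ι → PowerSeries L))
  (y : Fin d → ι → PowerSeries L),
  (∀ x ∈ V, ∃ (l : Fin d → k), ∃ x' ∈ V, ∀ u, x u = ∑ a, PowerSeries.C (algebraMap k L (l a)) * y a u + PowerSeries.X * x' u) →
  ∀ x ∈ V, ∃ c : Fin d → PowerSeries k, ∀ u, x u = ∑ a, PowerSeries.map (algebraMap k L) (c a) * y a u

/-- Module N/NArc (220 lines). The arc of configurations. Uses: Ev, NH, NH0, NSpan. Proof. `H i` from NH (with `i₀`), `C.ℓ i a' ... ` the forms `ℓ_i` span: choose `i_0', i_1', i_2'` with `ℓ` independent (`C.span`), call them `j 0, j 1, j 2`. `V` = all `x : Chart C → F[[X]]` with `γ u v (x v) = x u` and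
`coeff m (x u) * (ℓ_(i₀)/u.b) ∈ u.R`. `H i ∈ V` (`ℓ_i/u.b ∈ u.R`). Hypothesis of NSpan for `y a = H (j a)`: the constant coefficient of `x u` does not depend on `u` (`IsDef`) and is `ev c/ev ℓ_(i₀)` (NH0 (1)); `c = ∑ l_a ℓ_(j a)`; `x u - ∑_a C(l_a) H (j a) u` is in `V` and has constant coefficient 0, and dividing
by `X` stays in `V`. So `H i u = ∑_a (map (c i a)) H (j a) u`, `c i a ∈ k[[X]]`; the constant coefficients give `ℓ_i = ∑_a (c i a)_0 ℓ_(j a)`. `𝓛 i = ∑_a c i a ℓ_(j a) ∈ k[[X]]³`. `ξ u` = the solution of `∑_b C(ℓ_(j a) b) ξ u b = H (j a) u` for `a = 0, 1, 2` (inverse of the constant matrix), so (c), (d) [`∑_b ℓ_(j a) b gen b = ev ℓ_(j a)`] and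
`∑_b (map (𝓛 i b)) ξ u b = H i u`: (e). (b): let `P ∈ C.M`, `i ≠ j'` through `P` (if two of the three indices are equal the determinant is 0). `V_P` = all `x` with `γ u v (x v) = x u`, `coeff m (x u) (ℓ_(i₀)/u.a P) ∈ u.R`; it contains `H m'` for `m'` through `P` (`ℓ_(m')/u.a P ∈ u.R`); NSpan with `y = (H i, H j')` (NH0 (2); `P^⊥` is spanned by `ℓ_i, ℓ_(j')`):
`H m' u = x H i u + y H j' u` with `x, y ∈ k[[X]]`. The three series `H (j a) u` are linearly independent over `k[[X]]` (divide a relation by the largest power of `X`; the constant coefficients `ℓ_(j a)/ℓ_(i₀)` are independent over `k`), so `c m' = x c i + y c j'`, `𝓛 m' = x 𝓛 i + y 𝓛 j'` and the determinant is 0. (There is a chart: any.) -/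
def NArcStmt : Prop := ∀ (k : Type) [Field k] [IsAlgClosed k] (r : ℕ) (C : Config k r) (P₀ : Pt k), P₀ ∈ C.M → 2 ≤ r →
  ∀ γ : Chart C → Chart C → (PowerSeries (F k) ≃ₐ[k] PowerSeries (F k)), IsLogDef C γ → ∀ i₀ : Fin r,
  ∃ (L : Fin r → Fin 3 → PowerSeries k) (ξ : Chart C → Fin 3 → PowerSeries (F k)),
    (∀ i a, PowerSeries.constantCoeff (L i a) = C.ℓ i a) ∧
    (∀ P ∈ C.M, ∀ i ∈ C.through P, ∀ j ∈ C.through P, ∀ m ∈ C.through P, Matrix.det (Matrix.of ![L i, L j, L m]) = 0) ∧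
    (∀ u v a, γ u v (ξ v a) = ξ u a) ∧
    (∀ u a, PowerSeries.constantCoeff (ξ u a) = gen k a / ev (C.ℓ i₀)) ∧
    ∀ u i m, PowerSeries.coeff m (∑ a, PowerSeries.map (algebraMap k (F k)) (L i a) * ξ u a) *
      (ev (C.ℓ i₀) / ev (C.ℓ i)) ∈ u.R

/-- Module N/NEta (120 lines). Straightening the arc. Uses: NUnit, NArc. Proof. `L, ξ` from NArc, `ArcRigid`: `L i = s i • (ℓ_i g)`, `det g` and `s i` units. Constant coefficients: `ℓ_i = s_i(0) ℓ_i g(0)`, `g(0)` invertible. `g' = g(0)⁻¹ g` (the constant matrix `g(0)⁻¹` mapped to `k[[X]]`), `s' i = C(s_i(0)⁻¹) s i`: `ℓ_i g' = s_i(0) ℓ_i g`, so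
`L i = s' i • (ℓ_i g')`, `g'(0) = 1`, `s' i (0) = 1`. `η u a = ∑_b map(g' a b) ξ u b`. Then (1), (2), and `∑_a C(ℓ_i a) η u a = map (s' i)⁻¹ * ∑_b map(L i b) ξ u b`, where `(s' i)⁻¹ ∈ k[[X]]`: (3). -/
def NEtaStmt : Prop := ∀ (k : Type) [Field k] [IsAlgClosed k] (r : ℕ) (C : Config k r) (P₀ : Pt k), P₀ ∈ C.M → 2 ≤ r →
  C.ArcRigid → ∀ γ : Chart C → Chart C → (PowerSeries (F k) ≃ₐ[k] PowerSeries (F k)), IsLogDef C γ → ∀ i₀ : Fin r,
  ∃ η : Chart C → Fin 3 → PowerSeries (F k),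
    (∀ u v a, γ u v (η v a) = η u a) ∧ (∀ u a, PowerSeries.constantCoeff (η u a) = gen k a / ev (C.ℓ i₀)) ∧
    ∀ u i m, PowerSeries.coeff m (∑ a, PowerSeries.C (algebraMap k (F k) (C.ℓ i a)) * η u a) *
      (ev (C.ℓ i₀) / ev (C.ℓ i)) ∈ u.R

/-- Module N/NThA (120 lines). The automorphism with given images of the coordinates. Uses: Ev, NExt. Proof. `η 0` is a unit (`gen k 0 = 1`). The algebra homomorphism `k[x, y] → F[[X]]`, `x ↦ η 1/η 0`, `y ↦ η 2/η 0` followed by the constant coefficient is the inclusion into `F`, so nonzero polynomials have nonzero constant coefficients and map to units: it extends to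
`F` (`IsLocalization.lift`). NExt. `θ(C (ev c)) = ∑ c_a θ(C (gen a)) = ∑ c_a η a/η 0`. -/
def NThAStmt : Prop := ∀ (k : Type) [Field k] (e : Fin 3 → k), e ≠ 0 → ∀ η : Fin 3 → PowerSeries (F k),
  (∀ a, PowerSeries.constantCoeff (η a) = gen k a / ev e) →
  ∃ θ : PowerSeries (F k) ≃ₐ[k] PowerSeries (F k), IsDef θ ∧ ∀ c : Fin 3 → k,
    θ (PowerSeries.C (ev c)) * η 0 = ∑ a, PowerSeries.C (algebraMap k (F k) (c a)) * η a

/-- Module N/NThB (150 lines). Uses: Ev, Pnt, Bas, NGrp, NUnit, NThA. Proof. `θ u` from NThA. Write `c·η = ∑ C(c a) η u a`. (log) `θ(C(ℓ_i/ℓ_j)) (ℓ_j·η) = ℓ_i·η` and `C(ℓ_(i₀)/ℓ_j)(ℓ_j·η)` has coefficients in `u.R` and constant coefficient 1: NUnit. (Pre) it is enough to treat the generators of `u.R` (NGrp (8); the elements `f` with `θ(C f) ∈ u.R[[X]]` form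
an algebra): `c/u.b`: `c` is a combination of the `ℓ_i` (`C.span`), `ℓ_i/u.b ∈ u.R`, so `C(ℓ_(i₀)/u.b)(c·η)` has coefficients in `u.R`, and for `c = u.b` its constant coefficient is 1; `θ(C(c/u.b)) (u.b·η) = c·η`: NUnit. `c/u.a P` with `c ∈ P^⊥`: `c` is a combination of the `ℓ_i`, `i` through `P` (two independent ones; `BasStmt` and dimension), `ℓ_i/u.a P ∈ u.R`;
the same argument. (Cocycle) `γ u v * θ v` and `θ u` agree on `C(gen a)` (`θ v (C (gen a)) = η v a/η v 0`), so on `k[x,y]`, on `F` and everywhere (NGrp (6)). -/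
def NThBStmt : Prop := ∀ (k : Type) [Field k] (r : ℕ) (C : Config k r), 2 ≤ r →
  ∀ γ : Chart C → Chart C → (PowerSeries (F k) ≃ₐ[k] PowerSeries (F k)), IsLogDef C γ → ∀ (i₀ : Fin r)
  (η : Chart C → Fin 3 → PowerSeries (F k)), (∀ u v a, γ u v (η v a) = η u a) →
  (∀ u a, PowerSeries.constantCoeff (η u a) = gen k a / ev (C.ℓ i₀)) →
  (∀ u i m, PowerSeries.coeff m (∑ a, PowerSeries.C (algebraMap k (F k) (C.ℓ i a)) * η u a) *
    (ev (C.ℓ i₀) / ev (C.ℓ i)) ∈ u.R) →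
  ∃ θ : Chart C → (PowerSeries (F k) ≃ₐ[k] PowerSeries (F k)), (∀ u, IsLogAt u (θ u)) ∧ ∀ u v, γ u v * θ v = θ u

/-! ### Step 3: going up to `K` -/

/-- Module N/NLogExt (200 lines). Logarithmic vector fields extend to `Y`. Uses: Ev, Unif, Curve, Exc, Bas, HartK, Good, ExtDer, EtStep, NOLoc. Proof. Let `L` be the normal closure of `K` over `F` (see the module B/Et2), Galois over `F`, `E^K`, `E^L` the extensions of `E` to `K` and `L` (finite separable; `DerV`-like, or Mathlib), `E^L` restricts to `E^K` (`ExtDerStmt` (1), (2)).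
CLAIM: `y ∈ ic L u.R ∩ Kummer L` implies `E^L y ∈ ic L u.R`. By `HartKStmt` it is enough that `E^L y ∈ ic L O` for the divisors `O ⊇ u.R`; `y ∈ ic L O`. `E(O) ⊆ O` (NOLoc, quotient rule). `GoodStmt` for `E^L`: its last condition: if all `ℓ_i/ℓ_j ∈ O` clear. Otherwise (`O` a curve: some `ℓ_i` is not a unit form; `O` exceptional over `T`: `i` through `T` and `j` not through
`T`) there are `i, j` such that `π = ℓ_i/ℓ_j` is a uniformiser of `O` (`CurveStmt`, `ExcStmt`, `BasStmt`); take a root `ζ^n = π` in `L` (integral over `O`): `E^L ζ = ζ E(π)/(n π)` and `E(π)/π ∈ u.R ≤ O` by hypothesis. (In the exceptional case use always the second alternative.) So for `y ∈ u.A K ∩ Kummer K`: `E^K y ∈ ic L u.R ∩ K = u.A K` (`ExtDerStmt` (3); Kummer K ⊆ Kummer L).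
`EtStepStmt` with `B = u.A K ⊓ Kummer`, `A = u.A K`. -/
def NLogExtStmt : Prop := ∀ (k : Type) [Field k] [CharZero k] [IsAlgClosed k] (r n : ℕ) (C : Config k r), 2 ≤ n →
  ∀ (K : Type) [Field K] [Algebra (F k) K] [Algebra k K] [IsScalarTower k (F k) K], IsEtaleCover C n K →
  ∀ (u : Chart C) (E : Derivation k (F k) (F k)), (∀ x ∈ u.R, E x ∈ u.R) →
  (∀ i j, E (ev (C.ℓ i) / ev (C.ℓ j)) * (ev (C.ℓ j) / ev (C.ℓ i)) ∈ u.R) →
  ∃ E' : Derivation k K K, (∀ f, E' (algebraMap (F k) K f) = algebraMap (F k) K (E f)) ∧ ∀ x ∈ u.A K, E' x ∈ u.A K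

/-- Module N/NLogGrp (150 lines). The logarithmic automorphisms at `u` form a group. Uses: Ev, NGrp, NExp, NLead, NUnit. Proof. Put `λ = ℓ_i/ℓ_j`, `w_σ = C(λ⁻¹) σ(C λ) ∈ u.R[[X]]`. (1) `C(λ⁻¹)(σ τ)(C λ) = w_σ σ(w_τ)`. (2) `1 = w_σ σ(w_(σ⁻¹))`, so `w_(σ⁻¹) = σ⁻¹(w_σ)⁻¹`: NUnit (constant coefficient 1), `Pre σ⁻¹` by NGrp (4). (3) leading coefficient: `D x` for `x ∈ u.R` is a coefficient of
`σ(C x)`; `D(λ) λ⁻¹` is a coefficient of `w_σ`. (4) exponential (NExp): `E(λ) = λ e`, `e ∈ u.R`, so `E^i(λ) ∈ λ u.R` by induction. -/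
def NLogGrpStmt : Prop := ∀ (k : Type) [Field k] [CharZero k] (r : ℕ) (C : Config k r) (u : Chart C), 2 ≤ r →
  (∀ σ τ, IsLogAt u σ → IsLogAt u τ → IsLogAt u (σ * τ)) ∧ (∀ σ, IsLogAt u σ → IsLogAt u σ⁻¹) ∧
  (∀ (m : ℕ), 0 < m → ∀ σ, IsLogAt u σ → Cong m σ → ∀ D : Derivation k (F k) (F k),
    (∀ a, PowerSeries.coeff m (σ (PowerSeries.C a)) = D a) →
    (∀ x ∈ u.R, D x ∈ u.R) ∧ ∀ i j, D (ev (C.ℓ i) / ev (C.ℓ j)) * (ev (C.ℓ j) / ev (C.ℓ i)) ∈ u.R) ∧
  (∀ (E : Derivation k (F k) (F k)), (∀ x ∈ u.R, E x ∈ u.R) →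
    (∀ i j, E (ev (C.ℓ i) / ev (C.ℓ j)) * (ev (C.ℓ j) / ev (C.ℓ i)) ∈ u.R) → ∀ m : ℕ, 0 < m →
    ∀ σ : PowerSeries (F k) ≃ₐ[k] PowerSeries (F k), IsDef σ →
    (∀ (a : F k) (N : ℕ), PowerSeries.coeff N (σ (PowerSeries.C a)) =
      if m ∣ N then ((N / m).factorial : k)⁻¹ • (E^[N / m]) a else 0) → IsLogAt u σ)

/-- Module N/NFact (200 lines). Logarithmic automorphisms extend to `Y`. Uses: NGrp, NExp, NLead, NLim, NLogGrp, NLogExt. Proof. Construct `τ_m` (on `F[[X]]`, `IsLogAt u`) and `σ_m` (on `K[[X]]`, `IsDef`, `Pre (u.A K)`), `m ≥ 1`, with `σ_m (map φ f) = map φ (τ_m f)`, `τ_m ≡ θ mod X^m`, `σ_(m+1) ≡ σ_m mod X^m`; `τ_1 = σ_1 = 1`. Step: `τ_m⁻¹ θ` is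
`IsLogAt u` and `Cong m`; `E` = its leading coefficient at `m` (NLead (1)), logarithmic (NLogGrp (3)); `E'` = its extension (NLogExt). `ε, ε'` = the exponentials of `E` on `F[[X]]` and of `E'` on `K[[X]]` at `m` (NExp); `ε'(map φ f) = map φ (ε f)` by the explicit formula and NGrp (7). `τ_(m+1) = τ_m ε`, `σ_(m+1) = σ_m ε'`. `τ_(m+1) ≡ θ mod X^(m+1)`: `τ_m⁻¹ θ ≡ ε mod X^(m+1)`, apply `τ_m`.
`σ` = the limit of the `σ_m` (NLim). `σ(map φ f) ≡ map φ (τ_m f) ≡ map φ (θ f) mod X^m` for all `m`. -/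
def NFactStmt : Prop := ∀ (k : Type) [Field k] [CharZero k] [IsAlgClosed k] (r n : ℕ) (C : Config k r), 2 ≤ n → 2 ≤ r →
  ∀ (K : Type) [Field K] [Algebra (F k) K] [Algebra k K] [IsScalarTower k (F k) K], IsEtaleCover C n K →
  ∀ (u : Chart C) (θ : PowerSeries (F k) ≃ₐ[k] PowerSeries (F k)), IsLogAt u θ →
  ∃ σ : PowerSeries K ≃ₐ[k] PowerSeries K, IsDef σ ∧ Pre (u.A K : Set K) σ ∧
    ∀ f, σ (PowerSeries.map (algebraMap (F k) K) f) = PowerSeries.map (algebraMap (F k) K) (θ f)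

/-- Module N/NUniq (80 lines). Uses: NGrp, NLead. Proof. Show `Cong m σ` for all `m` by induction: if `Cong m σ`, the leading coefficient at `m` is a derivation of `K` which vanishes on `F`, so it is 0 (`K` is algebraic and separable over `F`: see the end of A/DerUniq). So `σ(C a) = C a` for all `a`; NGrp (6). -/
def NUniqStmt : Prop := ∀ (k : Type) [Field k] [CharZero k] (K : Type) [Field K] [Algebra (F k) K] [Algebra k K]
  [IsScalarTower k (F k) K] [FiniteDimensional (F k) K] (σ : PowerSeries K ≃ₐ[k] PowerSeries K), IsDef σ →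
  (∀ f : F k, σ (PowerSeries.C (algebraMap (F k) K f)) = PowerSeries.C (algebraMap (F k) K f)) → σ = 1

/-- Module N/NFinal (120 lines). Every formal deformation is trivial. Uses: NGrp, NEqui, NLoc, NToLog, NEta, NThB, NFact, NUniq. Proof. `C.M` is not empty (hypothesis). `h u` from NEqui, `g' u v = h u * g u v * (h v)⁻¹` is `IsDefCocycle` (NLoc, NGrp) and preserves `φ(F)[[X]]`. `γ` from NToLog, `η` from NEta, `θ u` from NThB, `σ u` from NFact.
`g' u v * σ v = σ u`: both restrict to `γ u v * θ v = θ u` on `F[[X]]`, so `(σ u)⁻¹ * g' u v * σ v` fixes `C (φ f)`; NUniq. So `g u v = (h u)⁻¹ * g' u v * h v = (h u)⁻¹ * σ u * (σ v)⁻¹ * h v = ((σ u)⁻¹ * h u)⁻¹ * ((σ v)⁻¹ * h v)`; `(σ u)⁻¹ * h u` is `IsDef` and `Pre (u.A K)` (NGrp (4)). -/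
def NFinalStmt : Prop := ∀ (k : Type) [Field k] [CharZero k] [IsAlgClosed k] (r n : ℕ) (C : Config k r), EtFFor C n →
  C.ArcRigid → C.M.Nonempty → 2 ≤ n → 2 ≤ r → ∀ (K : Type) [Field K] [Algebra (F k) K] [Algebra k K] [IsScalarTower k (F k) K],
  IsEtaleCover C n K → FormallyRigid C K

end Pool.Agent.Lib.MP_4318ff_ag
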