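import Pool.Agent.Lib.MP_4318ff_ag.Spec.N

/-!
# MP_4318ff_ag, part N, second file: `H¹(Y, Θ) = 0` implies that all formal deformations are trivial
-/

set_option autoImplicit false

namespace Pool.Agent.Lib.MP_4318ff_ag

open scoped LinearAlgebra.Projectivization

/-- Module N/NH1F (200 lines; the first line of the file is `import Pool.Agent.Lib.MP_4318ff_ag.Spec.N2`). `H¹(Y, Θ) = 0` implies that every formal deformation is trivial. Uses: NGrp, NExp, NLead, NLim, NLoc. Proof. Recursion: families `h_m : Chart C → Aut`, `m ≥ 1`, with `IsDef (h_m u)`, `Pre (u.A K) (h_m u)` and `g_m u v = h_m u * g u v * (h_m v)⁻¹` satisfying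
`Cong m`; `h_1 = 1` (`Cong 1` is empty). Step: `g_m` is an `IsDefCocycle` (NLoc for `h_m u`, `(h_m v)⁻¹`, note `u.A ⊔ v.A = v.A ⊔ u.A`; NGrp). The leading coefficient `D u v` of `g_m u v` at `m` (NLead (1)) is a derivation which maps `u.A ⊔ v.A` to itself, and `D u v + D v w = D u w` (NLead (5) for `σ = g_m u v`, `τ = g_m v w`).
`H1Vanishes`: `D u v = E v - E u`, `E u` preserves `u.A K`. `ε u` = the exponential of `E u` at `m` (NExp; `Pre (u.A K)`, `Cong m`). `h_(m+1) u = ε u * h_m u`; the coefficient at `m` of `(ε u * g_m u v * (ε v)⁻¹)(C a)` is `E u a + D u v a - E v a = 0` (NLead (3), (5), (6)) and the coefficients with index `< m` are 0 (NLead (4), (7)): `Cong (m+1)`. `h_(m+1) u ≡ h_m u mod X^m` (NLead (4)).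
NLim: the limits `h u`; `h u * g u v * (h v)⁻¹ = 1` because all its coefficients on constants with positive index are 0 (NLim, NGrp (5), (6)). So `g u v = (h u)⁻¹ * h v`. -/
def NH1FStmt : Prop := ∀ (k : Type) [Field k] [CharZero k] (r : ℕ) (C : Config k r) (K : Type)
  [Field K] [Algebra (F k) K] [Algebra k K] [IsScalarTower k (F k) K], H1Vanishes C K → FormallyRigid C K

end Pool.Agent.Lib.MP_4318ff_ag
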