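import Mathlib

/-!
# MP_4318ff_ag: etale rigidity of Hirzebruch-Kummer coverings, the statement

* `F = ℂ(x, y)` is the function field of the projective plane, `gen = (1 : x : y)` the generic point, `ev a` the value of the
  linear form `a` at the generic point.
* `Config r`: `r` pairwise different lines which do not pass through one point. `C.M`: the points of multiplicity at
  least `3`. `S` is the blow-up of the plane in `C.M`.
* `Chart C`: an affine chart of `S`: a linear form `b ≠ 0` and for every `P ∈ C.M` a linear form `a P ≠ 0` through `P`; its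
  ring `R` is generated by the quotients `ℓ / b` and `ℓ' / a P`, `ℓ'` through `P`.
* `K` is a finite extension of `F`; `A` is the integral closure of `R` in `K`: the ring of the chart of the normalisation `Y` of
  `S` in `K`.
* `Kummer C n K`: the subfield of `K` generated by `F` and all `n`-th roots of the quotients of the lines, the function field
  of the Hirzebruch-Kummer covering `X`, if all these roots exist in `K`.
* `IsEtaleCover C n K`: the roots exist and `Y → X` is etale.
* `H1Vanishes C K`: the first cohomology of the tangent sheaf of `Y` vanishes (Cech cocycles for the cover by all charts).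
* `C.InfRigid`: the configuration is infinitesimally rigid.
-/

set_option autoImplicit false

namespace Pool.Agent.Lib.MP_4318ff_ag

open scoped LinearAlgebra.Projectivization

/-- The function field of the projective plane. -/
abbrev F : Type := FractionRing (MvPolynomial (Fin 2) ℂ)

/-- The generic point `(1 : x : y)` of the plane. -/
noncomputable def gen : Fin 3 → F :=
  ![1, algebraMap (MvPolynomial (Fin 2) ℂ) F (MvPolynomial.X 0), algebraMap (MvPolynomial (Fin 2) ℂ) F (MvPolynomial.X 1)]

/-- The value of the linear form with the coefficients `a` at the generic point. -/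
noncomputable def ev (a : Fin 3 → ℂ) : F := ∑ i, algebraMap ℂ F (a i) * gen i

/-- A configuration of `r` different lines `ℓ i = 0`, not all through one point. -/
structure Config (r : ℕ) where
  ℓ : Fin r → Fin 3 → ℂ
  indep : ∀ i j, i ≠ j → LinearIndependent ℂ ![ℓ i, ℓ j]
  span : Submodule.span ℂ (Set.range ℓ) = ⊤

namespace Config

variable {r : ℕ} (C : Config r)

/-- The lines through the point `P`. -/
def through (P : ℙ ℂ (Fin 3 → ℂ)) : Set (Fin r) := {i | C.ℓ i ⬝ᵥ P.rep = 0}

/-- The points of multiplicity at least `3`. -/
def M : Set (ℙ ℂ (Fin 3 → ℂ)) := {P | 3 ≤ (C.through P).ncard}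

/-- Infinitesimal rigidity: every first order deformation `ℓ i + ε β i` of the forms which keeps the incidences at all
points of multiplicity at least `3` (the point `P` moves to `P + ε w`) is trivial, that is, it comes from an infinitesimal
projective transformation `B` and from a rescaling of the forms. -/
def InfRigid : Prop :=
  ∀ β : Fin r → Fin 3 → ℂ,
    (∀ P ∈ C.M, ∃ w : Fin 3 → ℂ, ∀ i ∈ C.through P, β i ⬝ᵥ P.rep + C.ℓ i ⬝ᵥ w = 0) →
    ∃ (B : Matrix (Fin 3) (Fin 3) ℂ) (s : Fin r → ℂ), ∀ i, β i = Matrix.vecMul (C.ℓ i) B + s i • C.ℓ i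

end Config

/-- An affine chart of the blow-up of the plane in the points of `C.M`. -/
structure Chart {r : ℕ} (C : Config r) where
  b : Fin 3 → ℂ
  b_ne : b ≠ 0
  a : ℙ ℂ (Fin 3 → ℂ) → Fin 3 → ℂ
  a_ne : ∀ P ∈ C.M, a P ≠ 0
  a_through : ∀ P ∈ C.M, a P ⬝ᵥ P.rep = 0

namespace Chart

variable {r : ℕ} {C : Config r} (u : Chart C)

/-- The coordinate ring of the chart. -/
noncomputable def R : Subalgebra ℂ F :=
  Algebra.adjoin ℂ ({z | ∃ c : Fin 3 → ℂ, z = ev c / ev u.b} ∪
    {z | ∃ P ∈ C.M, ∃ c : Fin 3 → ℂ, c ⬝ᵥ P.rep = 0 ∧ z = ev c / ev (u.a P)})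

/-- The integral closure of the coordinate ring in `K`. -/
noncomputable def A (K : Type) [Field K] [Algebra F K] : Subring K :=
  (integralClosure u.R K).toSubring

end Chart

/-- The field generated by `F` and the `n`-th roots of the quotients of the lines. -/
noncomputable def Kummer {r : ℕ} (C : Config r) (n : ℕ) (K : Type) [Field K] [Algebra F K] : Subfield K :=
  Subfield.closure (Set.range (algebraMap F K) ∪
    {u | ∃ i j, u ^ n = algebraMap F K (ev (C.ℓ i) / ev (C.ℓ j))})

/-- `K` is the function field of a connected finite etale covering of the Hirzebruch-Kummer covering of `C`. -/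
structure IsEtaleCover {r : ℕ} (C : Config r) (n : ℕ) (K : Type) [Field K] [Algebra F K] : Prop where
  finite : FiniteDimensional F K
  roots : ∀ i j, ∃ u : K, u ^ n = algebraMap F K (ev (C.ℓ i) / ev (C.ℓ j))
  etale : ∀ u : Chart C, RingHom.Etale
    (Subring.inclusion (inf_le_left : u.A K ⊓ (Kummer C n K).toSubring ≤ u.A K))

/-- The first cohomology group of the tangent sheaf of `Y` is zero: every cocycle of vector fields on the intersections of
the charts is a coboundary. -/
def H1Vanishes {r : ℕ} (C : Config r) (K : Type) [Field K] [Algebra F K] [Algebra ℂ K] : Prop :=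
  ∀ D : Chart C → Chart C → Derivation ℂ K K,
    (∀ u v, ∀ x ∈ u.A K ⊔ v.A K, D u v x ∈ u.A K ⊔ v.A K) →
    (∀ u v w, D u v + D v w = D u w) →
    ∃ E : Chart C → Derivation ℂ K K, (∀ u, ∀ x ∈ u.A K, E u x ∈ u.A K) ∧ ∀ u v, D u v = E v - E u

/-- **Main theorem** (statement). -/
def MainStatement : Prop :=
  ∀ (r n : ℕ) (C : Config r), C.InfRigid → 6 ≤ r → r ≤ n + 1 →
    ∀ (K : Type) [Field K] [Algebra F K] [Algebra ℂ K] [IsScalarTower ℂ F K],
      IsEtaleCover C n K → H1Vanishes C K

end Pool.Agent.Lib.MP_4318ff_ag
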