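import Pool.Agent.Lib.MP_4318ff_ag.Spec.LR

/-!
# MP_4318ff_ag, part W: etale coverings, linearly rigid configurations, cocycles modulo `F`-rational derivations
-/

set_option autoImplicit false

namespace Pool.Agent.Lib.MP_4318ff_ag

open scoped LinearAlgebra.Projectivization

/-- The derivation maps `F` to `F`. -/
def FRat {k : Type} [Field k] (K : Type) [Field K] [Algebra (F k) K] [Algebra k K] (D : Derivation k K K) : Prop :=
  ∀ f : F k, ∃ f' : F k, D (algebraMap (F k) K f) = algebraMap (F k) K f'

/-- The conclusion of `MTLStmt` for one configuration and one `n`: for Galois extensions every cocycle with average zero is a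
boundary. -/
def MTLFor {k : Type} [Field k] {r : ℕ} (C : Config k r) (n : ℕ) : Prop := ∀ (K : Type)
  [Field K] [Algebra (F k) K] [Algebra k K] [IsScalarTower k (F k) K] [FiniteDimensional (F k) K] [IsGalois (F k) K],
  Roots K C n → ∀ D : Chart C → Chart C → Derivation k K K,
  IsCocycle D → Pres n D → (∀ u v, avgD ⊤ (D u v) = 0) → IsBdry n D

/-- The additive theorem for etale coverings, modulo `F`-rational derivations, for one configuration and one `n`. -/
def EtFFor {k : Type} [Field k] {r : ℕ} (C : Config k r) (n : ℕ) : Prop := ∀ (K : Type)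
  [Field K] [Algebra (F k) K] [Algebra k K] [IsScalarTower k (F k) K], IsEtaleCover C n K →
  ∀ D : Chart C → Chart C → Derivation k K K,
  (∀ u v, ∀ x ∈ u.A K ⊔ v.A K, D u v x ∈ u.A K ⊔ v.A K) →
  (∀ u v w, FRat K (D u v + D v w - D u w)) →
  ∃ E : Chart C → Derivation k K K, (∀ u, ∀ x ∈ u.A K, E u x ∈ u.A K) ∧ ∀ u v, FRat K (D u v - (E v - E u))

/-- MODULE `W/EtF` (150 lines). The additive theorem for etale coverings (not necessarily Galois over `F`), modulo `F`-rational
derivations. -/
def EtFStmt : Prop := ∀ (k : Type) [Field k] [CharZero k] [IsAlgClosed k] (r n : ℕ) (C : Config k r),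
  0 < n → MTLFor C n → EtFFor C n

end Pool.Agent.Lib.MP_4318ff_ag
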