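import Pool.Agent.Lib.MP_4318ff_ag.Spec.A4
import Pool.Agent.Lib.MP_4318ff_ag.Spec.Form

/-!
# MP_4318ff_ag, folder X: the negative half (4 and 5 lines), geometric part (helper58)

Goal: if the configuration `C` carries the data `XData` (true for every configuration of 4 lines and for 5 lines with two triple points;
module `X/Cl`, helper15), then for every `n ≥ 4` the Hirzebruch-Kummer covering has a non trivial formal deformation over `k[[X]]`.

The deformation: let `y_i` be the homogeneous coordinates of the covering, `y_i^n = ℓ_i`, `v_i = y_i/y_o`. The relation `∑ c_i ℓ_i = 0` gives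
`∑ c_i y_i^n = 0`; the deformation is `∑ c_i y_i^n + X y_o^(n-2) y_e^2 = 0`. On the chart `u` it is trivialised by `v_i ↦ v_i (1 + α_i x_u)`, where
`a u = ∑ c_i α_i ℓ_i` is a form without zeros on the chart and `x_u` a power series with coefficients in `u.A`, found by Hensel's lemma.
`θ_u` is the automorphism of `K[[X]]` which maps the deformed coordinates `(v_i, V_p)` of the base trivialisation to `v_i (1 + α_i x_u)`.
The formal deformation is `g_uv = θ_u θ_v⁻¹`.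

RULES. Module N: file `Pool/Agent/Lib/MP_4318ff_ag/X/N.lean`, import `Pool.Agent.Lib.MP_4318ff_ag.Spec.X1` (and `X.Pcs`, basic lemmas on power series),
namespace `Pool.Agent.Lib.MP_4318ff_ag`, auxiliary lemmas with names starting with `xn_` (lower case name of the module), final theorem
`theorem tN : AStmt → ... → NStmt` for the statements quoted after USES. All modules are independent. `φ = algebraMap (F k) K`, `cc = constantCoeff`.
-/

set_option autoImplicit false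

namespace Pool.Agent.Lib.MP_4318ff_ag

open scoped LinearAlgebra.Projectivization

/-! ### Power series -/

/-- The power series with coefficients in the subring `A`. -/
def pcs {K : Type} [Field K] (A : Subring K) : Subring (PowerSeries K) where
  carrier := {s | ∀ n, PowerSeries.coeff n s ∈ A}
  mul_mem' := by
    intro s t hs ht n
    rw [PowerSeries.coeff_mul]
    exact A.sum_mem fun p _ => A.mul_mem (hs _) (ht _)
  one_mem' := by
    intro n
    rw [PowerSeries.coeff_one]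
    split_ifs
    · exact A.one_mem
    · exact A.zero_mem
  add_mem' := by
    intro s t hs ht n
    rw [map_add]
    exact A.add_mem (hs n) (ht n)
  zero_mem' := by
    intro n
    rw [map_zero]
    exact A.zero_mem
  neg_mem' := by
    intro s hs n
    rw [map_neg]
    exact A.neg_mem (hs n)

/-! ### The data -/

/-- The data for the negative half. (Four general lines: `{o, p, e, f}` all lines, all `c i ≠ 0`, `a u = u.b`. A triple point `P` with the lines `o, p, e`: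
`c i = 0` for the other lines, `f` a line not through `P`, `a u = u.a P`; if there is a fifth line, then `o, f` and this line pass through the second triple point.) -/
structure XData {k : Type} [Field k] {r : ℕ} (C : Config k r) where
  o : Fin r
  p : Fin r
  e : Fin r
  f : Fin r
  c : Fin r → k
  li : LinearIndependent k ![C.ℓ o, C.ℓ e, C.ℓ f]
  po : p ≠ o
  pe : p ≠ e
  pf : p ≠ f
  co : c o ≠ 0
  cp : c p ≠ 0
  ce : c e ≠ 0
  rel : ∑ i, c i • C.ℓ i = 0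
  other : ∀ i, i ≠ o → i ≠ p → i ≠ e → i ≠ f → c i = 0 ∧ c f = 0 ∧ ∃ x y : k, C.ℓ i = x • C.ℓ o + y • C.ℓ f
  pts : ∀ T ∈ C.M, C.ℓ o ⬝ᵥ T.rep = 0 ∧ (C.ℓ e ⬝ᵥ T.rep = 0 ∨ C.ℓ f ⬝ᵥ T.rep = 0)
  a : Chart C → Fin 3 → k
  al : Chart C → Fin r → k
  a_ne : ∀ u, a u ≠ 0
  al_o : ∀ u, al u o = 0
  al_c : ∀ u i, c i = 0 → al u i = 0
  a_eq : ∀ u, a u = ∑ i, (c i * al u i) • C.ℓ i
  a_R : ∀ u i, c i ≠ 0 → ev (C.ℓ i) / ev (a u) ∈ u.R

section Data

variable {k : Type} [Field k] {r : ℕ} {C : Config k r} (Z : XData C) (n : ℕ) {K : Type} [Field K] [Algebra (F k) K]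
  [Algebra k K]

/-- `v i` are `n`-th roots of `ℓ_i/ℓ_o`, `v o = 1`. -/
structure XRoots (v : Fin r → K) : Prop where
  vo : v Z.o = 1
  vn : ∀ i, v i ^ n = algebraMap (F k) K (ev (C.ℓ i) / ev (C.ℓ Z.o))

/-- The `i`-th coordinate in the trivialisation on the chart `u`. -/
noncomputable def Vi (v : Fin r → K) (u : Chart C) (x : PowerSeries K) (i : Fin r) : PowerSeries K :=
  PowerSeries.C (v i) * (1 + PowerSeries.C (algebraMap k K (Z.al u i)) * x)

/-- The power series `x` of the chart `u`. -/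
structure XSol (v : Fin r → K) (u : Chart C) (x : PowerSeries K) : Prop where
  mem : x ∈ pcs (u.A K)
  x0 : PowerSeries.constantCoeff x = 0
  x1 : PowerSeries.coeff 1 x = -((n : K)⁻¹ * (v Z.e ^ 2 * algebraMap (F k) K (ev (C.ℓ Z.o) / ev (Z.a u))))
  eq : ∑ i, PowerSeries.C (algebraMap k K (Z.c i)) * Vi Z v u x i ^ n + PowerSeries.X * Vi Z v u x Z.e ^ 2 = 0

/-- The coordinate `y_p/y_o` in the base trivialisation. -/
structure XBase (v : Fin r → K) (Vp : PowerSeries K) : Prop where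
  v0 : PowerSeries.constantCoeff Vp = v Z.p
  eq : Vp ^ n = PowerSeries.C (v Z.p ^ n) - PowerSeries.X * PowerSeries.C (v Z.e ^ 2 / algebraMap k K (Z.c Z.p))

/-- The automorphism `θ` of the chart `u`. -/
structure XTheta (v : Fin r → K) (Vp : PowerSeries K) (u : Chart C) (x : PowerSeries K)
    (θ : PowerSeries K ≃ₐ[k] PowerSeries K) : Prop where
  sol : XSol Z n v u x
  isDef : IsDef θ
  val : ∀ i, i ≠ Z.p → θ (PowerSeries.C (v i)) = Vi Z v u x i
  valp : θ Vp = Vi Z v u x Z.p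

end Data

/-! ### Modules: power series -/

/-- MODULE `X/Hen` (100 lines). Hensel's lemma. PROOF: `c = cc (G.coeff 1)`, `x_0 = 0`, `x_(m+1) = x_m - C c⁻¹ * G(x_m)`. By induction `x_m ∈ pcs A`, `cc x_m = 0`, `X^(m+1) ∣ G(x_m)`: `Polynomial.binomExpansion`:
`G(x_m - y) = G(x_m) - G'(x_m) y + κ y²`, `y = C c⁻¹ G(x_m)`, and `1 - C c⁻¹ G'(x_m)` is divisible by `X` (`cc (G'(x_m)) = cc (G.coeff 1)` because `cc x_m = 0`). The coefficient `j` of `x_m` is constant for `m ≥ j`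
(`x_(m+1) - x_m` is divisible by `X^(m+1)`); let `x = mk (fun j => coeff j (x_j))`; `X^(m+1) ∣ x - x_m`, so `X^(m+1) ∣ G(x)` for all `m` (`Polynomial.sub_dvd_eval_sub`), `G(x) = 0`. `coeff 1 x = coeff 1 x_1 = -c⁻¹ coeff 1 (G.coeff 0)`. Uniqueness: `binomExpansion` at `x`:
`0 = G(y) = G'(x)(y - x) + κ (y - x)²`, so `(y - x) * (G'(x) + κ (y - x)) = 0`; the second factor has constant coefficient `≠ 0`. Third part: apply the first part with `A = ⊤` to `G.comp (X + C (C a))` (coefficient 1 = value of the derivative: `Polynomial.taylor`). -/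
def HenStmt : Prop := ∀ (K : Type) [Field K],
  (∀ (A : Subring K) (G : Polynomial (PowerSeries K)), (∀ i, G.coeff i ∈ pcs A) →
    PowerSeries.constantCoeff (G.coeff 0) = 0 → PowerSeries.constantCoeff (G.coeff 1) ≠ 0 →
    (PowerSeries.constantCoeff (G.coeff 1))⁻¹ ∈ A →
    ∃ x ∈ pcs A, PowerSeries.constantCoeff x = 0 ∧ G.eval x = 0 ∧
      PowerSeries.coeff 1 x = -((PowerSeries.constantCoeff (G.coeff 1))⁻¹ * PowerSeries.coeff 1 (G.coeff 0))) ∧
  (∀ (G : Polynomial (PowerSeries K)) (x y : PowerSeries K),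
    PowerSeries.constantCoeff x = PowerSeries.constantCoeff y → G.eval x = 0 → G.eval y = 0 →
    PowerSeries.constantCoeff (G.derivative.eval x) ≠ 0 → x = y) ∧
  (∀ (G : Polynomial (PowerSeries K)) (a : K), PowerSeries.constantCoeff (G.eval (PowerSeries.C a)) = 0 →
    PowerSeries.constantCoeff (G.derivative.eval (PowerSeries.C a)) ≠ 0 →
    ∃ x, PowerSeries.constantCoeff x = a ∧ G.eval x = 0)

/-- This is `NExtStmt` of Spec/N (module N/NExt), NOT a task of folder X. Extension of a homomorphism `K → K[[X]]` to an automorphism of `K[[X]]`. PROOF: `σ s = mk (fun n => ∑ over (i, j) in antidiagonal n of coeff j (g (coeff i s)))`, i.e. `σ s = ∑ g(s_i) X^i`. Additive, `k`-linear, `σ (X s) = X σ s`, `σ (C a) = g a`, so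
`σ (C a X^i * s) = g a X^i σ s` (for `C a * s`: coefficientwise). Multiplicative: the coefficient `n` of `σ s` depends only on `s` modulo `X^(n+1)`; modulo `X^(n+1)` `s` is a finite sum of terms `C a X^i`, for which `σ (C a X^i * t) = g a X^i σ t = σ(C a X^i) σ t`. (Or: write both sides as a sum over quadruples.)
Injective: if `s = X^m s'`, `cc s' ≠ 0`, then `σ s = X^m σ s'`, `cc (σ s') = cc s'`. Surjective: for `t` define recursively `s_n = t_n - ∑_(i<n) coeff (n-i) (g s_i)` (`Nat.strongRec`, or successive approximation: `s = C(t_0) + X s'` where `σ s' = (t - g t_0)/X`), then `coeff n (σ s) = t_n`. `AlgEquiv.ofBijective`. -/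
def ExtXStmt : Prop := ∀ (k K : Type) [Field k] [Field K] [Algebra k K] (g : K →ₐ[k] PowerSeries K),
  (∀ x, PowerSeries.constantCoeff (g x) = x) →
  ∃ σ : PowerSeries K ≃ₐ[k] PowerSeries K, IsDef σ ∧ ∀ x, σ (PowerSeries.C x) = g x

/-- MODULE `X/Cmp` (60 lines). First order terms; the group structure. PROOF: (1) `σ s`: write `s = C (cc s) + X s'` (`PowerSeries.eq_X_mul_shift_add_const` or similar): `σ s = σ (C (cc s)) + X σ s'`, so `coeff 1 (σ s) = coeff 1 (σ (C (cc s))) + cc s'`, `cc s' = coeff 1 s`. (2) `D x = coeff 1 (σ (C x))` is a derivation: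
`coeff 1 (s t) = cc s coeff 1 t + coeff 1 s cc t` and `cc (σ (C x)) = x`. (3) by (1) for `s = τ (C x)`. (4) inverse: `σ.symm X = X` and `cc (σ.symm s) = cc (σ (σ.symm s)) = cc s`. -/
def CmpStmt : Prop := ∀ (k K : Type) [Field k] [Field K] [Algebra k K],
  (∀ σ : PowerSeries K ≃ₐ[k] PowerSeries K, IsDef σ → ∃ D : Derivation k K K,
    (∀ x, D x = PowerSeries.coeff 1 (σ (PowerSeries.C x))) ∧
    ∀ s, PowerSeries.coeff 1 (σ s) = D (PowerSeries.constantCoeff s) + PowerSeries.coeff 1 s) ∧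
  (∀ σ τ : PowerSeries K ≃ₐ[k] PowerSeries K, IsDef σ → IsDef τ → IsDef (σ * τ)) ∧
  (∀ σ : PowerSeries K ≃ₐ[k] PowerSeries K, IsDef σ → IsDef σ⁻¹)

/-- MODULE `X/Apx` (80 lines). Approximation. PROOF: let `s ∈ pcs W`, `y = θ⁻¹ s`. Show by induction on `N`: for all `s ∈ pcs W` the coefficients `< N` of `θ' (θ⁻¹ s)` lie in `W`. Let `z` be the lift of `w = cc s`. `s - θ z ∈ pcs W` has constant coefficient `0`, `= X s'`, `s' ∈ pcs W`.
`θ⁻¹ s = z + X θ⁻¹ s'`, `θ' (θ⁻¹ s) = θ' z + X θ' (θ⁻¹ s')`. -/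
def ApxStmt : Prop := ∀ (k K : Type) [Field k] [Field K] [Algebra k K] (W : Subring K)
  (θ θ' : PowerSeries K ≃ₐ[k] PowerSeries K), IsDef θ → IsDef θ' →
  (∀ w ∈ W, ∃ z : PowerSeries K, PowerSeries.constantCoeff z = w ∧ θ z ∈ pcs W ∧ θ' z ∈ pcs W) →
  ∀ s ∈ pcs W, (θ' * θ⁻¹) s ∈ pcs W

/-- MODULE `X/Lft` (150 lines). Lifts of the inclusion of a field `K` finite over `F = k(z, w)` with prescribed values on `z, w`. USES `HenStmt` (third part). PROOF: (1) `ψ₀ = aeval ![z', w'] : k[X₀, X₁] → K[[X]]`, `cc (ψ₀ h) = φ (cm z w h)` (induction / `algHom_ext`), which is not `0` for `h ≠ 0` (`cm z w` injective), so `ψ₀ h` is a unit.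
`IsFractionRing.lift`-like extension `ψ₁ : F → K[[X]]`, `ψ₁(algebraMap h) = ψ₀ h`, and the same for `cm z w`: `τ : F → F`, `τ(algebraMap h) = cm z w h`, an isomorphism (injective as a field homomorphism, surjective by `IsCoord`). `ψ = ψ₁ ∘ τ⁻¹`: `ψ z = z'`, `ψ w = w'`, `cc (ψ f) = φ f` (both sides are
homomorphisms of fields which agree on `z, w`). (2) `K = F(θ)`: `pb = Field.powerBasisOfFiniteOfSeparable (F k) K`, `m = minpoly (F k) pb.gen`. View `K[[X]]` as an `F`-algebra through `ψ`. `G = m.map ψ`: `cc (G (C θ)) = aeval θ m = 0`, `cc (G' (C θ)) = aeval θ m' ≠ 0` (separable). Third part of `HenStmt`: a root `θ'` with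
`cc θ' = θ`. `pb.lift θ'` : `g : K → K[[X]]`, `g (φ f) = ψ f`, `g θ = θ'`; `cc ∘ g` is an `F`-algebra homomorphism `K → K` with `θ ↦ θ`, so the identity (`pb.algHom_ext`). It is a `k`-algebra homomorphism because `ψ` is. -/
def LftStmt : Prop := ∀ (k : Type) [Field k] [CharZero k] (K : Type) [Field K] [Algebra (F k) K] [Algebra k K]
  [IsScalarTower k (F k) K] [FiniteDimensional (F k) K] (z w : F k) (z' w' : PowerSeries K), IsCoord z w →
  PowerSeries.constantCoeff z' = algebraMap (F k) K z → PowerSeries.constantCoeff w' = algebraMap (F k) K w →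
  ∃ g : K →ₐ[k] PowerSeries K, (∀ x, PowerSeries.constantCoeff (g x) = x) ∧
    g (algebraMap (F k) K z) = z' ∧ g (algebraMap (F k) K w) = w'

/-! ### Modules: the deformation -/

/-- MODULE `X/Sol` (120 lines). The power series `x_u`, and `V_p`. USES `EvStmt`, `HenStmt`. PROOF: `β_i = φ(ℓ_i/a)`, `a = Z.a u`. For `c i ≠ 0` `β_i ∈ φ(u.R) ⊆ u.A`. `μ = v_e² φ(ℓ_o/a)`; `μ^n = φ((ℓ_e/ℓ_o)² (ℓ_o/a)^n) = φ((ℓ_e/a)² (ℓ_o/a)^(n-2))`, so `μ ∈ u.A` (`2 ≤ n`; `x^n` integral implies `x` integral). Polynomial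
`G = ∑_i C(C(c_i β_i)) (1 + α_i Y)^n + C(X C μ) (1 + α_e Y)²` over `K[[X]]`, coefficients in `pcs (u.A K)`. `G.coeff 0 = ∑ c_i β_i + X μ = X μ` (`∑ c_i ℓ_i = 0`), `G.coeff 1 = n ∑ c_i α_i β_i + 2 α_e X μ`, constant coefficient `n φ(a/a) = n`. `HenStmt` gives `x`, `coeff 1 x = -n⁻¹ μ`. Multiply `G(x) = 0` by `φ(a/ℓ_o)`:
`φ(a/ℓ_o) β_i = v_i^n`, `φ(a/ℓ_o) μ = v_e²`. `V_p`: third part of `HenStmt` for `Y^n - (C (v_p^n) - X C(v_e²/c_p))` and `a = v_p ≠ 0`. -/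
def SolXStmt : Prop := ∀ (k : Type) [Field k] [CharZero k] (r n : ℕ) (C : Config k r) (Z : XData C) (K : Type) [Field K]
  [Algebra (F k) K] [Algebra k K] [IsScalarTower k (F k) K] (v : Fin r → K), 2 ≤ n → XRoots Z n v →
  (∀ u, ∃ x, XSol Z n v u x) ∧ ∃ Vp, XBase Z n v Vp

/-- MODULE `X/The` (150 lines). The automorphism `θ_u`. USES `EvStmt`, `CoordStmt`, `HenStmt` (uniqueness), `ExtXStmt`, `LftStmt`. Uniqueness of roots: `a^n = b^n`, `cc a = cc b ≠ 0` implies `a = b` (`HenStmt` for `Y^n - a^n`, or factor). PROOF: `z = ev ℓ_e/ev ℓ_o`, `w = ev ℓ_f/ev ℓ_o` are coordinates (`CoordStmt`, `Z.li`). `LftStmt` with `z' = (V_e)^n`,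
`w' = (V_f)^n` (`V_i = Vi Z v u x i`, `cc V_i = v_i`), then `ExtXStmt`: `θ` with `θ (C (φ z)) = V_e^n`, `θ (C (φ w)) = V_f^n`. `θ(C v_e)^n = θ(C (φ z)) = V_e^n` and `cc` agree, so `θ (C v_e) = V_e`; the same for `f`. `i = o`: `v_o = 1`, `α_o = 0`. `i` different from `o, p, e, f`: `c_i = c_f = 0`, so `α_i = α_f = 0`, `v_i^n = x + y v_f^n`, so
`θ(C v_i)^n = x + y (C v_f)^n = (C v_i)^n`. `valp`: `θ(Vp)^n = θ(C v_p^n) - X θ(C v_e)²/c_p`, `c_p v_p^n = - ∑_(i ≠ p) c_i v_i^n` (`Z.rel`), so `θ (C v_p^n) = - c_p⁻¹ ∑_(i ≠ p) c_i V_i^n = V_p^n + X V_e²/c_p` by `XSol.eq`; hence `θ(Vp)^n = V_p^n`. -/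
def TheStmt : Prop := ∀ (k : Type) [Field k] [CharZero k] (r n : ℕ) (C : Config k r) (Z : XData C) (K : Type) [Field K]
  [Algebra (F k) K] [Algebra k K] [IsScalarTower k (F k) K] [FiniteDimensional (F k) K] (v : Fin r → K)
  (Vp : PowerSeries K), 0 < n → XRoots Z n v → XBase Z n v Vp →
  ∀ u x, XSol Z n v u x → ∃ θ : PowerSeries K ≃ₐ[k] PowerSeries K, XTheta Z n v Vp u x θ

/-- MODULE `X/LoF` (180 lines). `θ_u` preserves the local rings `O` of `F`. USES `EvStmt`, `CurveStmt`, `ExcStmt`. PROOF: `W = ic K O`, `x ∈ pcs W`, `cc x = 0`. Write forms in the basis `ℓ_o, ℓ_e, ℓ_f` (`Z.li`): `c = γ_o ℓ_o + γ_e ℓ_e + γ_f ℓ_f`, `φ(c/ℓ_o) = γ_o + γ_e v_e^n + γ_f v_f^n`. `ε_i = (1 + α_i x)^n - 1 ∈ pcs W`, `cc ε_i = 0`.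
`θ(C φ(c/ℓ_o)) = C φ(c/ℓ_o) + ∑_(i=e,f) γ_i C(v_i^n) ε_i`. (1) If `c/b, ℓ_e/b, ℓ_f/b ∈ O` then `N(c, b) := θ(C φ(c/ℓ_o)) C φ(ℓ_o/b) = C φ(c/b) + ∑ γ_i C φ(ℓ_i/b) ε_i ∈ pcs W`, `cc = φ(c/b)`. So for a unit form `b`: `θ(C φ(c/b)) = N(c,b) N(b,b)⁻¹ ∈ pcs W` (`cc N(b,b) = 1`). (2) `O` exceptional over `T ∈ C.M`,
`c, c' ∈ T^⊥`, `c' ≠ 0`: `c = γ_o ℓ_o + γ_i ℓ_i` where `i = e` or `f` is the line through `T` of `Z.pts` (the third coefficient is `0` because the forms `ℓ_o, ℓ_i` span `T^⊥`), so `θ(C φ(c/ℓ_o)) C φ(ℓ_o/c') = C φ(c/c') + γ_i C φ(ℓ_i/c') ε_i ∈ pcs W` (`ExcStmt`: quotients of forms of `T^⊥`); for `c = c'` its constant coefficient is `1`. So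
`θ(C φ(d/c)) ∈ pcs W` for `c, d ∈ T^⊥`, `c ≠ 0`. (3) `O` is the localisation of `k[z, w]` at `p` (`z = c/b, w = d/b`, or `z = c/b, w = d/c`), `θ(C φ z), θ(C φ w) ∈ pcs W`. By induction on the polynomial `θ(C φ(cm z w h)) ∈ pcs W`. `f ∈ O`: `f h₂ = h₁`, `p ∤ h₂`, `(cm z w h₂)⁻¹ ∈ O`: `θ(C φ f) = θ(C φ h₁) θ(C φ h₂)⁻¹` and
`cc θ(C φ h₂) = φ h₂` has its inverse in `W`. -/
def LoFStmt : Prop := ∀ (k : Type) [Field k] [CharZero k] (r n : ℕ) (C : Config k r) (Z : XData C) (K : Type) [Field K]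
  [Algebra (F k) K] [Algebra k K] [IsScalarTower k (F k) K] (v : Fin r → K) (Vp : PowerSeries K), XRoots Z n v →
  ∀ u x θ, XTheta Z n v Vp u x θ → ∀ O, IsDiv C O → u.R ≤ O → ∀ f ∈ O,
    θ (PowerSeries.C (algebraMap (F k) K f)) ∈ pcs (MP_4318ff_ag.ic K O)

/-- MODULE `X/Lif` (180 lines). Lifts of the elements of `ic K O` which are regular in all trivialisations. USES `EvStmt`, `UnifStmt`, `CurveStmt`, `ExcStmt`, `KumDecStmt`, `LoFStmt`. PROOF: `W = ic K O`. `KumDecStmt` (`S = O`): `w` is a sum of `± h`, `h ∈ W`, `h^n = φ(c^n ∏ ℓ_i^(e_i))`, `∑ e_i = 0`; lifts can be added, `0` is lifted by `0`. Let `V*_i = C v_i`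
for `i ≠ p`, `V*_p = Vp`; `θ(V*_i) = Vi i = C v_i (1 + α_i x)` with `(1 + α_i x)^(±1) ∈ pcs W` (as `u.A K ≤ W`). `h ≠ 0` w.l.o.g.; `h = ζ φ(c) ∏ v_i^(e_i)` with `ζ ∈ k`, `ζ^n = 1` (`ζ := h/(φ c ∏ v_i^(e_i))` has `ζ^n = 1`, `k` algebraically closed). (a) all `ℓ_i/ℓ_j ∈ O`: `v_i^(±1) ∈ W`, `h^n ∈ W` gives
`c^n ∈ O` (integrally closed), `c ∈ O`. Lift `ζ C φ(c) ∏ V*_i^(e_i)`; its image under `θ` is `ζ θ(C φ c) ∏ (Vi i)^(e_i) ∈ pcs W` (`LoFStmt`). (b) otherwise some `π = ℓ_i/ℓ_j` is a uniformiser (as in `desc_unif` of `A/Desc`: if `ℓ_j/ℓ_i ∉ O` then `ℓ_i/ℓ_j` is a uniformiser), `c = π^m ε`, `ε, ε⁻¹ ∈ O`. Lift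
`ζ (V*_i/V*_j)^(n m) C φ(ε) ∏ V*_l^(e_l)`: `φ π = (v_i/v_j)^n`; image under `θ`: `ζ (v_i/v_j)^(nm) ∏ v_l^(e_l) · θ(C φ ε) · (product of powers of (1 + α x)) = h · φ(ε)⁻¹ θ(C φ ε) · (…) ∈ pcs W`. (`V*_i⁻¹`: inverse power series, constant coefficient `v_i ≠ 0`; products of integer powers in the field of fractions or with
`PowerSeries` units: `PowerSeries.inv`.) -/
def LifStmt : Prop := ∀ (k : Type) [Field k] [CharZero k] [IsAlgClosed k] (r n : ℕ) (C : Config k r) (Z : XData C) (K : Type)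
  [Field K] [Algebra (F k) K] [Algebra k K] [IsScalarTower k (F k) K] [FiniteDimensional (F k) K] [IsGalois (F k) K]
  (v : Fin r → K) (Vp : PowerSeries K), 0 < n → XRoots Z n v → XBase Z n v Vp → Kummer K C n = ⊤ →
  ∀ O, IsDiv C O → ∀ w ∈ MP_4318ff_ag.ic K O, ∃ z : PowerSeries K, PowerSeries.constantCoeff z = w ∧
    ∀ u x θ, XTheta Z n v Vp u x θ → u.R ≤ O → θ z ∈ pcs (MP_4318ff_ag.ic K O)

/-- MODULE `X/Glu` (40 lines). USES `HartUVStmt`, `OverlapStmt`, `UnifStmt`, `CurveStmt`, `ExcStmt`. PROOF: `u.A ⊔ v.A = ic K (u.R ⊔ v.R)` (`OverlapStmt`); as in `A/HartK` (`ic_of_forall` of `A/G1`, `hartK_intClosed`) with `HartUVStmt` instead of `HartStmt`. -/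
def GluStmt : Prop := ∀ (k : Type) [Field k] (r : ℕ) (C : Config k r) (K : Type) [Field K] [Algebra (F k) K]
  [FiniteDimensional (F k) K] (u v : Chart C) (y : K),
  (∀ O, IsDiv C O → u.R ≤ O → v.R ≤ O → y ∈ MP_4318ff_ag.ic K O) → y ∈ u.A K ⊔ v.A K

/-- MODULE `X/For` (80 lines). The formal deformation. USES `SolXStmt`, `TheStmt`, `LifStmt`, `ApxStmt`, `GluStmt`, `CmpStmt`. PROOF: choose `x u`, `Vp`, `θ u`. `g u v = θ u * (θ v)⁻¹`. For a divisor `O` with `u.R, v.R ≤ O`: `LifStmt` and `ApxStmt` (`W = ic K O`, `θ := θ v`, `θ' := θ u`): `pcs (ic K O)` is preserved, so for `s ∈ pcs (u.A ⊔ v.A)`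
(`⊆ pcs (ic K O)`, `u.A K ≤ ic K O`) all coefficients of `g u v s` lie in `ic K O`; `GluStmt`. -/
def ForStmt : Prop := ∀ (k : Type) [Field k] [CharZero k] [IsAlgClosed k] (r n : ℕ) (C : Config k r) (Z : XData C) (K : Type)
  [Field K] [Algebra (F k) K] [Algebra k K] [IsScalarTower k (F k) K] [FiniteDimensional (F k) K] [IsGalois (F k) K]
  (v : Fin r → K), 2 ≤ n → XRoots Z n v → Kummer K C n = ⊤ →
  ∃ (x : Chart C → PowerSeries K) (Vp : PowerSeries K) (θ : Chart C → PowerSeries K ≃ₐ[k] PowerSeries K),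
    XBase Z n v Vp ∧ (∀ u, XTheta Z n v Vp u (x u) (θ u)) ∧
    ∀ u w, ∀ s ∈ pcs (u.A K ⊔ w.A K), (θ u * (θ w)⁻¹) s ∈ pcs (u.A K ⊔ w.A K)

/-! ### Modules: the deformation is not trivial -/

/-- MODULE `X/Ho` (80 lines). `H⁰(P², O(-1)) = 0`. USES `EvStmt`, `CoordStmt`, `CurveStmt`, `LocStmt`, `HartAStmt`, `OrdStmt`. PROOF: choose a basis `b, c, d`. `f b/ℓ = h(z, w)`, `z = c/b`, `w = d/b` (`HartAStmt`). At the line `b = 0` (coordinates `1/z = b/c`, `w/z = d/c`; `c` is a unit form there; compare `C/Const`) `f c/ℓ = (f b/ℓ) z = h(z,w) z ∈ O`,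
so all monomials of `X₀ h` have degree `≤ 0` (`OrdStmt` with `e = 0` for the polynomial `X₀ h`), `h = 0`. -/
def HoStmt : Prop := ∀ (k : Type) [Field k] (f : F k) (ℓ : Fin 3 → k), ℓ ≠ 0 →
  (∀ O, IsCurve O → ∀ b, UnitForm O b → f * (ev b / ev ℓ) ∈ O) → f = 0

/-- MODULE `X/Prj` (100 lines). Projection to the eigenspace of `m`. PROOF: `G = Gal(K/F)`. `χ g = g m/m`, `(χ g)^n = 1`, so `χ g ∈ k` (algebraically closed); `χ (g h) = χ g χ h`. `e x = |G|⁻¹ ∑_g (χ g)⁻¹ g x`, `F`-linear, `e m = m`; `g' (e x) = χ(g') e x`, so `e x/m` is fixed, in `F` (`IsGalois.mem_bot_iff_fixed` or similar). If `y^n ∈ F`, `y ≠ 0`, `y x ∈ W = ic K O`: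
`g y = η y` with `η ∈ k`, `η^n = 1`, `g (y x) ∈ W`, so `y g(x) = η⁻¹ g(y x) ∈ W`, and `y e(x) ∈ W` (`k ⊆ W`). -/
def PrjStmt : Prop := ∀ (k : Type) [Field k] [CharZero k] [IsAlgClosed k] (n : ℕ) (K : Type)
  [Field K] [Algebra (F k) K] [Algebra k K] [IsScalarTower k (F k) K] [FiniteDimensional (F k) K] [IsGalois (F k) K]
  (m : K), 0 < n → m ≠ 0 → (∃ f, m ^ n = algebraMap (F k) K f) →
  ∃ e : K →ₗ[F k] K, (∀ x, ∃ f, e x = algebraMap (F k) K f * m) ∧ e m = m ∧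
    ∀ (O : Subalgebra k (F k)) (x y : K), y ≠ 0 → (∃ f, y ^ n = algebraMap (F k) K f) →
      y * x ∈ MP_4318ff_ag.ic K O → y * e x ∈ MP_4318ff_ag.ic K O

/-- MODULE `X/Lam` (150 lines). The main computation. USES `EvStmt`, `UnifStmt`, `CurveStmt`. Let `O` be a curve, `b` a unit form at `O`, `i, j` lines, `m = v_e²`, `f ∈ F` such that `(v_i/v_j) f m ∈ ic K O` if `ℓ_j` is a unit form at `O` and `(v_j/v_i) f m ∈ ic K O` if `ℓ_i` is a unit form. Then `f b/ℓ_o ∈ O`. PROOF: `i = j`: then `ℓ_j`... one of the two cases applies unless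
`ℓ_i = ℓ_j` is not a unit form; so assume `i ≠ j`. At most one of the lines `ℓ_l` is not a unit form (`CurveStmt`, `C.indep`), so `ℓ_j` or `ℓ_i` is a unit form, by symmetry `ℓ_j`. The `n`-th power lies in `O` (`ic K O ∩ F = O`): `(ℓ_i/ℓ_j) f^n (ℓ_e/ℓ_o)² = (ℓ_i/ℓ_j) (f b/ℓ_o)^n (ℓ_e/b)² (ℓ_o/b)^(n-2) ∈ O`. If `f b/ℓ_o ∉ O` it is
`π^(-q) · unit`, `q ≥ 1`, where `π` is a uniformiser; if all of `ℓ_i, ℓ_e, ℓ_o` are unit forms we get `π^(-nq) ∈ O`, a contradiction. If one of them is not a unit form, the quotient `ℓ/b` of it is a uniformiser times a unit, the others are unit forms: the product has order `-nq + (1 if it is ℓ_i) + (2 if it is ℓ_e) + (n-2 if it is ℓ_o)`, at most `-n + 1 + (n - 2) < 0`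
(`n ≥ 4`; `ℓ_i` may be equal to `ℓ_e` or `ℓ_o`). Contradiction. (`UnifStmt`, last part.) -/
def LamStmt : Prop := ∀ (k : Type) [Field k] (r n : ℕ) (C : Config k r) (Z : XData C) (K : Type)
  [Field K] [Algebra (F k) K] [Algebra k K] [IsScalarTower k (F k) K] (v : Fin r → K), 4 ≤ n → XRoots Z n v →
  ∀ (O : Subalgebra k (F k)) (b : Fin 3 → k) (i j : Fin r) (f : F k), IsCurve O → UnitForm O b → i ≠ j →
  (UnitForm O (C.ℓ j) → v i / v j * (algebraMap (F k) K f * v Z.e ^ 2) ∈ MP_4318ff_ag.ic K O) →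
  (UnitForm O (C.ℓ i) → v j / v i * (algebraMap (F k) K f * v Z.e ^ 2) ∈ MP_4318ff_ag.ic K O) →
  f * (ev b / ev (C.ℓ Z.o)) ∈ O

/-- MODULE `X/Dvr` (80 lines). USES `EvStmt`. A derivation of `u.A K` is regular on `v_i/v_j` where `ℓ_j` is a unit form. PROOF: `q₁ = v_i v_j^(n-1) φ(ℓ_o/b)`, `b = u.b`, `q₁^n = φ((ℓ_i/b)(ℓ_j/b)^(n-1))`, so `q₁ ∈ u.A K`; `q₂ = φ(ℓ_j/b) ∈ u.A K`; `v_i/v_j = q₁/q₂`, `q₂⁻¹ = φ(b/ℓ_j) ∈ φ(O)`; `D q₁, D q₂ ∈ u.A K ≤ ic K O`; quotient rule. -/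
def DvrStmt : Prop := ∀ (k : Type) [Field k] (r n : ℕ) (C : Config k r) (Z : XData C) (K : Type)
  [Field K] [Algebra (F k) K] [Algebra k K] [IsScalarTower k (F k) K] (v : Fin r → K), 0 < n → XRoots Z n v →
  ∀ (u : Chart C) (O : Subalgebra k (F k)) (i j : Fin r) (D : Derivation k K K), u.R ≤ O → UnitForm O (C.ℓ j) →
  (∀ y ∈ u.A K, D y ∈ u.A K) → D (v i / v j) ∈ MP_4318ff_ag.ic K O

/-- MODULE `X/Non` (180 lines). The deformation is not trivial. USES `EvStmt`, `CurveStmt`, `ChartExStmt`, `CmpStmt`, `HoStmt`, `PrjStmt`, `LamStmt`, `DvrStmt`. PROOF: `h u * θ u = h w * θ w =: H` for all charts `u, w` (there is a chart). Let `Y`, `E u`, `D u` be the derivations of `H`, `h u`, `θ u` (`CmpStmt`): `Y = E u + D u` (`coeff 1 (h u (θ u (C x)))`),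
`E u` maps `u.A K` to itself. `ξ u = coeff 1 (x u) = -n⁻¹ m φ(ℓ_o/a_u)`, `m = v_e²`. `D u (v_i) = α_i ξ u v_i` for `i ≠ p` (`val`). Let `κ = m/(n c_p v_p^n)`: `D u (v_p)/v_p = α_p ξ u + κ`: differentiate `∑ c_i v_i^n = 0`: `n c_p v_p^(n-1) D(v_p) = - ∑_(i ≠ p) n c_i α_i ξ v_i^n = -n ξ φ(a_u/ℓ_o) + n c_p α_p ξ v_p^n` (`a_eq`), and
`-ξ φ(a_u/ℓ_o) = m/n`. Define `Λ_i = Y(v_i)/v_i - [i = p] κ = E u (v_i)/v_i + α_i ξ u` for all `u`. (1) `∑ c_i v_i^n Λ_i = n⁻¹ Y(∑ c_i v_i^n) - c_p v_p^n κ = -m/n`. (2) `O` a curve with the unit form `ℓ_j`: take a chart `u` with `u.R ≤ O` (`ChartExStmt`): `(v_i/v_j)(Λ_i - Λ_j) = E u (v_i/v_j) + (v_i/v_j)(α_i - α_j) ξ u ∈ ic K O` (`DvrStmt`;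
`(v_i/v_j)^n = φ(ℓ_i/ℓ_j)`, `ξ u ∈ u.A K` as the coefficient of `x u ∈ pcs (u.A K)`). (3) `e` from `PrjStmt` for `m`: `e(Λ_i - Λ_j) = φ(f_ij) m`, `(v_i/v_j) φ(f_ij) m ∈ ic K O`; `f_ji = - f_ij`. `LamStmt` gives `f_ij b/ℓ_o ∈ O` for all curves `O` and unit forms `b`, `HoStmt`: `f_ij = 0` for `i ≠ j`. So `e(Λ_i) = e(Λ_i - Λ_o) = 0`
(`Λ_o = 0` because `v_o = 1`, `p ≠ o`), and `-m/n = e(-m/n) = ∑ c_i v_i^n e(Λ_i) = 0` (`v_i^n ∈ φ(F)`). Contradiction (`m ≠ 0`). -/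
def NonStmt : Prop := ∀ (k : Type) [Field k] [CharZero k] [IsAlgClosed k] (r n : ℕ) (C : Config k r) (Z : XData C) (K : Type)
  [Field K] [Algebra (F k) K] [Algebra k K] [IsScalarTower k (F k) K] [FiniteDimensional (F k) K] [IsGalois (F k) K]
  (v : Fin r → K) (x : Chart C → PowerSeries K) (Vp : PowerSeries K) (θ h : Chart C → PowerSeries K ≃ₐ[k] PowerSeries K),
  4 ≤ n → XRoots Z n v → (∀ u, XTheta Z n v Vp u (x u) (θ u)) →
  (∀ u, IsDef (h u)) → (∀ u, ∀ s ∈ pcs (u.A K), h u s ∈ pcs (u.A K)) →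
  (∀ u w, θ u * (θ w)⁻¹ = (h u)⁻¹ * h w) → False

/-- MODULE `X/Kum` (150 lines). The Kummer field. PROOF: `L = AlgebraicClosure (F k)`, `K = IntermediateField.adjoin (F k) S`, `S = {u | ∃ i j, u^n = ev ℓ_i/ev ℓ_j}` (as elements of `L`). `S` is finite (roots of finitely many polynomials), its elements are algebraic, so `K` is finite. `K` is normal: it is generated by all roots of the polynomials
`X^n - ev ℓ_i/ev ℓ_j` (`Normal` of a splitting field, or: every `F`-automorphism of `L` maps `S` to itself), separable in characteristic `0`. `Roots`: `L` is algebraically closed. `Kummer K C n = ⊤`: it is a subfield containing `F` and (the preimages of) `S`. `IsEtaleCover`: the inclusion `u.A K ⊓ Kummer → u.A K` is bijective (`Kummer = ⊤`), so etale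
(`RingHom.Etale` of a ring isomorphism: `RingHom.Etale.of_bijective` or `RingHom.Etale.respectsIso` ...). `Algebra k K` from the tower. -/
def KumXStmt : Prop := ∀ (k : Type) [Field k] [CharZero k] [IsAlgClosed k] (r n : ℕ) (C : Config k r), 0 < n →
  ∃ (K : Type) (_ : Field K) (_ : Algebra (F k) K) (_ : Algebra k K) (_ : IsScalarTower k (F k) K),
    FiniteDimensional (F k) K ∧ IsGalois (F k) K ∧ Kummer K C n = ⊤ ∧ IsEtaleCover C n K

/-- MODULE `X/Fin` (60 lines). USES `EvStmt`, `ForStmt`, `NonStmt`, `KumXStmt`. PROOF: `K` from `KumXStmt`; `Roots` gives `v i` with `v_i^n = φ(ℓ_i/ℓ_o)`, `v o := 1`. `ForStmt` gives `θ`, `g u w = θ u * (θ w)⁻¹` is a formal deformation (`IsDefCocycle`: `IsDef` is stable under products and inverses, see `X/Pcs`); if it were trivial,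
`NonStmt` would give a contradiction. -/
def XFinStmt : Prop := ∀ (k : Type) [Field k] [CharZero k] [IsAlgClosed k] (r n : ℕ) (C : Config k r), Nonempty (XData C) →
  4 ≤ n → ¬ EtaleRigid C n

/-- MODULE `X/Cl` (helper15). Classification: configurations with 4 lines, and linearly rigid configurations with 5 lines, carry the data. -/
def ClStmt : Prop := ∀ (k : Type) [Field k] [Infinite k] (r : ℕ) (C : Config k r),
  (∀ β : Fin r → Fin 3 → k,
    (∀ P ∈ C.M, ∃ w : Fin 3 → k, ∀ i ∈ C.through P, β i ⬝ᵥ P.rep + C.ℓ i ⬝ᵥ w = 0 ∧ β i ⬝ᵥ w = 0) →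
    ∃ (B : Matrix (Fin 3) (Fin 3) k) (s : Fin r → k), ∀ i, β i = Matrix.vecMul (C.ℓ i) B + s i • C.ℓ i) →
  (r = 4 ∨ r = 5) → Nonempty (XData C)

end Pool.Agent.Lib.MP_4318ff_ag
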